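import Pool.Agent.H71Beraha.Rel

set_option autoImplicit false
set_option linter.all false

namespace Pool.Agent.H71Beraha

open Polynomial Filter Topology

/-- exponents with prescribed sign change -/
theorem exists_exponents_aux (r s : ℝ) (hr : 0 < r) (hrs : r < s) :
    ∃ k l : ℕ, Odd k ∧ (k : ℝ) * r < l ∧ (l : ℝ) < k * s := by
  obtain ⟨n, hn⟩ := exists_nat_gt (1 / (s - r))
  have hsr : 0 < s - r := by linarith
  refine ⟨2 * n + 1, ⌊((2 * n + 1 : ℕ) : ℝ) * r⌋₊ + 1, ⟨n, rfl⟩, ?_, ?_⟩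
  · push_cast
    have := Nat.lt_floor_add_one (((2 * n + 1 : ℕ) : ℝ) * r)
    push_cast at this
    exact this
  · have h0 : 0 ≤ ((2 * n + 1 : ℕ) : ℝ) * r := by positivity
    have h1 := Nat.floor_le h0
    have h2 : 1 < n * (s - r) := by
      rw [div_lt_iff₀ hsr] at hn
      exact hn
    push_cast at h1 ⊢
    nlinarith

theorem exists_exponents (a b c d : ℝ) (hab : a * b < 0) (hcd : c * d < 0) (hbd : 0 < b * d)
    (hne : a * d ≠ c * b) :
    ∃ k l : ℕ, Odd k ∧ ((k : ℝ) * a + l * b) * (k * c + l * d) < 0 := by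
  have hb : b ≠ 0 := by rintro rfl; simp at hab
  have hd : d ≠ 0 := by rintro rfl; simp at hcd
  have hr : 0 < -a / b := by
    have : -a / b = -(a * b) / b ^ 2 := by field_simp
    rw [this]; apply div_pos (by linarith) (by positivity)
  have hs : 0 < -c / d := by
    have : -c / d = -(c * d) / d ^ 2 := by field_simp
    rw [this]; apply div_pos (by linarith) (by positivity)
  have key : ∀ k l : ℕ, ((k : ℝ) * a + l * b) * (k * c + l * d) =
      (b * d) * ((l - k * (-a / b)) * (l - k * (-c / d))) := by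
    intro k l
    field_simp
    ring
  have hrs : -a / b ≠ -c / d := by
    intro h
    apply hne
    rw [div_eq_div_iff hb hd] at h
    linarith
  rcases lt_or_gt_of_ne hrs with h | h
  · obtain ⟨k, l, hk, h1, h2⟩ := exists_exponents_aux _ _ hr h
    refine ⟨k, l, hk, ?_⟩
    rw [key]
    apply mul_neg_of_pos_of_neg hbd
    apply mul_neg_of_pos_of_neg <;> linarith
  · obtain ⟨k, l, hk, h1, h2⟩ := exists_exponents_aux _ _ hs h
    refine ⟨k, l, hk, ?_⟩
    rw [key]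
    apply mul_neg_of_pos_of_neg hbd
    apply mul_neg_of_neg_of_pos <;> linarith

theorem ev_dom (a b c A B C : ℝ) (hA : 0 < A) (hb : |b| < |a|) (hc : |c| < |a|) :
    ∀ᶠ m : ℕ in atTop, |B * b ^ m + C * c ^ m| < A * |a| ^ m := by
  have ha : 0 < |a| := lt_of_le_of_lt (abs_nonneg b) hb
  have h1 : Tendsto (fun m : ℕ => |B| * (|b| / |a|) ^ m + |C| * (|c| / |a|) ^ m) atTop
      (𝓝 (|B| * 0 + |C| * 0)) := by
    apply Tendsto.add
    · exact (tendsto_pow_atTop_nhds_zero_of_lt_one (by positivity)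
        (by rw [div_lt_one ha]; exact hb)).const_mul _
    · exact (tendsto_pow_atTop_nhds_zero_of_lt_one (by positivity)
        (by rw [div_lt_one ha]; exact hc)).const_mul _
  simp only [mul_zero, add_zero] at h1
  filter_upwards [h1.eventually (gt_mem_nhds hA)] with m hm
  have h2 : |B| * |b| ^ m + |C| * |c| ^ m < A * |a| ^ m := by
    have h3 : |B| * |b| ^ m + |C| * |c| ^ m =
        (|B| * (|b| / |a|) ^ m + |C| * (|c| / |a|) ^ m) * |a| ^ m := by
      rw [div_pow, div_pow]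
      field_simp
    rw [h3]
    exact mul_lt_mul_of_pos_right hm (by positivity)
  calc |B * b ^ m + C * c ^ m| ≤ |B * b ^ m| + |C * c ^ m| := abs_add_le _ _
    _ = |B| * |b| ^ m + |C| * |c| ^ m := by rw [abs_mul, abs_mul, abs_pow, abs_pow]
    _ < _ := h2

theorem sign_of_dom (a s A : ℝ) (h : |s| < A * |a|) : 0 < (A * a + s) * a := by
  have ha : 0 < |a| := by
    rcases eq_or_lt_of_le (abs_nonneg a) with h0 | h0
    · rw [← h0, mul_zero] at h
      exact absurd h (not_lt.2 (abs_nonneg s))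
    · exact h0
  have h1 : |s * a| < A * a ^ 2 := by
    rw [abs_mul]
    have : A * a ^ 2 = A * |a| * |a| := by rw [mul_assoc, ← sq, sq_abs]
    rw [this]
    exact mul_lt_mul_of_pos_right h ha
  have h2 := neg_abs_le (s * a)
  nlinarith

/-- the closing functional -/
noncomputable def Phi (q u w g : ℝ) : ℝ := (q - 1) * (q - 3) * u + (q - 2) * w - (q ^ 2 - 3 * q + 1) * g

theorem ev_sign_u (q u w g : ℝ) (hq : 3 < q) (h1 : |w| < |u|) (h2 : |g| < |u|) :
    ∀ᶠ m : ℕ in atTop, 0 < Phi q (u ^ m) (w ^ m) (g ^ m) * u ^ m := by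
  have hA : 0 < (q - 1) * (q - 3) := mul_pos (by linarith) (by linarith)
  filter_upwards [ev_dom u w g ((q - 1) * (q - 3)) (q - 2) (-(q ^ 2 - 3 * q + 1)) hA h1 h2] with m hm
  have := sign_of_dom (u ^ m) ((q - 2) * w ^ m + -(q ^ 2 - 3 * q + 1) * g ^ m) ((q - 1) * (q - 3))
    (by rw [abs_pow]; exact hm)
  unfold Phi
  convert this using 2
  ring

theorem ev_sign_w (q u w g : ℝ) (hq : 3 < q) (h1 : |u| < |w|) (h2 : |g| < |w|) :
    ∀ᶠ m : ℕ in atTop, 0 < Phi q (u ^ m) (w ^ m) (g ^ m) * w ^ m := by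
  have hA : 0 < (q - 2) := by linarith
  filter_upwards [ev_dom w u g (q - 2) ((q - 1) * (q - 3)) (-(q ^ 2 - 3 * q + 1)) hA h1 h2] with m hm
  have := sign_of_dom (w ^ m) ((q - 1) * (q - 3) * u ^ m + -(q ^ 2 - 3 * q + 1) * g ^ m) (q - 2)
    (by rw [abs_pow]; exact hm)
  unfold Phi
  convert this using 2
  ring

/-- sign change between two points -/
theorem sign_change (x y : ℝ) (hx : 3 < x) (hy : 3 < y)
    (wx ux gx Wx Ux Gx wy uy gy Wy Uy Gy : ℝ)
    (hx1 : wx * ux < 0) (hx2 : |gx| < |ux|) (hx3 : 0 < Wx) (hx4 : 0 < Ux) (hx5 : |Gx| < Ux)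
    (hy1 : wy * uy < 0) (hy2 : |gy| < |uy|) (hy3 : 0 < Wy) (hy4 : 0 < Uy) (hy5 : |Gy| < Uy)
    (huu : 0 < ux * uy)
    (hLx : (Real.log wx - Real.log ux) * (Real.log Wx - Real.log Ux) < 0)
    (hLy : (Real.log wy - Real.log uy) * (Real.log Wy - Real.log Uy) < 0)
    (hLL : 0 < (Real.log Wx - Real.log Ux) * (Real.log Wy - Real.log Uy))
    (hne : (Real.log wx - Real.log ux) * (Real.log Wy - Real.log Uy) ≠
      (Real.log wy - Real.log uy) * (Real.log Wx - Real.log Ux)) :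
    ∃ k l : ℕ, 1 ≤ k ∧ Phi x (ux ^ k * Ux ^ l) (wx ^ k * Wx ^ l) (gx ^ k * Gx ^ l) *
      Phi y (uy ^ k * Uy ^ l) (wy ^ k * Wy ^ l) (gy ^ k * Gy ^ l) < 0 := by
  obtain ⟨k, l, hk, hkl⟩ := exists_exponents _ _ _ _ hLx hLy hLL hne
  have hk0 : k ≠ 0 := by rintro rfl; simp at hk
  -- general facts at one point
  have gen : ∀ w u g W U G : ℝ, w * u < 0 → |g| < |u| → 0 < W → 0 < U → |G| < U →
      (|g ^ k * G ^ l| < |u ^ k * U ^ l|) ∧
      ((k : ℝ) * (Real.log w - Real.log u) + l * (Real.log W - Real.log U) =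
        Real.log |w ^ k * W ^ l| - Real.log |u ^ k * U ^ l|) ∧
      0 < |w ^ k * W ^ l| ∧ 0 < |u ^ k * U ^ l| ∧ (w ^ k * W ^ l) * (u ^ k * U ^ l) < 0 := by
    intro w u g W U G h1 h2 h3 h4 h5
    have hw : w ≠ 0 := by rintro rfl; simp at h1
    have hu : u ≠ 0 := by rintro rfl; simp at h1
    refine ⟨?_, ?_, ?_, ?_, ?_⟩
    · rw [abs_mul, abs_mul, abs_pow, abs_pow, abs_pow, abs_pow, abs_of_pos h4]
      have h6 : |g| ^ k < |u| ^ k := pow_lt_pow_left₀ h2 (abs_nonneg _) hk0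
      have h7 : |G| ^ l ≤ U ^ l := pow_le_pow_left₀ (abs_nonneg _) h5.le _
      calc |g| ^ k * |G| ^ l ≤ |g| ^ k * U ^ l := mul_le_mul_of_nonneg_left h7 (by positivity)
        _ < |u| ^ k * U ^ l := mul_lt_mul_of_pos_right h6 (by positivity)
    · rw [Real.log_abs, Real.log_abs, Real.log_mul (pow_ne_zero _ hw) (pow_ne_zero _ h3.ne'),
        Real.log_mul (pow_ne_zero _ hu) (pow_ne_zero _ h4.ne'), Real.log_pow, Real.log_pow,
        Real.log_pow, Real.log_pow]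
      ring
    · exact abs_pos.2 (mul_ne_zero (pow_ne_zero _ hw) (pow_ne_zero _ h3.ne'))
    · exact abs_pos.2 (mul_ne_zero (pow_ne_zero _ hu) (pow_ne_zero _ h4.ne'))
    · have h8 : (w ^ k * W ^ l) * (u ^ k * U ^ l) = (w * u) ^ k * (W ^ l * U ^ l) := by ring
      rw [h8]
      exact mul_neg_of_neg_of_pos (hk.pow_neg h1) (by positivity)
  obtain ⟨x1, x2, x3, x4, x5⟩ := gen wx ux gx Wx Ux Gx hx1 hx2 hx3 hx4 hx5
  obtain ⟨y1, y2, y3, y4, y5⟩ := gen wy uy gy Wy Uy Gy hy1 hy2 hy3 hy4 hy5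
  rw [x2, y2] at hkl
  have huu' : 0 < (ux ^ k * Ux ^ l) * (uy ^ k * Uy ^ l) := by
    have h8 : (ux ^ k * Ux ^ l) * (uy ^ k * Uy ^ l) = (ux * uy) ^ k * (Ux ^ l * Uy ^ l) := by ring
    rw [h8]
    positivity
  -- reduce to: one point has u dominating, the other w dominating
  have fin : ∀ (x y ux' wx' gx' uy' wy' gy' : ℝ), 3 < x → 3 < y →
      |gx'| < |ux'| → |gy'| < |uy'| → |wx'| < |ux'| → |uy'| < |wy'| →
      0 < ux' * uy' → wy' * uy' < 0 →
      ∃ m : ℕ, 1 ≤ m ∧ Phi x (ux' ^ m) (wx' ^ m) (gx' ^ m) * Phi y (uy' ^ m) (wy' ^ m) (gy' ^ m) < 0 := by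
    intro x y ux' wx' gx' uy' wy' gy' hx hy h1 h2 h3 h4 h5 h6
    have e1 := ev_sign_u x ux' wx' gx' hx h3 h1
    have e2 := ev_sign_w y uy' wy' gy' hy h4 (h2.trans h4)
    obtain ⟨M, hM⟩ := eventually_atTop.1 (e1.and e2)
    obtain ⟨g1, g2⟩ := hM (2 * M + 1) (by omega)
    refine ⟨2 * M + 1, by omega, ?_⟩
    have hodd : Odd (2 * M + 1) := ⟨M, rfl⟩
    have h7 : ux' * wy' < 0 := by
      have h8 : (ux' * wy') * (uy' ^ 2) < 0 := by
        have : (ux' * wy') * (uy' ^ 2) = (ux' * uy') * (wy' * uy') := by ring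
        rw [this]
        exact mul_neg_of_pos_of_neg h5 h6
      by_contra h9
      push Not at h9
      have := mul_nonneg h9 (sq_nonneg uy')
      linarith
    have h8 : (ux' ^ (2 * M + 1)) * (wy' ^ (2 * M + 1)) < 0 := by
      rw [← mul_pow]
      exact hodd.pow_neg h7
    by_contra h9
    push Not at h9
    have h10 := mul_pos g1 g2
    nlinarith [mul_nonneg h9 (le_of_lt (neg_pos.2 h8))]
  have lt_of_log : ∀ a b : ℝ, 0 < a → 0 < b → Real.log a - Real.log b < 0 → a < b := by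
    intro a b ha hb h
    exact (Real.log_lt_log_iff ha hb).1 (by linarith)
  rcases mul_neg_iff.1 hkl with ⟨h1, h2⟩ | ⟨h1, h2⟩
  · -- at x: w dominates; at y: u dominates
    have hx' := lt_of_log _ _ x4 x3 (by linarith)
    have hy' := lt_of_log _ _ y3 y4 h2
    obtain ⟨m, hm, h⟩ := fin y x _ _ _ _ _ _ hy hx y1 x1 hy' hx' (by rw [mul_comm]; exact huu') x5
    refine ⟨k * m, l * m, Nat.mul_pos (Nat.pos_of_ne_zero hk0) hm, ?_⟩
    have e : ∀ a b : ℝ, a ^ (k * m) * b ^ (l * m) = (a ^ k * b ^ l) ^ m := by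
      intro a b; rw [mul_pow, ← pow_mul, ← pow_mul]
    rw [mul_comm, e, e, e, e, e, e]
    exact h
  · have hx' := lt_of_log _ _ x3 x4 h1
    have hy' := lt_of_log _ _ y4 y3 (by linarith)
    obtain ⟨m, hm, h⟩ := fin x y _ _ _ _ _ _ hx hy x1 y1 hx' hy' huu' y5
    refine ⟨k * m, l * m, Nat.mul_pos (Nat.pos_of_ne_zero hk0) hm, ?_⟩
    have e : ∀ a b : ℝ, a ^ (k * m) * b ^ (l * m) = (a ^ k * b ^ l) ^ m := by
      intro a b; rw [mul_pow, ← pow_mul, ← pow_mul]
    rw [e, e, e, e, e, e]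
    exact h

end Pool.Agent.H71Beraha
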