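import Pool.Agent.H71Beraha.CountT

set_option autoImplicit false
set_option linter.all false

namespace Pool.Agent.H71Beraha

open scoped Classical
open Polynomial

namespace Fil

theorem sum_ne_two {q : ℕ} (x y : Fin q) (hxy : x ≠ y) :
    (∑ z : Fin q, if z ≠ x ∧ z ≠ y then (1 : ℝ) else 0) = (q : ℝ) - 2 := by
  rw [cnt_notin {x, y} _ (by intro z; simp), Finset.card_pair hxy]
  norm_num

theorem sum_pairs (q : ℕ) (C : ℝ) :
    (∑ x : Fin q, ∑ y : Fin q, if x ≠ y then C else 0) = (q : ℝ) * (q - 1) * C := by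
  have h : ∀ x : Fin q, (∑ y : Fin q, if x ≠ y then C else 0) = ((q : ℝ) - 1) * C := by
    intro x
    have h1 : ∀ y : Fin q, (if x ≠ y then C else 0) = C - if x = y then C else 0 := by
      intro y
      by_cases h : x = y <;> simp [h]
    simp only [h1, Finset.sum_sub_distrib, Finset.sum_ite_eq, Finset.mem_univ, if_true,
      Finset.sum_const, Finset.card_univ, Fintype.card_fin, nsmul_eq_mul]
    ring
  simp only [h, Finset.sum_const, Finset.card_univ, Fintype.card_fin, nsmul_eq_mul]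
  ring

theorem card_subtype_sum {A : Type} [Fintype A] (p : A → Prop) [DecidablePred p] :
    (Nat.card {a // p a} : ℝ) = ∑ a : A, if p a then (1 : ℝ) else 0 := by
  rw [Nat.card_eq_fintype_card, Fintype.card_subtype, Finset.sum_boole]

theorem close_count (N : Fil) (h : N.Plane) (hbd : ¬ N.BD) (α β γ : ℝ[X]) (hc : N.Cnt α β γ)
    (q : ℕ) : (Nat.card (N.close.graph.Coloring (Fin q)) : ℝ) =
      (X * (X - 1) * (X - 2) * ((X - 2) * α + β)).eval (q : ℝ) := by
  rw [PG.card_coloring _ (close_plane N h hbd)]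
  have h0 : (Nat.card {f : N.close.V → Fin q //
      ∀ k, f (N.close.src k) ≠ f (N.close.tgt k)} : ℝ) =
      ∑ f : Fin 4 ⊕ N.I → Fin q,
        if (∀ k, f (N.close.src k) ≠ f (N.close.tgt k)) then (1 : ℝ) else 0 := by
    exact card_subtype_sum (A := Fin 4 ⊕ N.I → Fin q)
      (fun f => ∀ k, f (N.close.src k) ≠ f (N.close.tgt k))
  rw [h0]
  have h1 : (∑ f : Fin 4 ⊕ N.I → Fin q,
        if (∀ k, f (N.close.src k) ≠ f (N.close.tgt k)) then (1 : ℝ) else 0) =
      ∑ p : Fin q × (Fin q × (Fin q × (Fin q × (N.I → Fin q)))),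
      if (p.1 ≠ p.2.1 ∧ (p.2.2.1 ≠ p.1 ∧ p.2.2.1 ≠ p.2.1) ∧
        (p.2.2.2.1 ≠ p.1 ∧ p.2.2.2.1 ≠ p.2.1)) ∧
        N.okc ![p.2.2.1, p.1, p.2.2.2.1, p.2.1] p.2.2.2.2 then (1 : ℝ) else 0 := by
    symm
    refine Fintype.sum_equiv (κ := (Fin 4 ⊕ N.I → Fin q)) (colEquivT N.I q) _ _ ?_
    rintro ⟨x, y, z, w, φ⟩
    have : (∀ k, (colEquivT N.I q (x, y, z, w, φ)) (N.close.src k) ≠
        (colEquivT N.I q (x, y, z, w, φ)) (N.close.tgt k)) ↔
      (x ≠ y ∧ (z ≠ x ∧ z ≠ y) ∧ (w ≠ x ∧ w ≠ y)) ∧ N.okc ![z, x, w, y] φ := by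
      constructor
      · intro h
        have e0 : z ≠ x := h (Sum.inr 0)
        have e1 : x ≠ w := h (Sum.inr 1)
        have e2 : w ≠ y := h (Sum.inr 2)
        have e3 : y ≠ z := h (Sum.inr 3)
        have e4 : x ≠ y := h (Sum.inr 4)
        exact ⟨⟨e4, ⟨e0, e3.symm⟩, ⟨e1.symm, e2⟩⟩, fun k => h (Sum.inl k)⟩
      · rintro ⟨⟨h1, ⟨h2, h3⟩, ⟨h4, h5⟩⟩, h⟩ (k | k)
        · exact h k
        · fin_cases k
          · exact h2
          · exact h4.symm
          · exact h5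
          · exact h3.symm
          · exact h1
    exact if_congr this.symm rfl rfl
  rw [h1]
  have h2 : (∑ p : Fin q × (Fin q × (Fin q × (Fin q × (N.I → Fin q)))),
      if (p.1 ≠ p.2.1 ∧ (p.2.2.1 ≠ p.1 ∧ p.2.2.1 ≠ p.2.1) ∧
        (p.2.2.2.1 ≠ p.1 ∧ p.2.2.2.1 ≠ p.2.1)) ∧
        N.okc ![p.2.2.1, p.1, p.2.2.2.1, p.2.1] p.2.2.2.2 then (1 : ℝ) else 0) =
      ∑ x : Fin q, ∑ y : Fin q, ∑ z : Fin q, ∑ w : Fin q,
        if x ≠ y ∧ (z ≠ x ∧ z ≠ y) ∧ (w ≠ x ∧ w ≠ y) then N.ext ![z, x, w, y] else 0 := by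
    rw [Fintype.sum_prod_type]
    apply Finset.sum_congr rfl
    intro x _
    rw [Fintype.sum_prod_type]
    apply Finset.sum_congr rfl
    intro y _
    rw [Fintype.sum_prod_type]
    apply Finset.sum_congr rfl
    intro z _
    rw [Fintype.sum_prod_type]
    apply Finset.sum_congr rfl
    intro w _
    by_cases hz : x ≠ y ∧ (z ≠ x ∧ z ≠ y) ∧ (w ≠ x ∧ w ≠ y)
    · rw [if_pos hz]
      unfold ext
      apply Finset.sum_congr rfl
      intro φ _
      dsimp only
      by_cases h : N.okc ![z, x, w, y] φ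
      · rw [if_pos ⟨hz, h⟩, if_pos h]
      · rw [if_neg (fun h' => h h'.2), if_neg h]
    · rw [if_neg hz]
      apply Finset.sum_eq_zero
      intro φ _
      exact if_neg (fun h' => hz h'.1)
  rw [h2]
  have h3 : ∀ x y : Fin q, (∑ z : Fin q, ∑ w : Fin q,
        if x ≠ y ∧ (z ≠ x ∧ z ≠ y) ∧ (w ≠ x ∧ w ≠ y) then N.ext ![z, x, w, y] else 0) =
        if x ≠ y then α.eval (q : ℝ) * (((q : ℝ) - 2) * ((q : ℝ) - 2)) +
          β.eval (q : ℝ) * ((q : ℝ) - 2) else 0 := by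
    intro x y
    by_cases hxy : x ≠ y
    · rw [if_pos hxy]
      have e : ∀ z w : Fin q, (if x ≠ y ∧ (z ≠ x ∧ z ≠ y) ∧ (w ≠ x ∧ w ≠ y) then
          N.ext ![z, x, w, y] else 0) =
          if (z ≠ x ∧ z ≠ y) ∧ (w ≠ x ∧ w ≠ y) then
            (α.eval (q : ℝ) + if z = w then β.eval (q : ℝ) else 0) else 0 := by
        intro z w
        by_cases hzw : (z ≠ x ∧ z ≠ y) ∧ (w ≠ x ∧ w ≠ y)
        · rw [if_pos hzw, if_pos ⟨hxy, hzw⟩]
          have := hc q ![z, x, w, y] hzw.1.1 hzw.2.1.symm hzw.2.2 hzw.1.2.symm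
          rw [this]
          show α.eval (q : ℝ) + (if z = w then β.eval (q : ℝ) else 0) +
            (if x = y then γ.eval (q : ℝ) else 0) = _
          rw [if_neg hxy, add_zero]
        · rw [if_neg hzw, if_neg (fun h => hzw h.2)]
      simp only [e]
      rw [doubleSum (fun z : Fin q => z ≠ x ∧ z ≠ y) (fun w : Fin q => w ≠ x ∧ w ≠ y)]
      simp only [and_self]
      rw [sum_ne_two x y hxy]
    · rw [if_neg hxy]
      apply Finset.sum_eq_zero
      intro z _
      apply Finset.sum_eq_zero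
      intro w _
      exact if_neg (fun h => hxy h.1)
  simp only [h3]
  rw [sum_pairs]
  simp only [eval_add, eval_mul, eval_sub, eval_X, eval_one, eval_ofNat]
  ring

/-- number of interior edges is `3 * (number of interior vertices) + 1` -/
def Tri (N : Fil) : Prop := Fintype.card N.K = 3 * Fintype.card N.I + 1

theorem E_tri : E.Tri := by
  show Fintype.card Unit = 3 * Fintype.card Empty + 1
  simp

theorem S_tri (N : Fil) (h : N.Tri) : (S N).Tri := h

theorem H_tri (N M : Fil) (h : N.Tri) (h' : M.Tri) : (H N M).Tri := by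
  show Fintype.card ((N.K ⊕ M.K) ⊕ Bool) = 3 * Fintype.card (Unit ⊕ (N.I ⊕ M.I)) + 1
  unfold Tri at h h'
  simp only [Fintype.card_sum, Fintype.card_bool, Fintype.card_unit, h, h']
  ring

theorem T_tri (N : Fil) (h : N.Tri) : (T N).Tri := by
  show Fintype.card (N.K ⊕ Fin 12) = 3 * Fintype.card (Fin 4 ⊕ N.I) + 1
  unfold Tri at h
  simp only [Fintype.card_sum, Fintype.card_fin, h]
  ring

theorem close_main (N : Fil) (h : N.Plane) (ht : N.Tri) (hbd : ¬ N.BD) (α β γ : ℝ[X])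
    (hc : N.Cnt α β γ) :
    ∃ (V : Type) (_ : Fintype V) (G : SimpleGraph V),
        3 ≤ Nat.card V ∧
        Nat.card G.edgeSet + 6 = 3 * Nat.card V ∧
        (∃ (pos : V → ℂ) (arc : ∀ u v : V, Path (pos u) (pos v)),
          Function.Injective pos ∧
          (∀ u v : V, G.Adj u v → Function.Injective ⇑(arc u v)) ∧
          (∀ u v : V, G.Adj u v → ∀ t : unitInterval, ∀ w : V,
              arc u v t = pos w → t = 0 ∨ t = 1) ∧
          (∀ u v x y : V, G.Adj u v → G.Adj x y → s(u, v) ≠ s(x, y) →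
              ∀ a b : unitInterval, arc u v a = arc x y b → a = 0 ∨ a = 1)) ∧
        (∀ k : ℕ, (X * (X - 1) * (X - 2) * ((X - 2) * α + β)).eval (k : ℝ) =
          (Nat.card (G.Coloring (Fin k)) : ℝ)) := by
  have hp := close_plane N h hbd
  have hV : Nat.card N.close.V = 4 + Fintype.card N.I := by
    show Nat.card (Fin 4 ⊕ N.I) = 4 + Fintype.card N.I
    rw [Nat.card_eq_fintype_card, Fintype.card_sum, Fintype.card_fin]
  have hK : Fintype.card N.close.K = Fintype.card N.K + 5 := by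
    show Fintype.card (N.K ⊕ Fin 5) = Fintype.card N.K + 5
    rw [Fintype.card_sum, Fintype.card_fin]
  refine ⟨N.close.V, inferInstance, N.close.graph, ?_, ?_, PG.drawing _ hp, ?_⟩
  · rw [hV]; omega
  · rw [PG.card_edges _ hp, hV, hK]
    unfold Tri at ht
    rw [ht]; ring
  · intro k
    rw [close_count N h hbd α β γ hc]

end Fil

end Pool.Agent.H71Beraha
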