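import Pool.Agent.H71Beraha.Tcomp

set_option autoImplicit false

namespace Pool.Agent.H71Beraha

open scoped Classical
open Polynomial

namespace Fil

/-- a colouring of the interior compatible with the colours of the corners -/
def okc (N : Fil) {q : ℕ} (c : Fin 4 → Fin q) (φ : N.I → Fin q) : Prop :=
  ∀ k, Sum.elim c φ (N.src k) ≠ Sum.elim c φ (N.tgt k)

/-- number of extensions -/
noncomputable def ext (N : Fil) {q : ℕ} (c : Fin 4 → Fin q) : ℝ :=
  ∑ φ : N.I → Fin q, if N.okc c φ then 1 else 0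

/-- the extension counts are given by three polynomials -/
def Cnt (N : Fil) (α β γ : ℝ[X]) : Prop :=
  ∀ (q : ℕ) (c : Fin 4 → Fin q), c 0 ≠ c 1 → c 1 ≠ c 2 → c 2 ≠ c 3 → c 3 ≠ c 0 →
    N.ext c = α.eval (q : ℝ) + (if c 0 = c 2 then β.eval (q : ℝ) else 0) +
      (if c 1 = c 3 then γ.eval (q : ℝ) else 0)

theorem E_cnt : E.Cnt 1 (-1) 0 := by
  intro q c _ _ _ _
  have h1 : ∀ φ : E.I → Fin q, E.okc c φ ↔ c 0 ≠ c 2 := by
    intro φ
    constructor
    · intro h; exact h ()
    · intro h k; exact h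
  have h2 : E.ext c = ∑ φ : Empty → Fin q, if c 0 ≠ c 2 then (1 : ℝ) else 0 := by
    unfold ext
    apply Finset.sum_congr rfl
    intro φ _
    simp only [h1]
  rw [h2]
  by_cases h : c 0 = c 2 <;> simp [h]

theorem S_cnt (N : Fil) (α β γ : ℝ[X]) (h : N.Cnt α β γ) : (S N).Cnt α γ β := by
  intro q c h01 h12 h23 h30
  have h1 : (S N).ext c = N.ext (c ∘ Fin.rev) := by
    unfold ext
    apply Finset.sum_congr rfl
    intro φ _
    have : (S N).okc c φ ↔ N.okc (c ∘ Fin.rev) φ := by
      unfold okc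
      apply forall_congr'
      intro k
      have aux : ∀ v : Fin 4 ⊕ N.I, Sum.elim c φ (rv v) = Sum.elim (c ∘ Fin.rev) φ v := by
        rintro (i | i) <;> rfl
      show Sum.elim c φ (rv (N.src k)) ≠ Sum.elim c φ (rv (N.tgt k)) ↔ _
      rw [aux, aux]
      exact Iff.rfl
    simp only [this]
  have h2 := h q (c ∘ Fin.rev) (by simpa using h23.symm) (by simpa using h12.symm)
    (by simpa using h01.symm) (by simpa using h30.symm)
  rw [h1, h2]
  have e0 : (c ∘ Fin.rev) 0 = c 3 := rfl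
  have e1 : (c ∘ Fin.rev) 1 = c 2 := rfl
  have e2 : (c ∘ Fin.rev) 2 = c 1 := rfl
  have e3 : (c ∘ Fin.rev) 3 = c 0 := rfl
  rw [e0, e1, e2, e3]
  simp only [eq_comm (a := c 3) (b := c 1), eq_comm (a := c 2) (b := c 0)]
  ring

theorem sumH (q : ℕ) (x y b d : Fin q) (hxb : x ≠ b) (hby : b ≠ y) (hyd : y ≠ d) (hdx : d ≠ x)
    (A1 G1 A2 G2 : ℝ) :
    (∑ z : Fin q, if x ≠ z ∧ z ≠ y then
      (A1 + if b = z then G1 else 0) * (A2 + if z = d then G2 else 0) else 0) =
      ((q : ℝ) - 2 + if x = y then 1 else 0) * (A1 * A2) + G1 * A2 + A1 * G2 +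
        if b = d then G1 * G2 else 0 := by
  have h : ∀ z : Fin q, (if x ≠ z ∧ z ≠ y then
      (A1 + if b = z then G1 else 0) * (A2 + if z = d then G2 else 0) else 0) =
      A1 * A2 + (if x = z then -(A1 * A2) else 0) + (if y = z then -(A1 * A2) else 0) +
      (if x = z then (if x = y then (A1 * A2) else 0) else 0) + (if b = z then G1 * A2 else 0) +
      (if d = z then A1 * G2 else 0) + (if b = z then (if b = d then G1 * G2 else 0) else 0) := by
    intro z
    by_cases h1 : x = z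
    · subst h1
      by_cases h2 : x = y
      · subst h2; simp [hxb.symm, hdx]
      · simp [hxb.symm, hdx, h2, Ne.symm h2]
    · by_cases h2 : y = z
      · subst h2
        simp [h1, hby, hyd.symm]
      · by_cases h3 : b = z
        · subst h3
          by_cases h4 : b = d
          · subst h4
            simp [h1, h2, Ne.symm h2]
            ring
          · simp [h1, h2, h4, Ne.symm h2, Ne.symm h4]
            ring
        · by_cases h4 : d = z
          · subst h4
            simp [h1, h2, h3, Ne.symm h2]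
            ring
          · simp [h1, h2, h3, h4, Ne.symm h2, Ne.symm h4]
  simp only [h, Finset.sum_add_distrib, Finset.sum_ite_eq, Finset.mem_univ, if_true,
    Finset.sum_const, Finset.card_univ, Fintype.card_fin, nsmul_eq_mul]
  split_ifs <;> ring

/-- the product decomposition of colourings -/
def colEquiv (I1 I2 : Type) (q : ℕ) :
    (Fin q × ((I1 → Fin q) × (I2 → Fin q))) ≃ (Unit ⊕ (I1 ⊕ I2) → Fin q) where
  toFun p := Sum.elim (fun _ => p.1) (Sum.elim p.2.1 p.2.2)
  invFun φ := (φ (Sum.inl ()), (fun i => φ (Sum.inr (Sum.inl i)), fun i => φ (Sum.inr (Sum.inr i))))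
  left_inv p := rfl
  right_inv φ := by
    funext v
    rcases v with _ | i | i <;> rfl

theorem H_ext (N M : Fil) {q : ℕ} (c : Fin 4 → Fin q) :
    (H N M).ext c = ∑ z : Fin q, if c 0 ≠ z ∧ z ≠ c 2 then
      N.ext ![c 0, c 1, c 2, z] * M.ext ![c 0, z, c 2, c 3] else 0 := by
  have h1 : (H N M).ext c = ∑ p : Fin q × ((N.I → Fin q) × (M.I → Fin q)),
      if (c 0 ≠ p.1 ∧ p.1 ≠ c 2) ∧ N.okc ![c 0, c 1, c 2, p.1] p.2.1 ∧
        M.okc ![c 0, p.1, c 2, c 3] p.2.2 then (1 : ℝ) else 0 := by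
    unfold ext
    symm
    refine Fintype.sum_equiv (κ := ((H N M).I → Fin q)) (colEquiv N.I M.I q) _ _ ?_
    intro p
    have : (H N M).okc c (colEquiv N.I M.I q p) ↔
      (c 0 ≠ p.1 ∧ p.1 ≠ c 2) ∧ N.okc ![c 0, c 1, c 2, p.1] p.2.1 ∧
        M.okc ![c 0, p.1, c 2, c 3] p.2.2 := by
      have eL : ∀ v : Fin 4 ⊕ N.I, Sum.elim c (colEquiv N.I M.I q p) (jL v) =
          Sum.elim ![c 0, c 1, c 2, p.1] p.2.1 v := by
        rintro (i | i)
        · fin_cases i <;> rfl
        · rfl
      have eR : ∀ v : Fin 4 ⊕ M.I, Sum.elim c (colEquiv N.I M.I q p) (jR v) =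
          Sum.elim ![c 0, p.1, c 2, c 3] p.2.2 v := by
        rintro (i | i)
        · fin_cases i <;> rfl
        · rfl
      constructor
      · intro h
        refine ⟨⟨h (Sum.inr true), h (Sum.inr false)⟩, fun k => ?_, fun k => ?_⟩
        · rw [← eL, ← eL]; exact h (Sum.inl (Sum.inl k))
        · rw [← eR, ← eR]; exact h (Sum.inl (Sum.inr k))
      · rintro ⟨⟨ha, hb⟩, h1, h2⟩ ((k | k) | b)
        · show Sum.elim c (colEquiv N.I M.I q p) (jL (N.src k)) ≠
            Sum.elim c (colEquiv N.I M.I q p) (jL (N.tgt k))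
          rw [eL, eL]; exact h1 k
        · show Sum.elim c (colEquiv N.I M.I q p) (jR (M.src k)) ≠
            Sum.elim c (colEquiv N.I M.I q p) (jR (M.tgt k))
          rw [eR, eR]; exact h2 k
        · cases b
          · exact hb
          · exact ha
    exact if_congr this.symm rfl rfl
  rw [h1, Fintype.sum_prod_type]
  apply Finset.sum_congr rfl
  intro z _
  rw [Fintype.sum_prod_type]
  split_ifs with hz
  · dsimp only
    simp only [hz, ne_eq, not_false_eq_true, and_self, true_and]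
    unfold ext
    rw [Finset.sum_mul_sum]
    apply Finset.sum_congr rfl
    intro f _
    apply Finset.sum_congr rfl
    intro g _
    by_cases h1 : N.okc ![c 0, c 1, c 2, z] f <;> by_cases h2 : M.okc ![c 0, z, c 2, c 3] g <;>
      simp [h1, h2]
  · dsimp only
    simp only [hz, false_and, if_false, Finset.sum_const_zero]

theorem H_cnt (N M : Fil) (α1 β1 γ1 α2 β2 γ2 : ℝ[X]) (hN : N.Cnt α1 β1 γ1) (hM : M.Cnt α2 β2 γ2) :
    (H N M).Cnt ((X - 2) * (α1 * α2) + γ1 * α2 + α1 * γ2)
      (α1 * α2 + (X - 1) * (α1 * β2 + β1 * α2 + β1 * β2) + γ1 * β2 + γ2 * β1)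
      (γ1 * γ2) := by
  intro q c h01 h12 h23 h30
  rw [H_ext]
  have h1 : ∀ z : Fin q, (if c 0 ≠ z ∧ z ≠ c 2 then
      N.ext ![c 0, c 1, c 2, z] * M.ext ![c 0, z, c 2, c 3] else 0) =
      if c 0 ≠ z ∧ z ≠ c 2 then
        ((α1.eval (q : ℝ) + if c 0 = c 2 then β1.eval (q : ℝ) else 0) +
          if c 1 = z then γ1.eval (q : ℝ) else 0) *
        ((α2.eval (q : ℝ) + if c 0 = c 2 then β2.eval (q : ℝ) else 0) +
          if z = c 3 then γ2.eval (q : ℝ) else 0) else 0 := by
    intro z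
    split_ifs with hz
    all_goals
      try rfl
    all_goals
      have e1 := hN q ![c 0, c 1, c 2, z] h01 h12 hz.2.symm hz.1.symm
      have e2 := hM q ![c 0, z, c 2, c 3] hz.1 hz.2 h23 h30
      rw [e1, e2]
      simp_all
  simp only [h1]
  rw [sumH q (c 0) (c 2) (c 1) (c 3) h01 h12 h23 h30]
  simp only [eval_add, eval_mul, eval_sub, eval_X, eval_one, eval_ofNat]
  by_cases h02 : c 0 = c 2 <;> by_cases h13 : c 1 = c 3 <;> simp [h02, h13] <;> ring

end Fil

end Pool.Agent.H71Beraha
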