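import Pool.Agent.H71Beraha.Count

set_option autoImplicit false
set_option linter.all false

namespace Pool.Agent.H71Beraha

open scoped Classical
open Polynomial

namespace Fil

theorem cnt_notin {q : ℕ} (S : Finset (Fin q)) (p : Fin q → Prop) [DecidablePred p] (hp : ∀ z, p z ↔ z ∉ S) :
    (∑ z : Fin q, if p z then (1 : ℝ) else 0) = (q : ℝ) - S.card := by
  have h1 : ∀ z : Fin q, (if p z then (1 : ℝ) else 0) = 1 - if z ∈ S then 1 else 0 := by
    intro z
    by_cases h : z ∈ S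
    · simp [h, hp]
    · simp [h, hp]
  simp only [h1, Finset.sum_sub_distrib, Finset.sum_ite_mem, Finset.univ_inter]
  simp

theorem cnt4 {q : ℕ} (a b x y : Fin q) (hab : a ≠ b) (hxb : x ≠ b) (hya : y ≠ a) :
    (∑ z : Fin q, if z ≠ a ∧ z ≠ b ∧ z ≠ x ∧ z ≠ y then (1 : ℝ) else 0) =
      (q : ℝ) - 4 + (if x = a then 1 else 0) + (if y = b then 1 else 0) + (if x = y then 1 else 0) := by
  rw [cnt_notin {a, b, x, y} _ (by intro z; simp)]
  by_cases h1 : x = a
  · subst h1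
    by_cases h2 : y = b
    · subst h2
      have : ({x, y, x, y} : Finset (Fin q)) = {x, y} := by ext z; simp <;> tauto
      rw [this, Finset.card_pair hab]
      simp [hab]
      ring
    · have : ({x, b, x, y} : Finset (Fin q)) = {x, b, y} := by ext z; simp <;> tauto
      rw [this, Finset.card_eq_three.2 ⟨x, b, y, hab, Ne.symm hya, Ne.symm h2, rfl⟩]
      simp [h2, Ne.symm hya]
      ring
  · by_cases h2 : y = b
    · subst h2
      have : ({a, y, x, y} : Finset (Fin q)) = {a, y, x} := by ext z; simp <;> tauto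
      rw [this, Finset.card_eq_three.2 ⟨a, y, x, hab, Ne.symm h1, Ne.symm hxb, rfl⟩]
      simp [h1, hxb]
      ring
    · by_cases h3 : x = y
      · subst h3
        have : ({a, b, x, x} : Finset (Fin q)) = {a, b, x} := by ext z; simp
        rw [this, Finset.card_eq_three.2 ⟨a, b, x, hab, Ne.symm h1, Ne.symm h2, rfl⟩]
        simp [h1, h2]
        ring
      · rw [Finset.card_insert_of_notMem (by simp [hab, Ne.symm h1, Ne.symm hya]),
          Finset.card_insert_of_notMem (by simp [Ne.symm hxb, Ne.symm h2]),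
          Finset.card_pair h3]
        simp [h1, h2, h3]

theorem cnt6 {q : ℕ} (a b c d x y : Fin q) (hab : a ≠ b) (hbc : b ≠ c) (hcd : c ≠ d) (hda : d ≠ a)
    (hxb : x ≠ b) (hxc : x ≠ c) (hyd : y ≠ d) (hya : y ≠ a) :
    (∑ z : Fin q, if (z ≠ a ∧ z ≠ b ∧ z ≠ x ∧ z ≠ y) ∧ (z ≠ d ∧ z ≠ c ∧ z ≠ x ∧ z ≠ y) then (1 : ℝ) else 0) =
      (q : ℝ) - 6 + (if a = c then 1 else 0) + (if b = d then 1 else 0) + (if x = a then 1 else 0) +
      (if x = d then 1 else 0) + (if y = b then 1 else 0) + (if y = c then 1 else 0)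
       + (if x = y then 1 else 0) := by
  rw [cnt_notin (insert x (insert y {a, b, c, d})) _ (by intro z; simp; tauto)]
  have hO : (({a, b, c, d} : Finset (Fin q)).card : ℝ) = 4 - (if a = c then 1 else 0) -
      (if b = d then 1 else 0) := by
    by_cases h1 : a = c <;> by_cases h2 : b = d
    · subst h1; subst h2
      have : ({a, b, a, b} : Finset (Fin q)) = {a, b} := by ext z; simp <;> tauto
      rw [this, Finset.card_pair hab]
      norm_num
    · subst h1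
      have : ({a, b, a, d} : Finset (Fin q)) = {a, b, d} := by ext z; simp <;> tauto
      rw [this, Finset.card_eq_three.2 ⟨a, b, d, hab, Ne.symm hda, h2, rfl⟩]
      simp [h2]
      norm_num
    · subst h2
      have : ({a, b, c, b} : Finset (Fin q)) = {a, b, c} := by ext z; simp <;> tauto
      rw [this, Finset.card_eq_three.2 ⟨a, b, c, hab, h1, hbc, rfl⟩]
      simp [h1]
      norm_num
    · rw [Finset.card_insert_of_notMem (by simp [hab, h1, Ne.symm hda]),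
          Finset.card_insert_of_notMem (by simp [hbc, h2]),
          Finset.card_pair hcd]
      simp [h1, h2]
  have hY : ((insert y ({a, b, c, d} : Finset (Fin q))).card : ℝ) =
      ({a, b, c, d} : Finset (Fin q)).card + 1 - (if y = b then 1 else 0) - (if y = c then 1 else 0) := by
    by_cases h1 : y = b
    · subst h1
      rw [Finset.insert_eq_of_mem (by simp)]
      simp [hbc]
    · by_cases h2 : y = c
      · subst h2
        rw [Finset.insert_eq_of_mem (by simp)]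
        simp [h1]
      · rw [Finset.card_insert_of_notMem (by simp [h1, h2, hya, hyd])]
        simp [h1, h2]
  have hX : ((insert x (insert y ({a, b, c, d} : Finset (Fin q)))).card : ℝ) =
      (insert y ({a, b, c, d} : Finset (Fin q))).card + 1 - (if x = a then 1 else 0) -
        (if x = d then 1 else 0) - (if x = y then 1 else 0) := by
    by_cases h1 : x = a
    · subst h1
      rw [Finset.insert_eq_of_mem (by simp)]
      simp [Ne.symm hda, Ne.symm hya]
    · by_cases h2 : x = d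
      · subst h2
        rw [Finset.insert_eq_of_mem (by simp)]
        simp [h1, Ne.symm hyd]
      · by_cases h3 : x = y
        · subst h3
          rw [Finset.insert_eq_of_mem (by simp)]
          simp [h1, h2]
        · rw [Finset.card_insert_of_notMem (by simp [h1, h2, h3, hxb, hxc])]
          simp [h1, h2, h3]
  rw [hX, hY, hO]
  ring

theorem sum1 {q : ℕ} (O : Finset (Fin q)) (f : Fin q → ℝ) (g : ℝ) (h : ∀ y, y ∉ O → f y = g) :
    ∑ y, f y = ∑ y ∈ O, f y + ((q : ℝ) - O.card) * g := by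
  rw [← Finset.sum_add_sum_compl O f]
  congr 1
  rw [Finset.sum_congr rfl (fun y hy => h y (Finset.mem_compl.1 hy)), Finset.sum_const,
    Finset.card_compl, Fintype.card_fin, nsmul_eq_mul, Nat.cast_sub]
  simpa using Finset.card_le_univ O

theorem sum2 {q : ℕ} (O : Finset (Fin q)) (F : Fin q → Fin q → ℝ) (G K : Fin q → ℝ) (D M : ℝ)
    (h1 : ∀ x ∈ O, ∀ y, y ∉ O → F x y = G x) (h2 : ∀ x, x ∉ O → ∀ y ∈ O, F x y = K y)
    (h3 : ∀ x, x ∉ O → F x x = D) (h4 : ∀ x, x ∉ O → ∀ y, y ∉ O → x ≠ y → F x y = M) :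
    ∑ x, ∑ y, F x y = ∑ x ∈ O, (∑ y ∈ O, F x y + ((q : ℝ) - O.card) * G x) +
      ((q : ℝ) - O.card) * (D + ∑ y ∈ O, K y + ((q : ℝ) - O.card - 1) * M) := by
  rw [sum1 O (fun x => ∑ y, F x y) (D + ∑ y ∈ O, K y + ((q : ℝ) - O.card - 1) * M)]
  · congr 1
    apply Finset.sum_congr rfl
    intro x hx
    exact sum1 O (F x) (G x) (h1 x hx)
  · intro x hx
    rw [sum1 (insert x O) (F x) M, Finset.sum_insert hx, h3 x hx,
      Finset.sum_congr rfl (h2 x hx), Finset.card_insert_of_notMem hx]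
    · push_cast; ring
    · intro y hy
      rw [Finset.mem_insert, not_or] at hy
      exact h4 x hx y hy.2 (Ne.symm hy.1)

theorem sum_four {q : ℕ} {a b c d : Fin q} (hab : a ≠ b) (hbc : b ≠ c) (hcd : c ≠ d)
    (hda : d ≠ a) (hac : a ≠ c) (hbd : b ≠ d) (f : Fin q → ℝ) :
    ∑ x ∈ ({a, b, c, d} : Finset (Fin q)), f x = f a + f b + f c + f d := by
  have had := hda.symm
  rw [Finset.sum_insert (by simp [hab, hac, had]), Finset.sum_insert (by simp [hbc, hbd]),
      Finset.sum_insert (by simp [hcd]), Finset.sum_singleton]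
  ring

theorem card_four {q : ℕ} {a b c d : Fin q} (hab : a ≠ b) (hbc : b ≠ c) (hcd : c ≠ d)
    (hda : d ≠ a) (hac : a ≠ c) (hbd : b ≠ d) :
    ({a, b, c, d} : Finset (Fin q)).card = 4 := by
  have had := hda.symm
  rw [Finset.card_insert_of_notMem (by simp [hab, hac, had]),
          Finset.card_insert_of_notMem (by simp [hbc, hbd]),
          Finset.card_pair hcd]

theorem sum_three {q : ℕ} {a b c : Fin q} (hab : a ≠ b) (hbc : b ≠ c) (hac : a ≠ c) (f : Fin q → ℝ) :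
    ∑ x ∈ ({a, b, c} : Finset (Fin q)), f x = f a + f b + f c := by
  rw [Finset.sum_insert (by simp [hab, hac]), Finset.sum_insert (by simp [hbc]),
      Finset.sum_singleton]
  ring

theorem card_three {q : ℕ} {a b c : Fin q} (hab : a ≠ b) (hbc : b ≠ c) (hac : a ≠ c) :
    ({a, b, c} : Finset (Fin q)).card = 3 :=
  Finset.card_eq_three.2 ⟨a, b, c, hab, hac, hbc, rfl⟩

theorem sum_two {q : ℕ} {a b : Fin q} (hab : a ≠ b) (f : Fin q → ℝ) :
    ∑ x ∈ ({a, b} : Finset (Fin q)), f x = f a + f b := Finset.sum_pair hab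

/-- the summand after summing over two opposite inner vertices -/
noncomputable def tF {q : ℕ} (a b c d : Fin q) (α β γ : ℝ) (x y : Fin q) : ℝ :=
  if (x ≠ b ∧ x ≠ c) ∧ (y ≠ d ∧ y ≠ a) then
    (α + if x = y then γ else 0) *
      (((q : ℝ) - 4 + (if x = a then 1 else 0) + (if y = b then 1 else 0) + (if x = y then 1 else 0)) *
       ((q : ℝ) - 4 + (if x = d then 1 else 0) + (if y = c then 1 else 0) + (if x = y then 1 else 0))) +
    β * ((q : ℝ) - 6 + (if a = c then 1 else 0) + (if b = d then 1 else 0) + (if x = a then 1 else 0) +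
      (if x = d then 1 else 0) + (if y = b then 1 else 0) + (if y = c then 1 else 0)
       + (if x = y then 1 else 0))
  else 0

theorem tF_sum_distinct {q : ℕ} (a b c d : Fin q) (hab : a ≠ b) (hbc : b ≠ c) (hcd : c ≠ d)
    (hda : d ≠ a) (hac : a ≠ c) (hbd : b ≠ d) (α β γ : ℝ) :
    ∑ x, ∑ y, tF a b c d α β γ x y =
      ((q : ℝ) ^ 4 - 12 * q ^ 3 + 58 * q ^ 2 - 135 * q + 126) * α +
        ((q : ℝ) - 3) ^ 2 * (q - 4) * (β + γ) := by
  have hba := hab.symm
  have hcb := hbc.symm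
  have hdc := hcd.symm
  have had := hda.symm
  have hca := hac.symm
  have hdb := hbd.symm
  rw [sum2 {a, b, c, d} (tF a b c d α β γ)
    (fun x => if (x ≠ b ∧ x ≠ c) then
      α * (((q : ℝ) - 4 + (if x = a then 1 else 0)) * ((q : ℝ) - 4 + (if x = d then 1 else 0))) +
      β * ((q : ℝ) - 6 + (if x = a then 1 else 0) + (if x = d then 1 else 0)) else 0)
    (fun y => if (y ≠ d ∧ y ≠ a) then
      α * (((q : ℝ) - 4 + (if y = b then 1 else 0)) * ((q : ℝ) - 4 + (if y = c then 1 else 0))) +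
      β * ((q : ℝ) - 6 + (if y = b then 1 else 0) + (if y = c then 1 else 0)) else 0)
    ((α + γ) * (((q : ℝ) - 3) * (q - 3)) + β * (q - 5))
    (α * (((q : ℝ) - 4) * (q - 4)) + β * (q - 6))]
  · rw [card_four hab hbc hcd hda hac hbd]
    simp only [sum_four hab hbc hcd hda hac hbd]
    simp [tF, hab, hbc, hcd, hda, hac, hbd, hba, hcb, hdc, had, hca, hdb]
    ring
  · intro x hx y hy
    simp only [Finset.mem_insert, Finset.mem_singleton, not_or] at hx hy
    obtain ⟨y1, y2, y3, y4⟩ := hy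
    rcases hx with rfl | rfl | rfl | rfl <;>
    simp [tF, hab, hbc, hcd, hda, hac, hbd, hba, hcb, hdc, had, hca, hdb, y1, y2, y3, y4,
      Ne.symm y1, Ne.symm y2, Ne.symm y3, Ne.symm y4]
  · intro x hx y hy
    simp only [Finset.mem_insert, Finset.mem_singleton, not_or] at hx hy
    obtain ⟨y1, y2, y3, y4⟩ := hx
    rcases hy with rfl | rfl | rfl | rfl <;>
    simp [tF, hab, hbc, hcd, hda, hac, hbd, hba, hcb, hdc, had, hca, hdb, y1, y2, y3, y4]
  · intro x hx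
    simp only [Finset.mem_insert, Finset.mem_singleton, not_or] at hx
    obtain ⟨y1, y2, y3, y4⟩ := hx
    simp [tF, hab, hbc, hcd, hda, hac, hbd, hba, hcb, hdc, had, hca, hdb, y1, y2, y3, y4]
    ring
  · intro x hx y hy hxy
    simp only [Finset.mem_insert, Finset.mem_singleton, not_or] at hx hy
    obtain ⟨y1, y2, y3, y4⟩ := hx
    obtain ⟨x1, x2, x3, x4⟩ := hy
    simp [tF, hab, hbc, hcd, hda, hac, hbd, hba, hcb, hdc, had, hca, hdb, y1, y2, y3, y4,
      x1, x2, x3, x4, hxy]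

/-- case `a = c`, `b ≠ d` -/
theorem tF_sum_ac {q : ℕ} (a b d : Fin q) (hab : a ≠ b) (hda : d ≠ a) (hbd : b ≠ d) (α β γ : ℝ) :
    ∑ x, ∑ y, tF a b a d α β γ x y =
      ((q : ℝ) ^ 4 - 12 * q ^ 3 + 58 * q ^ 2 - 135 * q + 126) * α +
        ((q : ℝ) - 3) ^ 2 * (q - 4) * (β + γ) +
      (-2 * ((q : ℝ) - 3) * (q - 4) * α + ((q : ℝ) - 3) ^ 2 * (β + γ)) := by
  have hba := hab.symm
  have had := hda.symm
  have hdb := hbd.symm
  rw [sum2 {a, b, d} (tF a b a d α β γ)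
    (fun x => if (x ≠ b ∧ x ≠ a) then
      α * (((q : ℝ) - 4) * ((q : ℝ) - 4 + (if x = d then 1 else 0))) +
      β * ((q : ℝ) - 5 + (if x = d then 1 else 0)) else 0)
    (fun y => if (y ≠ d ∧ y ≠ a) then
      α * (((q : ℝ) - 4 + (if y = b then 1 else 0)) * ((q : ℝ) - 4)) +
      β * ((q : ℝ) - 5 + (if y = b then 1 else 0)) else 0)
    ((α + γ) * (((q : ℝ) - 3) * (q - 3)) + β * (q - 4))
    (α * (((q : ℝ) - 4) * (q - 4)) + β * (q - 5))]
  · rw [card_three hab hbd had]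
    simp only [sum_three hab hbd had]
    simp [tF, hab, hda, hbd, hba, had, hdb]
    ring
  · intro x hx y hy
    simp only [Finset.mem_insert, Finset.mem_singleton, not_or] at hx hy
    obtain ⟨y1, y2, y4⟩ := hy
    rcases hx with rfl | rfl | rfl <;>
    simp [tF, hab, hda, hbd, hba, had, hdb, y1, y2, y4,
      Ne.symm y1, Ne.symm y2, Ne.symm y4] <;> ring_nf <;> simp
  · intro x hx y hy
    simp only [Finset.mem_insert, Finset.mem_singleton, not_or] at hx hy
    obtain ⟨y1, y2, y4⟩ := hx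
    rcases hy with rfl | rfl | rfl <;>
    simp [tF, hab, hda, hbd, hba, had, hdb, y1, y2, y4] <;> ring_nf <;> simp
  · intro x hx
    simp only [Finset.mem_insert, Finset.mem_singleton, not_or] at hx
    obtain ⟨y1, y2, y4⟩ := hx
    simp [tF, hab, hda, hbd, hba, had, hdb, y1, y2, y4]
    ring
  · intro x hx y hy hxy
    simp only [Finset.mem_insert, Finset.mem_singleton, not_or] at hx hy
    obtain ⟨y1, y2, y4⟩ := hx
    obtain ⟨x1, x2, x4⟩ := hy
    simp [tF, hab, hda, hbd, hba, had, hdb, y1, y2, y4, x1, x2, x4, hxy]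
    ring_nf <;> simp

/-- case `a ≠ c`, `b = d` -/
theorem tF_sum_bd {q : ℕ} (a b c : Fin q) (hab : a ≠ b) (hbc : b ≠ c) (hac : a ≠ c) (α β γ : ℝ) :
    ∑ x, ∑ y, tF a b c b α β γ x y =
      ((q : ℝ) ^ 4 - 12 * q ^ 3 + 58 * q ^ 2 - 135 * q + 126) * α +
        ((q : ℝ) - 3) ^ 2 * (q - 4) * (β + γ) +
      (-2 * ((q : ℝ) - 3) * (q - 4) * α + ((q : ℝ) - 3) ^ 2 * (β + γ)) := by
  have hba := hab.symm
  have hcb := hbc.symm
  have hca := hac.symm
  rw [sum2 {a, b, c} (tF a b c b α β γ)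
    (fun x => if (x ≠ b ∧ x ≠ c) then
      α * (((q : ℝ) - 4 + (if x = a then 1 else 0)) * ((q : ℝ) - 4)) +
      β * ((q : ℝ) - 5 + (if x = a then 1 else 0)) else 0)
    (fun y => if (y ≠ b ∧ y ≠ a) then
      α * (((q : ℝ) - 4) * ((q : ℝ) - 4 + (if y = c then 1 else 0))) +
      β * ((q : ℝ) - 5 + (if y = c then 1 else 0)) else 0)
    ((α + γ) * (((q : ℝ) - 3) * (q - 3)) + β * (q - 4))
    (α * (((q : ℝ) - 4) * (q - 4)) + β * (q - 5))]
  · rw [card_three hab hbc hac]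
    simp only [sum_three hab hbc hac]
    simp [tF, hab, hbc, hac, hba, hcb, hca]
    ring
  · intro x hx y hy
    simp only [Finset.mem_insert, Finset.mem_singleton, not_or] at hx hy
    obtain ⟨y1, y2, y4⟩ := hy
    rcases hx with rfl | rfl | rfl <;>
    simp [tF, hab, hbc, hac, hba, hcb, hca, y1, y2, y4,
      Ne.symm y1, Ne.symm y2, Ne.symm y4] <;> ring_nf <;> simp
  · intro x hx y hy
    simp only [Finset.mem_insert, Finset.mem_singleton, not_or] at hx hy
    obtain ⟨y1, y2, y4⟩ := hx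
    rcases hy with rfl | rfl | rfl <;>
    simp [tF, hab, hbc, hac, hba, hcb, hca, y1, y2, y4] <;> ring_nf <;> simp
  · intro x hx
    simp only [Finset.mem_insert, Finset.mem_singleton, not_or] at hx
    obtain ⟨y1, y2, y4⟩ := hx
    simp [tF, hab, hbc, hac, hba, hcb, hca, y1, y2, y4]
    ring
  · intro x hx y hy hxy
    simp only [Finset.mem_insert, Finset.mem_singleton, not_or] at hx hy
    obtain ⟨y1, y2, y4⟩ := hx
    obtain ⟨x1, x2, x4⟩ := hy
    simp [tF, hab, hbc, hac, hba, hcb, hca, y1, y2, y4, x1, x2, x4, hxy]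
    ring_nf <;> simp

/-- case `a = c`, `b = d` -/
theorem tF_sum_both {q : ℕ} (a b : Fin q) (hab : a ≠ b) (α β γ : ℝ) :
    ∑ x, ∑ y, tF a b a b α β γ x y =
      ((q : ℝ) ^ 4 - 12 * q ^ 3 + 58 * q ^ 2 - 135 * q + 126) * α +
        ((q : ℝ) - 3) ^ 2 * (q - 4) * (β + γ) +
      2 * (-2 * ((q : ℝ) - 3) * (q - 4) * α + ((q : ℝ) - 3) ^ 2 * (β + γ)) := by
  have hba := hab.symm
  rw [sum2 {a, b} (tF a b a b α β γ)
    (fun x => if (x ≠ b ∧ x ≠ a) then
      α * (((q : ℝ) - 4) * ((q : ℝ) - 4)) +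
      β * ((q : ℝ) - 4) else 0)
    (fun y => if (y ≠ b ∧ y ≠ a) then
      α * (((q : ℝ) - 4) * ((q : ℝ) - 4)) +
      β * ((q : ℝ) - 4) else 0)
    ((α + γ) * (((q : ℝ) - 3) * (q - 3)) + β * (q - 3))
    (α * (((q : ℝ) - 4) * (q - 4)) + β * (q - 4))]
  · rw [Finset.card_pair hab]
    simp only [sum_two hab]
    simp [tF, hab, hba]
    ring
  · intro x hx y hy
    simp only [Finset.mem_insert, Finset.mem_singleton, not_or] at hx hy
    obtain ⟨y1, y2⟩ := hy
    rcases hx with rfl | rfl <;>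
    simp [tF, hab, hba, y1, y2, Ne.symm y1, Ne.symm y2] <;> ring_nf <;> simp
  · intro x hx y hy
    simp only [Finset.mem_insert, Finset.mem_singleton, not_or] at hx hy
    obtain ⟨y1, y2⟩ := hx
    rcases hy with rfl | rfl <;>
    simp [tF, hab, hba, y1, y2] <;> ring_nf <;> simp
  · intro x hx
    simp only [Finset.mem_insert, Finset.mem_singleton, not_or] at hx
    obtain ⟨y1, y2⟩ := hx
    simp [tF, hab, hba, y1, y2]
    ring
  · intro x hx y hy hxy
    simp only [Finset.mem_insert, Finset.mem_singleton, not_or] at hx hy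
    obtain ⟨y1, y2⟩ := hx
    obtain ⟨x1, x2⟩ := hy
    simp [tF, hab, hba, y1, y2, x1, x2, hxy]
    ring_nf <;> simp

theorem tF_sum {q : ℕ} (a b c d : Fin q) (hab : a ≠ b) (hbc : b ≠ c) (hcd : c ≠ d)
    (hda : d ≠ a) (α β γ : ℝ) :
    ∑ x, ∑ y, tF a b c d α β γ x y =
      ((q : ℝ) ^ 4 - 12 * q ^ 3 + 58 * q ^ 2 - 135 * q + 126) * α +
        ((q : ℝ) - 3) ^ 2 * (q - 4) * (β + γ) +
      (if a = c then (-2 * ((q : ℝ) - 3) * (q - 4) * α + ((q : ℝ) - 3) ^ 2 * (β + γ)) else 0) +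
      (if b = d then (-2 * ((q : ℝ) - 3) * (q - 4) * α + ((q : ℝ) - 3) ^ 2 * (β + γ)) else 0) := by
  by_cases h1 : a = c <;> by_cases h2 : b = d
  · subst h1; subst h2
    rw [tF_sum_both a b hab]; simp; ring
  · subst h1
    rw [tF_sum_ac a b d hab hda h2]; simp [h2]
  · subst h2
    rw [tF_sum_bd a b c hab hbc h1]; simp [h1]
  · rw [tF_sum_distinct a b c d hab hbc hcd hda h1 h2]; simp [h1, h2]

/-- the decomposition of colourings for the antiprism layer -/
def colEquivT (I : Type) (q : ℕ) :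
    (Fin q × (Fin q × (Fin q × (Fin q × (I → Fin q))))) ≃ (Fin 4 ⊕ I → Fin q) where
  toFun p := Sum.elim ![p.2.2.1, p.1, p.2.2.2.1, p.2.1] p.2.2.2.2
  invFun φ := (φ (Sum.inl 1), (φ (Sum.inl 3), (φ (Sum.inl 0), (φ (Sum.inl 2),
    fun i => φ (Sum.inr i)))))
  left_inv p := rfl
  right_inv φ := by
    funext v
    rcases v with i | i
    · fin_cases i <;> rfl
    · rfl

theorem T_ext (N : Fil) {q : ℕ} (c : Fin 4 → Fin q) :
    (T N).ext c = ∑ x : Fin q, ∑ y : Fin q, ∑ z : Fin q, ∑ w : Fin q,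
      if ((x ≠ c 1 ∧ x ≠ c 2) ∧ (y ≠ c 3 ∧ y ≠ c 0)) ∧ (z ≠ c 0 ∧ z ≠ c 1 ∧ z ≠ x ∧ z ≠ y) ∧
        (w ≠ c 3 ∧ w ≠ c 2 ∧ w ≠ x ∧ w ≠ y) then N.ext ![z, x, w, y] else 0 := by
  have h1 : (T N).ext c = ∑ p : Fin q × (Fin q × (Fin q × (Fin q × (N.I → Fin q)))),
      if (((p.1 ≠ c 1 ∧ p.1 ≠ c 2) ∧ (p.2.1 ≠ c 3 ∧ p.2.1 ≠ c 0)) ∧
        (p.2.2.1 ≠ c 0 ∧ p.2.2.1 ≠ c 1 ∧ p.2.2.1 ≠ p.1 ∧ p.2.2.1 ≠ p.2.1) ∧
        (p.2.2.2.1 ≠ c 3 ∧ p.2.2.2.1 ≠ c 2 ∧ p.2.2.2.1 ≠ p.1 ∧ p.2.2.2.1 ≠ p.2.1)) ∧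
        N.okc ![p.2.2.1, p.1, p.2.2.2.1, p.2.1] p.2.2.2.2 then (1 : ℝ) else 0 := by
    unfold ext
    symm
    refine Fintype.sum_equiv (κ := ((T N).I → Fin q)) (colEquivT N.I q) _ _ ?_
    rintro ⟨x, y, z, w, φ⟩
    have : (T N).okc c (colEquivT N.I q (x, y, z, w, φ)) ↔
      (((x ≠ c 1 ∧ x ≠ c 2) ∧ (y ≠ c 3 ∧ y ≠ c 0)) ∧
        (z ≠ c 0 ∧ z ≠ c 1 ∧ z ≠ x ∧ z ≠ y) ∧
        (w ≠ c 3 ∧ w ≠ c 2 ∧ w ≠ x ∧ w ≠ y)) ∧ N.okc ![z, x, w, y] φ := by
      constructor
      · intro h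
        have e0 : z ≠ x := h (Sum.inr 0)
        have e1 : x ≠ w := h (Sum.inr 1)
        have e2 : w ≠ y := h (Sum.inr 2)
        have e3 : y ≠ z := h (Sum.inr 3)
        have e4 : c 0 ≠ z := h (Sum.inr 4)
        have e5 : c 1 ≠ x := h (Sum.inr 5)
        have e6 : c 2 ≠ w := h (Sum.inr 6)
        have e7 : c 3 ≠ y := h (Sum.inr 7)
        have e8 : c 1 ≠ z := h (Sum.inr 8)
        have e9 : c 2 ≠ x := h (Sum.inr 9)
        have e10 : c 3 ≠ w := h (Sum.inr 10)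
        have e11 : c 0 ≠ y := h (Sum.inr 11)
        exact ⟨⟨⟨⟨e5.symm, e9.symm⟩, ⟨e7.symm, e11.symm⟩⟩, ⟨e4.symm, e8.symm, e0, e3.symm⟩,
          ⟨e10.symm, e6.symm, e1.symm, e2⟩⟩, fun k => h (Sum.inl k)⟩
      · rintro ⟨⟨⟨⟨h1, h2⟩, ⟨h3, h4⟩⟩, ⟨h5, h6, h7, h8⟩, ⟨h9, h10, h11, h12⟩⟩, h⟩ (k | k)
        · exact h k
        · fin_cases k
          · exact h7
          · exact h11.symm
          · exact h12
          · exact h8.symm
          · exact h5.symm
          · exact h1.symm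
          · exact h10.symm
          · exact h3.symm
          · exact h6.symm
          · exact h2.symm
          · exact h9.symm
          · exact h4.symm
    exact if_congr this.symm rfl rfl
  rw [h1, Fintype.sum_prod_type]
  apply Finset.sum_congr rfl
  intro x _
  rw [Fintype.sum_prod_type]
  apply Finset.sum_congr rfl
  intro y _
  rw [Fintype.sum_prod_type]
  apply Finset.sum_congr rfl
  intro z _
  rw [Fintype.sum_prod_type]
  apply Finset.sum_congr rfl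
  intro w _
  split_ifs with hz
  · unfold ext
    apply Finset.sum_congr rfl
    intro φ _
    dsimp only
    by_cases h : N.okc ![z, x, w, y] φ
    · rw [if_pos ⟨hz, h⟩, if_pos h]
    · rw [if_neg (fun h' => h h'.2), if_neg h]
  · apply Finset.sum_eq_zero
    intro φ _
    exact if_neg (fun h' => hz h'.1)

theorem doubleSum {q : ℕ} (Z W : Fin q → Prop) [DecidablePred Z] [DecidablePred W] (a b : ℝ) :
    (∑ z : Fin q, ∑ w : Fin q, if Z z ∧ W w then (a + if z = w then b else 0) else 0) =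
      a * ((∑ z : Fin q, if Z z then (1 : ℝ) else 0) * (∑ w : Fin q, if W w then (1 : ℝ) else 0)) +
        b * (∑ z : Fin q, if Z z ∧ W z then (1 : ℝ) else 0) := by
  rw [Finset.sum_mul_sum, Finset.mul_sum, Finset.mul_sum, ← Finset.sum_add_distrib]
  apply Finset.sum_congr rfl
  intro z _
  have h : ∀ w : Fin q, (if Z z ∧ W w then (a + if z = w then b else 0) else 0) =
      a * ((if Z z then (1 : ℝ) else 0) * (if W w then (1 : ℝ) else 0)) +
        (if z = w then (if Z z ∧ W z then b else 0) else 0) := by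
    intro w
    by_cases h1 : Z z
    · by_cases h2 : W w
      · by_cases h3 : z = w
        · subst h3
          simp [h1, h2]
        · simp [h1, h2, h3]
      · by_cases h3 : z = w
        · subst h3
          simp [h2]
        · simp [h2, h3]
    · simp [h1]
  simp only [h, Finset.sum_add_distrib, Finset.sum_ite_eq, Finset.mem_univ, if_true,
    ← Finset.mul_sum]
  by_cases h1 : Z z ∧ W z <;> simp [h1]

theorem T_cnt (N : Fil) (α β γ : ℝ[X]) (hN : N.Cnt α β γ) :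
    (T N).Cnt ((X ^ 4 - 12 * X ^ 3 + 58 * X ^ 2 - 135 * X + 126) * α + (X - 3) ^ 2 * (X - 4) * (β + γ))
      (-2 * (X - 3) * (X - 4) * α + (X - 3) ^ 2 * (β + γ))
      (-2 * (X - 3) * (X - 4) * α + (X - 3) ^ 2 * (β + γ)) := by
  intro q c h01 h12 h23 h30
  rw [T_ext]
  have key : ∀ x y : Fin q, (∑ z : Fin q, ∑ w : Fin q,
      if ((x ≠ c 1 ∧ x ≠ c 2) ∧ (y ≠ c 3 ∧ y ≠ c 0)) ∧ (z ≠ c 0 ∧ z ≠ c 1 ∧ z ≠ x ∧ z ≠ y) ∧
        (w ≠ c 3 ∧ w ≠ c 2 ∧ w ≠ x ∧ w ≠ y) then N.ext ![z, x, w, y] else 0) =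
      tF (c 0) (c 1) (c 2) (c 3) (α.eval (q : ℝ)) (β.eval (q : ℝ)) (γ.eval (q : ℝ)) x y := by
    intro x y
    unfold tF
    by_cases hxy : (x ≠ c 1 ∧ x ≠ c 2) ∧ (y ≠ c 3 ∧ y ≠ c 0)
    · rw [if_pos hxy]
      obtain ⟨⟨hx1, hx2⟩, ⟨hy1, hy2⟩⟩ := hxy
      have e : ∀ z w : Fin q, (if ((x ≠ c 1 ∧ x ≠ c 2) ∧ (y ≠ c 3 ∧ y ≠ c 0)) ∧
          (z ≠ c 0 ∧ z ≠ c 1 ∧ z ≠ x ∧ z ≠ y) ∧
          (w ≠ c 3 ∧ w ≠ c 2 ∧ w ≠ x ∧ w ≠ y) then N.ext ![z, x, w, y] else 0) =
          if (z ≠ c 0 ∧ z ≠ c 1 ∧ z ≠ x ∧ z ≠ y) ∧ (w ≠ c 3 ∧ w ≠ c 2 ∧ w ≠ x ∧ w ≠ y) then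
            ((α.eval (q : ℝ) + if x = y then γ.eval (q : ℝ) else 0) +
              if z = w then β.eval (q : ℝ) else 0) else 0 := by
        intro z w
        by_cases hzw : (z ≠ c 0 ∧ z ≠ c 1 ∧ z ≠ x ∧ z ≠ y) ∧ (w ≠ c 3 ∧ w ≠ c 2 ∧ w ≠ x ∧ w ≠ y)
        · rw [if_pos hzw, if_pos ⟨⟨⟨hx1, hx2⟩, ⟨hy1, hy2⟩⟩, hzw⟩]
          have := hN q ![z, x, w, y] hzw.1.2.2.1 hzw.2.2.2.1.symm hzw.2.2.2.2 hzw.1.2.2.2.symm
          rw [this]
          show α.eval (q : ℝ) + (if z = w then β.eval (q : ℝ) else 0) +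
            (if x = y then γ.eval (q : ℝ) else 0) = _
          ring
        · rw [if_neg hzw, if_neg (fun h => hzw h.2)]
      simp only [e]
      rw [doubleSum (fun z : Fin q => z ≠ c 0 ∧ z ≠ c 1 ∧ z ≠ x ∧ z ≠ y)
        (fun w : Fin q => w ≠ c 3 ∧ w ≠ c 2 ∧ w ≠ x ∧ w ≠ y)]
      rw [cnt4 (c 0) (c 1) x y h01 hx1 hy2, cnt4 (c 3) (c 2) x y h23.symm hx2 hy1,
        cnt6 (c 0) (c 1) (c 2) (c 3) x y h01 h12 h23 h30 hx1 hx2 hy1 hy2]
    · rw [if_neg hxy]
      apply Finset.sum_eq_zero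
      intro z _
      apply Finset.sum_eq_zero
      intro w _
      exact if_neg (fun h => hxy h.1)
  simp only [key]
  rw [tF_sum _ _ _ _ h01 h12 h23 h30]
  simp only [eval_add, eval_mul, eval_sub, eval_pow, eval_X, eval_ofNat, eval_neg]

end Fil

end Pool.Agent.H71Beraha
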