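import Pool.Agent.H71Beraha.Indep

set_option autoImplicit false
set_option linter.all false

namespace Pool.Agent.H71Beraha

open Polynomial Filter Topology

/-- the conclusion of the main statement at the point `q0` -/
def Concl (q0 ε : ℝ) : Prop :=
  ∃ (V : Type) (_ : Fintype V) (G : SimpleGraph V),
        3 ≤ Nat.card V ∧
        Nat.card G.edgeSet + 6 = 3 * Nat.card V ∧
        (∃ (pos : V → ℂ) (arc : ∀ u v : V, Path (pos u) (pos v)),
          Function.Injective pos ∧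
          (∀ u v : V, G.Adj u v → Function.Injective ⇑(arc u v)) ∧
          (∀ u v : V, G.Adj u v → ∀ t : unitInterval, ∀ w : V,
              arc u v t = pos w → t = 0 ∨ t = 1) ∧
          (∀ u v x y : V, G.Adj u v → G.Adj x y → s(u, v) ≠ s(x, y) →
              ∀ a b : unitInterval, arc u v a = arc x y b → a = 0 ∨ a = 1)) ∧
        ∃ p : Polynomial ℝ,
          (∀ k : ℕ, p.eval (k : ℝ) = (Nat.card (G.Coloring (Fin k)) : ℝ)) ∧
          ∃ x : ℝ, |x - q0| < ε ∧ p.IsRoot x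

noncomputable def Wf (i j : ℕ) (q : ℝ) : ℝ := (q - 2) ^ i * ((q - 2) * (q - 3) ^ 2) ^ j
noncomputable def Uf (i j : ℕ) (q : ℝ) : ℝ := (q - 3) ^ i * Dc q ^ j
noncomputable def Gf (i j : ℕ) (q : ℝ) : ℝ := (-1) ^ i * (2 * (q - 3)) ^ j

theorem Wf_pos (i j : ℕ) (q : ℝ) (hq : 3 < q) : 0 < Wf i j q := by
  have h2 : 0 < q - 2 := by linarith
  have h3 : 0 < q - 3 := by linarith
  unfold Wf; positivity

theorem Uf_pos (i j : ℕ) (q : ℝ) (hq : 3 < q) (hD : 0 < Dc q) : 0 < Uf i j q := by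
  have h3 : 0 < q - 3 := by linarith
  unfold Uf; positivity

theorem Gf_abs (i j : ℕ) (q : ℝ) (hq : 3 < q) : |Gf i j q| = (2 * (q - 3)) ^ j := by
  unfold Gf
  rw [abs_mul, abs_pow, abs_neg, abs_one, one_pow, one_mul, abs_of_nonneg]
  have : 0 < q - 3 := by linarith
  positivity

theorem log_WU (i j : ℕ) (q : ℝ) (hq : 3 < q) (hD : 0 < Dc q) :
    Real.log (Wf i j q) - Real.log (Uf i j q) = i * Lb q + j * Lc q := by
  have h2 : 0 < q - 2 := by linarith
  have h3 : 0 < q - 3 := by linarith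
  unfold Wf Uf Lb Lc
  rw [Real.log_mul (by positivity) (by positivity), Real.log_mul (by positivity) (by positivity),
    Real.log_pow, Real.log_pow, Real.log_pow, Real.log_pow,
    Real.log_mul (by positivity) (by positivity), Real.log_pow]
  push_cast
  ring

theorem RW_b : RW (X - 2) (X - 3) (-1) := by
  have := R.b.toRW
  have e1 : ((X : ℝ[X]) - 1) * (1 + 0) + -1 = X - 2 := by ring
  have e2 : ((X : ℝ[X]) - 2) * 1 + -1 = X - 3 := by ring
  rw [e1, e2] at this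
  exact this

theorem RW_c : RW ((X - 2) * (X - 3) ^ 2) (X ^ 3 - 9 * X ^ 2 + 29 * X - 32) (2 * (X - 3)) := by
  refine ⟨(X - 3) * (X - 4) + 1, -1, R.Vaa.Va.cast (by ring) rfl (by ring) id (fun _ => trivial),
    by ring, by ring⟩

/-- existence of a root close to `q0` from a sign change -/
theorem root_of_sign_change (w1 u1 g1 : ℝ[X]) (h1 : RW0 w1 u1 g1) (i j k l : ℕ) (hk : 1 ≤ k)
    (q0 ε x y : ℝ) (hx0 : 3 < x) (hy0 : 3 < y) (hx : |x - q0| < ε) (hy : |y - q0| < ε)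
    (hneg : Phi x (u1.eval x ^ k * Uf i j x ^ l) (w1.eval x ^ k * Wf i j x ^ l)
        (g1.eval x ^ k * Gf i j x ^ l) *
      Phi y (u1.eval y ^ k * Uf i j y ^ l) (w1.eval y ^ k * Wf i j y ^ l)
        (g1.eval y ^ k * Gf i j y ^ l) < 0) : Concl q0 ε := by
  obtain ⟨k, rfl⟩ : ∃ k', k = k' + 1 := ⟨k - 1, by omega⟩
  have c1 := RW_b.pow_mul (RW_c.pow_mul (h1.toRW.pow_mul h1 k) (j * l)) (i * l)
  obtain ⟨V, fV, G, a1, a2, a3, a4⟩ := c1.close
  refine ⟨V, fV, G, a1, a2, a3, _, a4, ?_⟩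
  set p : ℝ[X] := X * ((X - 1) * (X - 3) * ((X - 3) ^ (i * l) *
    ((X ^ 3 - 9 * X ^ 2 + 29 * X - 32) ^ (j * l) * (u1 ^ k * u1))) +
    (X - 2) * ((X - 2) ^ (i * l) * (((X - 2) * (X - 3) ^ 2) ^ (j * l) * (w1 ^ k * w1))) -
    (X ^ 2 - 3 * X + 1) * ((-1) ^ (i * l) * ((2 * (X - 3)) ^ (j * l) * (g1 ^ k * g1)))) with hp
  have hev : ∀ q : ℝ, p.eval q = q * Phi q (u1.eval q ^ (k + 1) * Uf i j q ^ l)
      (w1.eval q ^ (k + 1) * Wf i j q ^ l) (g1.eval q ^ (k + 1) * Gf i j q ^ l) := by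
    intro q
    simp only [hp, Phi, Uf, Wf, Gf, Dc, eval_mul, eval_add, eval_sub, eval_pow, eval_X, eval_one,
      eval_neg, eval_ofNat, mul_pow, pow_mul, pow_succ]
    ring
  have hprod : p.eval x * p.eval y < 0 := by
    rw [hev, hev]
    have : ∀ a b : ℝ, x * a * (y * b) = (x * y) * (a * b) := by intro a b; ring
    rw [this]
    exact mul_neg_of_pos_of_neg (by positivity) hneg
  have hmem : (0 : ℝ) ∈ Set.uIcc (p.eval x) (p.eval y) := by
    rw [Set.mem_uIcc]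
    rcases mul_neg_iff.1 hprod with ⟨h2, h3⟩ | ⟨h2, h3⟩
    · right; exact ⟨h3.le, h2.le⟩
    · left; exact ⟨h2.le, h3.le⟩
  obtain ⟨z, hz, hz0⟩ := intermediate_value_uIcc (p.continuous.continuousOn) hmem
  refine ⟨z, ?_, hz0⟩
  rw [abs_lt] at hx hy ⊢
  rcases Set.mem_uIcc.1 hz with ⟨h2, h3⟩ | ⟨h2, h3⟩ <;> constructor <;> linarith

theorem density (w1 u1 g1 : ℝ[X]) (h1 : RW0 w1 u1 g1) (i j i' j' : ℕ)
    (hdet : (i : ℝ) * j' ≠ i' * j) (q0 : ℝ) (hq3 : 3 < q0) (hD : 0 < Dc q0)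
    (hwu : w1.eval q0 * u1.eval q0 < 0) (hg : |g1.eval q0| < |u1.eval q0|)
    (hG : (2 * (q0 - 3)) ^ j < Uf i j q0) (hG' : (2 * (q0 - 3)) ^ j' < Uf i' j' q0)
    (hs : (|w1.eval q0| < |u1.eval q0| ∧ Uf i j q0 < Wf i j q0 ∧ Uf i' j' q0 < Wf i' j' q0) ∨
      (|u1.eval q0| < |w1.eval q0| ∧ Wf i j q0 < Uf i j q0 ∧ Wf i' j' q0 < Uf i' j' q0))
    (ε : ℝ) (hε : 0 < ε) : Concl q0 ε := by
  by_contra hno
  have cD : Continuous Dc := by unfold Dc; fun_prop
  have cU : ∀ i j, Continuous (Uf i j) := fun i j => by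
    unfold Uf; exact ((continuous_id.sub continuous_const).pow _).mul (cD.pow _)
  have cW : ∀ i j, Continuous (Wf i j) := fun i j => by unfold Wf; fun_prop
  have cw := w1.continuous
  have cu := u1.continuous
  have cg := g1.continuous
  -- everything good near q0
  have e0 : ∀ᶠ q in 𝓝 q0, |q - q0| < ε := by
    have : Continuous fun q : ℝ => |q - q0| := by fun_prop
    have h := this.tendsto q0
    simp only [sub_self, abs_zero] at h
    exact h.eventually (gt_mem_nhds hε)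
  have e1 : ∀ᶠ q in 𝓝 q0, (3 : ℝ) < q := lt_mem_nhds hq3
  have e2 : ∀ᶠ q in 𝓝 q0, 0 < Dc q := (cD.tendsto q0).eventually (lt_mem_nhds hD)
  have e3 : ∀ᶠ q in 𝓝 q0, w1.eval q * u1.eval q < 0 :=
    ((cw.mul cu).tendsto q0).eventually (gt_mem_nhds hwu)
  have e4 : ∀ᶠ q in 𝓝 q0, |g1.eval q| < |u1.eval q| :=
    (cg.abs.tendsto q0).eventually_lt (cu.abs.tendsto q0) hg
  have c2 : ∀ j : ℕ, Continuous fun q : ℝ => (2 * (q - 3)) ^ j := fun j => by fun_prop
  have e5 : ∀ᶠ q in 𝓝 q0, (2 * (q - 3)) ^ j < Uf i j q :=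
    ((c2 j).tendsto q0).eventually_lt ((cU i j).tendsto q0) hG
  have e6 : ∀ᶠ q in 𝓝 q0, (2 * (q - 3)) ^ j' < Uf i' j' q :=
    ((c2 j').tendsto q0).eventually_lt ((cU i' j').tendsto q0) hG'
  have hu0 : u1.eval q0 ≠ 0 := by intro h; rw [h, mul_zero] at hwu; exact lt_irrefl _ hwu
  have e7 : ∀ᶠ q in 𝓝 q0, 0 < u1.eval q * u1.eval q0 := by
    have : Continuous fun q : ℝ => u1.eval q * u1.eval q0 := cu.mul continuous_const
    exact (this.tendsto q0).eventually (lt_mem_nhds (mul_self_pos.2 hu0))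
  have e8 : ∀ᶠ q in 𝓝 q0, ∃ _ : True,
      ((|w1.eval q0| < |u1.eval q0| → |w1.eval q| < |u1.eval q| ∧ Uf i j q < Wf i j q ∧
        Uf i' j' q < Wf i' j' q) ∧
      (¬ |w1.eval q0| < |u1.eval q0| → |u1.eval q| < |w1.eval q| ∧ Wf i j q < Uf i j q ∧
        Wf i' j' q < Uf i' j' q)) := by
    rcases hs with ⟨s1, s2, s3⟩ | ⟨s1, s2, s3⟩
    · have f1 := (cw.abs.tendsto q0).eventually_lt (cu.abs.tendsto q0) s1
      have f2 := ((cU i j).tendsto q0).eventually_lt ((cW i j).tendsto q0) s2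
      have f3 := ((cU i' j').tendsto q0).eventually_lt ((cW i' j').tendsto q0) s3
      filter_upwards [f1, f2, f3] with q g1 g2 g3
      exact ⟨trivial, fun _ => ⟨g1, g2, g3⟩, fun h => absurd s1 h⟩
    · have f1 := (cu.abs.tendsto q0).eventually_lt (cw.abs.tendsto q0) s1
      have f2 := ((cW i j).tendsto q0).eventually_lt ((cU i j).tendsto q0) s2
      have f3 := ((cW i' j').tendsto q0).eventually_lt ((cU i' j').tendsto q0) s3
      filter_upwards [f1, f2, f3] with q g1 g2 g3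
      exact ⟨trivial, fun h => absurd (lt_trans h s1) (lt_irrefl _), fun _ => ⟨g1, g2, g3⟩⟩
  have eall := ((((((((e0.and e1).and e2).and e3).and e4).and e5).and e6).and e7).and e8)
  obtain ⟨δ, hδ, hball⟩ := Metric.eventually_nhds_iff.1 eall
  set L1 : ℝ → ℝ := fun q => Real.log (w1.eval q) - Real.log (u1.eval q) with hL1
  -- facts for good points
  have signs : ∀ q, dist q q0 < δ → ∀ (a b : ℕ), (a = i ∧ b = j ∨ a = i' ∧ b = j') →
      (|w1.eval q0| < |u1.eval q0| → L1 q < 0 ∧ 0 < a * Lb q + b * Lc q) ∧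
      (¬ |w1.eval q0| < |u1.eval q0| → 0 < L1 q ∧ a * Lb q + b * Lc q < 0) := by
    intro q hq a b hab
    obtain ⟨⟨⟨⟨⟨⟨⟨⟨g0, g1'⟩, g2⟩, g3⟩, g4⟩, g5⟩, g6⟩, g7⟩, -, g8, g9⟩ := hball hq
    have hw : w1.eval q ≠ 0 := by intro h; rw [h, zero_mul] at g3; exact lt_irrefl _ g3
    have hu : u1.eval q ≠ 0 := by intro h; rw [h, mul_zero] at g3; exact lt_irrefl _ g3
    have hUW : ∀ a b : ℕ, (a = i ∧ b = j ∨ a = i' ∧ b = j') →
        (|w1.eval q0| < |u1.eval q0| → Uf a b q < Wf a b q) ∧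
        (¬ |w1.eval q0| < |u1.eval q0| → Wf a b q < Uf a b q) := by
      rintro a b (⟨rfl, rfl⟩ | ⟨rfl, rfl⟩)
      · exact ⟨fun h => (g8 h).2.1, fun h => (g9 h).2.1⟩
      · exact ⟨fun h => (g8 h).2.2, fun h => (g9 h).2.2⟩
    rw [← log_WU a b q g1' g2]
    constructor
    · intro h
      refine ⟨?_, ?_⟩
      · have := Real.log_lt_log (abs_pos.2 hw) (g8 h).1
        rw [Real.log_abs, Real.log_abs] at this
        simp only [hL1]; linarith
      · have := Real.log_lt_log (Uf_pos a b q g1' g2) ((hUW a b hab).1 h)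
        linarith
    · intro h
      refine ⟨?_, ?_⟩
      · have := Real.log_lt_log (abs_pos.2 hu) (g9 h).1
        rw [Real.log_abs, Real.log_abs] at this
        simp only [hL1]; linarith
      · have := Real.log_lt_log (Wf_pos a b q g1') ((hUW a b hab).2 h)
        linarith
  -- proportionality, otherwise there is a sign change
  have prop : ∀ (a b : ℕ), (a = i ∧ b = j ∨ a = i' ∧ b = j') → ∀ x y, dist x q0 < δ → dist y q0 < δ →
      L1 x * (a * Lb y + b * Lc y) = L1 y * (a * Lb x + b * Lc x) := by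
    intro a b hab x y hx hy
    by_contra hne
    have sx := signs x hx a b hab
    have sy := signs y hy a b hab
    obtain ⟨⟨⟨⟨⟨⟨⟨⟨x0, x1⟩, x2⟩, x3⟩, x4⟩, x5⟩, x6⟩, x7⟩, -⟩ := hball hx
    obtain ⟨⟨⟨⟨⟨⟨⟨⟨y0, y1⟩, y2⟩, y3⟩, y4⟩, y5⟩, y6⟩, y7⟩, -⟩ := hball hy
    have xG : |Gf a b x| < Uf a b x := by
      rw [Gf_abs a b x x1]
      rcases hab with ⟨rfl, rfl⟩ | ⟨rfl, rfl⟩
      · exact x5
      · exact x6
    have yG : |Gf a b y| < Uf a b y := by
      rw [Gf_abs a b y y1]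
      rcases hab with ⟨rfl, rfl⟩ | ⟨rfl, rfl⟩
      · exact y5
      · exact y6
    have huu : 0 < u1.eval x * u1.eval y := by
      have h3 : 0 < (u1.eval x * u1.eval y) * (u1.eval q0) ^ 2 := by
        have : (u1.eval x * u1.eval y) * (u1.eval q0) ^ 2 =
          (u1.eval x * u1.eval q0) * (u1.eval y * u1.eval q0) := by ring
        rw [this]; exact mul_pos x7 y7
      exact (mul_pos_iff_of_pos_right (by positivity)).1 h3
    have lx := log_WU a b x x1 x2
    have ly := log_WU a b y y1 y2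
    have main := sign_change x y x1 y1 (w1.eval x) (u1.eval x) (g1.eval x) (Wf a b x) (Uf a b x)
      (Gf a b x) (w1.eval y) (u1.eval y) (g1.eval y) (Wf a b y) (Uf a b y) (Gf a b y)
      x3 x4 (Wf_pos a b x x1) (Uf_pos a b x x1 x2) xG y3 y4 (Wf_pos a b y y1) (Uf_pos a b y y1 y2) yG
      huu
    rw [lx, ly] at main
    have hfin : ∃ k l : ℕ, 1 ≤ k ∧ Phi x (u1.eval x ^ k * Uf a b x ^ l) (w1.eval x ^ k * Wf a b x ^ l)
        (g1.eval x ^ k * Gf a b x ^ l) *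
      Phi y (u1.eval y ^ k * Uf a b y ^ l) (w1.eval y ^ k * Wf a b y ^ l)
        (g1.eval y ^ k * Gf a b y ^ l) < 0 := by
      by_cases ht : |w1.eval q0| < |u1.eval q0|
      · obtain ⟨s1, s2⟩ := sx.1 ht
        obtain ⟨t1, t2⟩ := sy.1 ht
        exact main (mul_neg_of_neg_of_pos s1 s2) (mul_neg_of_neg_of_pos t1 t2) (mul_pos s2 t2) hne
      · obtain ⟨s1, s2⟩ := sx.2 ht
        obtain ⟨t1, t2⟩ := sy.2 ht
        exact main (mul_neg_of_pos_of_neg s1 s2) (mul_neg_of_pos_of_neg t1 t2)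
          (mul_pos_of_neg_of_neg s2 t2) hne
    obtain ⟨k, l, hk, hkl⟩ := hfin
    exact hno (root_of_sign_change w1 u1 g1 h1 a b k l hk q0 ε x y x1 y1 x0 y0 hkl)
  -- contradiction with independence
  have hd0 : dist q0 q0 < δ := by simpa using hδ
  have s0 := signs q0 hd0 i j (Or.inl ⟨rfl, rfl⟩)
  have s0' := signs q0 hd0 i' j' (Or.inr ⟨rfl, rfl⟩)
  have hL10 : L1 q0 ≠ 0 := by
    by_cases ht : |w1.eval q0| < |u1.eval q0|
    · exact (s0.1 ht).1.ne
    · exact (s0.2 ht).1.ne'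
  have hM : (i : ℝ) * Lb q0 + j * Lc q0 ≠ 0 := by
    by_cases ht : |w1.eval q0| < |u1.eval q0|
    · exact (s0.1 ht).2.ne'
    · exact (s0.2 ht).2.ne
  set M := (i : ℝ) * Lb q0 + j * Lc q0 with hMdef
  set M' := (i' : ℝ) * Lb q0 + j' * Lc q0 with hMdef'
  have ind := log_indep (max 3 (q0 - δ)) (q0 + δ) (i * M' - i' * M) (j * M' - j' * M)
    (le_max_left _ _) (by rw [max_lt_iff]; constructor <;> linarith)
    (by
      intro q hq
      have hq' : dist q q0 < δ := by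
        rw [Real.dist_eq, abs_lt]
        have := (max_lt_iff.1 hq.1).2
        constructor <;> linarith [hq.2]
      obtain ⟨⟨⟨⟨⟨⟨⟨⟨x0, x1⟩, x2⟩, x3⟩, x4⟩, x5⟩, x6⟩, x7⟩, -⟩ := hball hq'
      exact x2)
    (by
      intro q hq
      have hq' : dist q q0 < δ := by
        rw [Real.dist_eq, abs_lt]
        have := (max_lt_iff.1 hq.1).2
        constructor <;> linarith [hq.2]
      have p1 := prop i j (Or.inl ⟨rfl, rfl⟩) q q0 hq' hd0
      have p2 := prop i' j' (Or.inr ⟨rfl, rfl⟩) q q0 hq' hd0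
      rw [← hMdef] at p1
      rw [← hMdef'] at p2
      have : L1 q0 * ((i * M' - i' * M) * Lb q + (j * M' - j' * M) * Lc q) = 0 := by
        linear_combination (-M') * p1 + M * p2
      exact (mul_eq_zero.1 this).resolve_left hL10)
  obtain ⟨i1, i2⟩ := ind
  have : ((i : ℝ) * j' - i' * j) * M = 0 := by
    linear_combination (j : ℝ) * i1 - (i : ℝ) * i2
  rcases mul_eq_zero.1 this with h | h
  · exact hdet (by linarith)
  · exact hM h

end Pool.Agent.H71Beraha
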