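import Pool.Agent.H71Beraha.PG

set_option autoImplicit false

namespace Pool.Agent.H71Beraha

open scoped Classical

/-- A filling of the quadrilateral with corners `0,1,2,3` : interior vertices `I`, interior edges `K`,
with a drawing in the diamond `|x|+|y| ≤ 1`. -/
structure Fil where
  I : Type
  K : Type
  fI : Fintype I
  fK : Fintype K
  src : K → Fin 4 ⊕ I
  tgt : K → Fin 4 ⊕ I
  pos : I → ℝ × ℝ
  arc : K → ℝ → ℝ × ℝ

attribute [instance] Fil.fI Fil.fK

/-- the corners of the diamond -/
def corner : Fin 4 → ℝ × ℝ := ![(0, 1), (-1, 0), (0, -1), (1, 0)]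

/-- the open diamond -/
def InD (p : ℝ × ℝ) : Prop := |p.1| + |p.2| < 1

theorem corner_notInD (i : Fin 4) : ¬ InD (corner i) := by
  fin_cases i <;> simp [corner, InD]

theorem corner_inj : Function.Injective corner := by
  intro i j h
  fin_cases i <;> fin_cases j <;> simp [corner] at h ⊢ <;> norm_num at h

namespace Fil

/-- positions of all vertices -/
def P (N : Fil) : Fin 4 ⊕ N.I → ℝ × ℝ := Sum.elim corner N.pos

structure Plane (N : Fil) : Prop where
  posMem : ∀ i, InD (N.pos i)
  posInj : Function.Injective N.pos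
  cont : ∀ k, Continuous (N.arc k)
  arcInj : ∀ k, Set.InjOn (N.arc k) (Set.Icc 0 1)
  zero : ∀ k, N.arc k 0 = N.P (N.src k)
  one : ∀ k, N.arc k 1 = N.P (N.tgt k)
  arcMem : ∀ k t, 0 < t → t < 1 → InD (N.arc k t)
  avoid : ∀ k t i, 0 < t → t < 1 → N.arc k t ≠ N.pos i
  disj : ∀ k k' s t, k ≠ k' → 0 < s → s < 1 → 0 < t → t < 1 → N.arc k s ≠ N.arc k' t
  simple : ∀ k k', s(N.src k, N.tgt k) = s(N.src k', N.tgt k') → k = k'
  outer : ∀ k (i : Fin 4), s(N.src k, N.tgt k) ≠ s(Sum.inl i, Sum.inl (i + 1))

def AC (N : Fil) : Prop := ∃ k, s(N.src k, N.tgt k) = s(Sum.inl 0, Sum.inl 2)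
def BD (N : Fil) : Prop := ∃ k, s(N.src k, N.tgt k) = s(Sum.inl 1, Sum.inl 3)

theorem Plane.PInj {N : Fil} (h : N.Plane) : Function.Injective N.P := by
  rintro (i | i) (j | j) hij
  · rw [corner_inj hij]
  · exfalso
    have : corner i = N.pos j := hij
    exact corner_notInD i (this ▸ h.posMem j)
  · exfalso
    have : N.pos i = corner j := hij
    exact corner_notInD j (this ▸ h.posMem i)
  · rw [h.posInj hij]

theorem Plane.avoid' {N : Fil} (h : N.Plane) (k : N.K) (t : ℝ) (v : Fin 4 ⊕ N.I) (h0 : 0 < t)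
    (h1 : t < 1) : N.arc k t ≠ N.P v := by
  rcases v with i | i
  · intro he
    have : N.arc k t = corner i := he
    exact corner_notInD i (this ▸ h.arcMem k t h0 h1)
  · exact h.avoid k t i h0 h1

theorem Plane.ne {N : Fil} (h : N.Plane) (k : N.K) : N.src k ≠ N.tgt k := by
  intro he
  have h0 : N.arc k 0 = N.arc k 1 := by rw [h.zero, h.one, he]
  have := h.arcInj k (by simp) (by simp) h0
  norm_num at this

/-- the arcs used to close up -/
noncomputable def outArc : Fin 5 → ℝ → ℝ × ℝ :=
  ![fun t => (-t, 1 - t), fun t => (-1 + t, -t), fun t => (t, -1 + t), fun t => (1 - t, t),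
    fun t => (2 * t - 1, 2 * (1 - |2 * t - 1|))]

def outSrc : Fin 5 → Fin 4 := ![0, 1, 2, 3, 1]
def outTgt : Fin 5 → Fin 4 := ![1, 2, 3, 0, 3]

theorem outArc_cont (k : Fin 5) : Continuous (outArc k) := by
  fin_cases k
  · show Continuous (fun t : ℝ => ((-t, 1 - t) : ℝ × ℝ)); fun_prop
  · show Continuous (fun t : ℝ => ((-1 + t, -t) : ℝ × ℝ)); fun_prop
  · show Continuous (fun t : ℝ => ((t, -1 + t) : ℝ × ℝ)); fun_prop
  · show Continuous (fun t : ℝ => ((1 - t, t) : ℝ × ℝ)); fun_prop
  · show Continuous (fun t : ℝ => ((2 * t - 1, 2 * (1 - |2 * t - 1|)) : ℝ × ℝ)); fun_prop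

theorem outArc_inj (k : Fin 5) : Function.Injective (outArc k) := by
  intro s t h
  fin_cases k <;> simp [outArc] at h <;> linarith

theorem outArc_notInD (k : Fin 5) (t : ℝ) (h0 : 0 < t) (h1 : t < 1) : ¬ InD (outArc k t) := by
  fin_cases k <;> simp [outArc, InD]
  · rw [abs_of_pos h0, abs_of_pos (by linarith : (0:ℝ) < 1 - t)]; linarith
  · rw [abs_of_pos h0, abs_of_neg (by linarith : -1 + t < 0)]; linarith
  · rw [abs_of_pos h0, abs_of_neg (by linarith : -1 + t < 0)]; linarith
  · rw [abs_of_pos h0, abs_of_pos (by linarith : (0:ℝ) < 1 - t)]; linarith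
  · have : |2 * t - 1| ≤ 1 := by rw [abs_le]; constructor <;> linarith
    rw [abs_of_nonneg (by linarith : 0 ≤ 1 - |2 * t - 1|)]; linarith

theorem outArc_avoid (k : Fin 5) (t : ℝ) (i : Fin 4) (h0 : 0 < t) (h1 : t < 1) :
    outArc k t ≠ corner i := by
  intro h
  fin_cases k <;> fin_cases i <;> simp [outArc, corner] at h <;>
    first
    | linarith [h.1, h.2]
    | (rcases abs_cases (2 * t - 1) with h' | h' <;> obtain ⟨ha, hb⟩ := h <;> linarith)

theorem outArc_disj (k k' : Fin 5) (s t : ℝ) (hk : k ≠ k') (hs0 : 0 < s) (hs1 : s < 1)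
    (ht0 : 0 < t) (ht1 : t < 1) : outArc k s ≠ outArc k' t := by
  intro h
  have A := abs_cases (2 * t - 1)
  have B := abs_cases (2 * s - 1)
  fin_cases k <;> fin_cases k' <;> simp [outArc] at h hk <;> obtain ⟨ha, hb⟩ := h <;>
    first
    | linarith
    | (rcases A with h' | h' <;> linarith)
    | (rcases B with h' | h' <;> linarith)
  
/-- the closed-up triangulation -/
noncomputable def close (N : Fil) : PG where
  V := Fin 4 ⊕ N.I
  K := N.K ⊕ Fin 5
  fV := inferInstance
  fK := inferInstance
  src := Sum.elim N.src (fun k => Sum.inl (outSrc k))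
  tgt := Sum.elim N.tgt (fun k => Sum.inl (outTgt k))
  P := N.P
  arc := Sum.elim N.arc outArc

theorem close_plane (N : Fil) (h : N.Plane) (hbd : ¬ N.BD) : N.close.Plane where
  inj := h.PInj
  cont := by
    rintro (k | k)
    · exact h.cont k
    · exact outArc_cont k
  arcInj := by
    rintro (k | k)
    · exact h.arcInj k
    · exact (outArc_inj k).injOn
  zero := by
    rintro (k | k)
    · exact h.zero k
    · fin_cases k <;> simp [close, outArc, outSrc, P, corner]
  one := by
    rintro (k | k)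
    · exact h.one k
    · fin_cases k <;> simp [close, outArc, outTgt, P, corner] <;> norm_num
  avoid := by
    rintro (k | k) t v h0 h1
    · exact h.avoid' k t v h0 h1
    · rcases v with i | i
      · exact outArc_avoid k t i h0 h1
      · intro he
        have he' : outArc k t = N.pos i := he
        exact outArc_notInD k t h0 h1 (he' ▸ h.posMem i)
  disj := by
    rintro (k | k) (k' | k') s t hne hs0 hs1 ht0 ht1
    · exact h.disj k k' s t (fun he => hne (by rw [he])) hs0 hs1 ht0 ht1
    · intro he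
      have he' : N.arc k s = outArc k' t := he
      exact outArc_notInD k' t ht0 ht1 (he' ▸ h.arcMem k s hs0 hs1)
    · intro he
      have he' : outArc k s = N.arc k' t := he
      exact outArc_notInD k s hs0 hs1 (he' ▸ h.arcMem k' t ht0 ht1)
    · exact outArc_disj k k' s t (fun he => hne (by rw [he])) hs0 hs1 ht0 ht1
  simple := by
    have key : ∀ (k : N.K) (k' : Fin 5),
        s(N.src k, N.tgt k) ≠ s(Sum.inl (outSrc k'), Sum.inl (outTgt k')) := by
      intro k k' he
      fin_cases k'
      · exact h.outer k 0 he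
      · exact h.outer k 1 he
      · exact h.outer k 2 he
      · exact h.outer k 3 he
      · exact hbd ⟨k, he⟩
    rintro (k | k) (k' | k') he
    · rw [h.simple k k' he]
    · exact absurd he (key k k')
    · exact absurd he.symm (key k' k)
    · have he' : s((Sum.inl (outSrc k) : Fin 4 ⊕ N.I), Sum.inl (outTgt k)) =
        s(Sum.inl (outSrc k'), Sum.inl (outTgt k')) := he
      congr 1
      fin_cases k <;> fin_cases k' <;> simp [outSrc, outTgt] at he' ⊢

end Fil

end Pool.Agent.H71Beraha
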