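import Pool.Agent.H71Beraha.High

set_option autoImplicit false
set_option linter.all false

namespace Pool.Agent.H71Beraha

open Polynomial

/-- starting filling for the iteration -/
theorem E7R : R ((X - 3) * (1779 - 2824 * X + 1920 * X ^ 2 - 719 * X ^ 3 + 157 * X ^ 4 - 19 * X ^ 5 + X ^ 6))
    ((X - 3) * (-170 + 176 * X - 70 * X ^ 2 + 13 * X ^ 3 - X ^ 4))
    ((X - 3) * (-689 + 910 * X - 485 * X ^ 2 + 131 * X ^ 3 - 18 * X ^ 4 + X ^ 5)) False False :=
  R.Vaa.Hb.Hb.Va.Va.Hb.Va.cast (by ring) (by ring) (by ring) id id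

/-- the pair (α, β+γ) under iterated antiprism layers -/
noncomputable def sq : ℕ → ℝ[X] × ℝ[X]
  | 0 => ((X - 3) * (1779 - 2824 * X + 1920 * X ^ 2 - 719 * X ^ 3 + 157 * X ^ 4 - 19 * X ^ 5 + X ^ 6),
      (X - 3) * (-859 + 1086 * X - 555 * X ^ 2 + 144 * X ^ 3 - 19 * X ^ 4 + X ^ 5))
  | n + 1 => ((X ^ 4 - 12 * X ^ 3 + 58 * X ^ 2 - 135 * X + 126) * (sq n).1 +
        (X - 3) ^ 2 * (X - 4) * (sq n).2,
      -4 * (X - 3) * (X - 4) * (sq n).1 + 2 * (X - 3) ^ 2 * (sq n).2)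

noncomputable def bP (n : ℕ) : ℝ[X] := -2 * (X - 3) * (X - 4) * (sq n).1 + (X - 3) ^ 2 * (sq n).2

theorem sq_snd (n : ℕ) : (sq (n + 1)).2 = bP n + bP n := by
  simp only [sq, bP]; ring

theorem itR (n : ℕ) : R (sq (n + 1)).1 (bP n) (bP n) False False := by
  induction n with
  | zero =>
    refine E7R.T.cast ?_ ?_ ?_ id id
    · simp only [sq]; ring
    · simp only [bP, sq]; ring
    · simp only [bP, sq]; ring
  | succ n ih =>
    refine ih.T.cast ?_ ?_ ?_ id id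
    · rw [← sq_snd]; rfl
    · rw [← sq_snd]; rfl
    · rw [← sq_snd]; rfl

theorem high_case (q : ℝ) (h1 : 3769 / 1000 ≤ q) (h2 : q < 4) (ε : ℝ) (hε : 0 < ε) : Concl q ε := by
  obtain ⟨hD, p1, p2, p3, p4⟩ := pairs_hi q (by linarith)
  have hq3 : 0 < q - 3 := by linarith
  have hq0 : 0 < q := by linarith
  obtain ⟨x, hx⟩ : ∃ x, q = 3769 / 1000 + x := ⟨q - 3769 / 1000, by ring⟩
  have x0 : 0 ≤ x := by linarith
  have x1 : x ≤ 231 / 1000 := by linarith
  -- the scalar quantities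
  have hA : 0 < q ^ 4 - 12 * q ^ 3 + 58 * q ^ 2 - 135 * q + 126 := by
    have e : q ^ 4 - 12 * q ^ 3 + 58 * q ^ 2 - 135 * q + 126 =
      408151832321/1000000000000 + 1242756609/250000000 * x + 3774083/500000 * x ^ 2 +
        769/250 * x ^ 3 + 1 * x ^ 4 := by rw [hx]; ring
    rw [e]; positivity
  have hB : (q - 3) ^ 2 * (q - 4) < 0 := mul_neg_of_pos_of_neg (by positivity) (by linarith)
  have hC : 0 ≤ -4 * (q - 3) * (q - 4) := by nlinarith
  have hDD : 0 < 2 * (q - 3) ^ 2 := by positivity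
  have ha1 : 0 < 1779 - 2824 * q + 1920 * q ^ 2 - 719 * q ^ 3 + 157 * q ^ 4 - 19 * q ^ 5 + q ^ 6 := by
    have e : 1779 - 2824 * q + 1920 * q ^ 2 - 719 * q ^ 3 + 157 * q ^ 4 - 19 * q ^ 5 + q ^ 6 =
      11746382031621329881/1000000000000000000 + 12091891414362047/500000000000000 * x +
      5200042678963/200000000000 * x ^ 2 + 985676109/50000000 * x ^ 3 + 2405083/200000 * x ^ 4 +
      1807/500 * x ^ 5 + 1 * x ^ 6 := by rw [hx]; ring
    rw [e]; positivity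
  have hs1 : -859 + 1086 * q - 555 * q ^ 2 + 144 * q ^ 3 - 19 * q ^ 4 + q ^ 5 < 0 := by
    have e : -859 + 1086 * q - 555 * q ^ 2 + 144 * q ^ 3 - 19 * q ^ 4 + q ^ 5 =
      -(13578781352229151/1000000000000000) - 4190613716479/200000000000 * x -
      1080309791/100000000 * x ^ 2 - 39039/100000 * x ^ 3 - 31/200 * x ^ 4 + 1 * x ^ 5 := by
      rw [hx]; ring
    have e2 : x ^ 5 ≤ (231 / 1000) ^ 5 := pow_le_pow_left₀ x0 x1 5
    have e3 : 0 ≤ x ^ 2 := by positivity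
    have e4 : 0 ≤ x ^ 3 := by positivity
    have e5 : 0 ≤ x ^ 4 := by positivity
    rw [e]; linarith
  have hR : -137822 + 392570 * q - 510019 * q ^ 2 + 398414 * q ^ 3 - 207435 * q ^ 4 + 75280 * q ^ 5 -
      19302 * q ^ 6 + 3456 * q ^ 7 - 414 * q ^ 8 + 30 * q ^ 9 - q ^ 10 < 0 := by
    have e : -(-137822 + 392570 * q - 510019 * q ^ 2 + 398414 * q ^ 3 - 207435 * q ^ 4 + 75280 * q ^ 5 -
      19302 * q ^ 6 + 3456 * q ^ 7 - 414 * q ^ 8 + 30 * q ^ 9 - q ^ 10) =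
      5675947678155925913308831412801/1000000000000000000000000000000 +
      6278307358492239117898774529/100000000000000000000000000 * x +
      42386169267822489472623369/200000000000000000000000 * x ^ 2 +
      9834773222392213078467/25000000000000000000 * x ^ 3 +
      47625464478235756501/100000000000000000 * x ^ 4 + 100925628086455487/250000000000000 * x ^ 5 +
      24646161678741/100000000000 * x ^ 6 + 2748469827/25000000 * x ^ 7 + 7122249/200000 * x ^ 8 +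
      769/100 * x ^ 9 + 1 * x ^ 10 := by rw [hx]; ring
    have : 0 < -(-137822 + 392570 * q - 510019 * q ^ 2 + 398414 * q ^ 3 - 207435 * q ^ 4 +
      75280 * q ^ 5 - 19302 * q ^ 6 + 3456 * q ^ 7 - 414 * q ^ 8 + 30 * q ^ 9 - q ^ 10) := by
      rw [e]; positivity
    linarith
  have hc3 : 0 < -3558 + 8347 * q - 8402 * q ^ 2 + 4723 * q ^ 3 - 1608 * q ^ 4 + 333 * q ^ 5 -
      39 * q ^ 6 + 2 * q ^ 7 := by
    have e : -3558 + 8347 * q - 8402 * q ^ 2 + 4723 * q ^ 3 - 1608 * q ^ 4 + 333 * q ^ 5 -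
      39 * q ^ 6 + 2 * q ^ 7 = 6936518387283627380989/500000000000000000000 +
      32435828264720393167/500000000000000000 * x + 65343401416374329/500000000000000 * x ^ 2 +
      14889943480247/100000000000 * x ^ 3 + 10504920763/100000000 * x ^ 4 +
      23839581/500000 * x ^ 5 + 6883/500 * x ^ 6 + 2 * x ^ 7 := by rw [hx]; ring
    rw [e]; positivity
  have hc4 : 0 < 180 - 708 * q + 762 * q ^ 2 - 389 * q ^ 3 + 108 * q ^ 4 - 16 * q ^ 5 + q ^ 6 := by
    have e : 180 - 708 * q + 762 * q ^ 2 - 389 * q ^ 3 + 108 * q ^ 4 - 16 * q ^ 5 + q ^ 6 =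
      187741979501876881/1000000000000000000 + 3765145284769547/500000000000000 * x +
      5826849532963/200000000000 * x ^ 2 + 1857517609/50000000 * x ^ 3 + 3912083/200000 * x ^ 4 +
      3307/500 * x ^ 5 + 1 * x ^ 6 := by rw [hx]; ring
    rw [e]; positivity
  have hc5 : 0 < -36 + 150 * q - 178 * q ^ 2 + 92 * q ^ 3 - 22 * q ^ 4 + 2 * q ^ 5 := by
    have e : -36 + 150 * q - 178 * q ^ 2 + 92 * q ^ 3 - 22 * q ^ 4 + 2 * q ^ 5 =
      4078144088338849/500000000000000 + 3531795381121/100000000000 * x +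
      2896823009/50000000 * x ^ 2 + 2221761/50000 * x ^ 3 + 1569/100 * x ^ 4 + 2 * x ^ 5 := by
      rw [hx]; ring
    rw [e]; positivity
  -- the threshold
  obtain ⟨t, htq⟩ : ∃ t : ℝ, t * q = -2 * (q - 1) := ⟨-2 * (q - 1) / q, by field_simp⟩
  have ht : t < 0 := by
    by_contra h
    push Not at h
    nlinarith [mul_nonneg h hq0.le]
  have it := iterate (q ^ 4 - 12 * q ^ 3 + 58 * q ^ 2 - 135 * q + 126) ((q - 3) ^ 2 * (q - 4))
    (-4 * (q - 3) * (q - 4)) (2 * (q - 3) ^ 2) t (-(q - 2)) (fun n => (sq n).1.eval q)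
    (fun n => (sq n).2.eval q) hA hB hC hDD
    (by have := mul_pos_of_neg_of_neg hB ht; linarith)
    (by
      have : (sq 0).1.eval q = (q - 3) * (1779 - 2824 * q + 1920 * q ^ 2 - 719 * q ^ 3 +
        157 * q ^ 4 - 19 * q ^ 5 + q ^ 6) := by simp [sq]
      show 0 < (sq 0).1.eval q
      rw [this]; exact mul_pos hq3 ha1)
    (by
      have : (sq 0).2.eval q = (q - 3) * (-859 + 1086 * q - 555 * q ^ 2 + 144 * q ^ 3 -
        19 * q ^ 4 + q ^ 5) := by simp [sq]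
      show (sq 0).2.eval q ≤ 0
      rw [this]; exact (mul_neg_of_pos_of_neg hq3 hs1).le)
    (by
      have e1 : (sq 0).1.eval q = (q - 3) * (1779 - 2824 * q + 1920 * q ^ 2 - 719 * q ^ 3 +
        157 * q ^ 4 - 19 * q ^ 5 + q ^ 6) := by simp [sq]
      have e2 : (sq 0).2.eval q = (q - 3) * (-859 + 1086 * q - 555 * q ^ 2 + 144 * q ^ 3 -
        19 * q ^ 4 + q ^ 5) := by simp [sq]
      show t * (sq 0).1.eval q < (sq 0).2.eval q
      rw [e1, e2]
      have e3 : ((q - 3) * (-859 + 1086 * q - 555 * q ^ 2 + 144 * q ^ 3 - 19 * q ^ 4 + q ^ 5) -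
        t * ((q - 3) * (1779 - 2824 * q + 1920 * q ^ 2 - 719 * q ^ 3 +
        157 * q ^ 4 - 19 * q ^ 5 + q ^ 6))) * q = (q - 3) * (-3558 + 8347 * q - 8402 * q ^ 2 +
        4723 * q ^ 3 - 1608 * q ^ 4 + 333 * q ^ 5 - 39 * q ^ 6 + 2 * q ^ 7) := by
        linear_combination (-((q - 3) * (1779 - 2824 * q + 1920 * q ^ 2 - 719 * q ^ 3 +
          157 * q ^ 4 - 19 * q ^ 5 + q ^ 6))) * htq
      have e4 : 0 < ((q - 3) * (-859 + 1086 * q - 555 * q ^ 2 + 144 * q ^ 3 - 19 * q ^ 4 + q ^ 5) -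
        t * ((q - 3) * (1779 - 2824 * q + 1920 * q ^ 2 - 719 * q ^ 3 +
        157 * q ^ 4 - 19 * q ^ 5 + q ^ 6))) * q := by rw [e3]; exact mul_pos hq3 hc3
      have e5 := (mul_pos_iff_of_pos_right hq0).1 e4
      linarith)
    (by
      have e1 : (sq 0).1.eval q = (q - 3) * (1779 - 2824 * q + 1920 * q ^ 2 - 719 * q ^ 3 +
        157 * q ^ 4 - 19 * q ^ 5 + q ^ 6) := by simp [sq]
      have e2 : (sq 0).2.eval q = (q - 3) * (-859 + 1086 * q - 555 * q ^ 2 + 144 * q ^ 3 -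
        19 * q ^ 4 + q ^ 5) := by simp [sq]
      simp only [e1, e2]
      have e3 : -4 * (q - 3) * (q - 4) * ((q - 3) * (1779 - 2824 * q + 1920 * q ^ 2 -
          719 * q ^ 3 + 157 * q ^ 4 - 19 * q ^ 5 + q ^ 6)) ^ 2 +
        (2 * (q - 3) ^ 2 - (q ^ 4 - 12 * q ^ 3 + 58 * q ^ 2 - 135 * q + 126)) *
        (((q - 3) * (1779 - 2824 * q + 1920 * q ^ 2 - 719 * q ^ 3 + 157 * q ^ 4 - 19 * q ^ 5 + q ^ 6)) *
        ((q - 3) * (-859 + 1086 * q - 555 * q ^ 2 + 144 * q ^ 3 - 19 * q ^ 4 + q ^ 5))) -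
        (q - 3) ^ 2 * (q - 4) * ((q - 3) * (-859 + 1086 * q - 555 * q ^ 2 + 144 * q ^ 3 -
          19 * q ^ 4 + q ^ 5)) ^ 2 =
        ((q - 2) * (q - 3) ^ 4 * (q - 4) ^ 2) * (-137822 + 392570 * q - 510019 * q ^ 2 +
          398414 * q ^ 3 - 207435 * q ^ 4 + 75280 * q ^ 5 - 19302 * q ^ 6 + 3456 * q ^ 7 -
          414 * q ^ 8 + 30 * q ^ 9 - q ^ 10) := by ring
      rw [e3]
      apply mul_neg_of_pos_of_neg _ hR
      have : 0 < q - 2 := by linarith
      have : 0 < (q - 4) ^ 2 := by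
        have : q - 4 ≠ 0 := by linarith
        positivity
      positivity)
    (by
      have e3 : (-4 * (q - 3) * (q - 4) + (2 * (q - 3) ^ 2 - (q ^ 4 - 12 * q ^ 3 + 58 * q ^ 2 -
        135 * q + 126)) * t - (q - 3) ^ 2 * (q - 4) * t ^ 2) * q ^ 2 =
        (q - 4) * (-36 + 150 * q - 178 * q ^ 2 + 92 * q ^ 3 - 22 * q ^ 4 + 2 * q ^ 5) := by
        linear_combination ((2 * (q - 3) ^ 2 - (q ^ 4 - 12 * q ^ 3 + 58 * q ^ 2 -
          135 * q + 126)) * q - (q - 3) ^ 2 * (q - 4) * (t * q - 2 * (q - 1))) * htq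
      have e4 : (-4 * (q - 3) * (q - 4) + (2 * (q - 3) ^ 2 - (q ^ 4 - 12 * q ^ 3 + 58 * q ^ 2 -
        135 * q + 126)) * t - (q - 3) ^ 2 * (q - 4) * t ^ 2) * q ^ 2 < 0 := by
        rw [e3]; exact mul_neg_of_neg_of_pos (by linarith) hc5
      by_contra h
      push Not at h
      have := mul_nonneg h (sq_nonneg q)
      linarith)
    (by
      have e3 : (-4 * (q - 3) * (q - 4) + 2 * (q - 3) ^ 2 * t - -(q - 2) *
        (q ^ 4 - 12 * q ^ 3 + 58 * q ^ 2 - 135 * q + 126 + (q - 3) ^ 2 * (q - 4) * t)) * q =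
        180 - 708 * q + 762 * q ^ 2 - 389 * q ^ 3 + 108 * q ^ 4 - 16 * q ^ 5 + q ^ 6 := by
        linear_combination (2 * (q - 3) ^ 2 + (q - 2) * ((q - 3) ^ 2 * (q - 4))) * htq
      have e4 : 0 < (-4 * (q - 3) * (q - 4) + 2 * (q - 3) ^ 2 * t - -(q - 2) *
        (q ^ 4 - 12 * q ^ 3 + 58 * q ^ 2 - 135 * q + 126 + (q - 3) ^ 2 * (q - 4) * t)) * q := by
        rw [e3]; exact hc4
      have e5 := (mul_pos_iff_of_pos_right hq0).1 e4
      linarith)
    (by intro n; simp [sq])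
    (by intro n; simp [sq])
  obtain ⟨n, i1, i2, i3⟩ := it
  simp only [sq_snd, eval_add] at i2 i3
  have i1 : 0 < (sq (n + 1)).1.eval q := i1
  have hR0 : RW0 ((X - 1) * ((sq (n + 1)).1 + bP n) + bP n) ((X - 2) * (sq (n + 1)).1 + bP n) (bP n) :=
    ⟨_, _, itR n, rfl, rfl⟩
  have ew : eval q ((X - 1) * ((sq (n + 1)).1 + bP n) + bP n) =
      (q - 1) * ((sq (n + 1)).1.eval q + (bP n).eval q) + (bP n).eval q := by simp
  have eu : eval q ((X - 2) * (sq (n + 1)).1 + bP n) =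
      (q - 2) * (sq (n + 1)).1.eval q + (bP n).eval q := by simp
  set a := (sq (n + 1)).1.eval q with ha
  set b := (bP n).eval q with hb
  have hw : (q - 1) * (a + b) + b < 0 := by
    have e1 : (b + b) * q < (t * a) * q := mul_lt_mul_of_pos_right i2 hq0
    have e2 : (t * a) * q = -2 * (q - 1) * a := by rw [← htq]; ring
    nlinarith
  have hu : 0 < (q - 2) * a + b := by
    have : 0 < (q - 2) * a := mul_pos (by linarith) i1
    linarith
  have hu2 : -(b + b) < (q - 2) * a := by linarith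
  refine density _ _ _ hR0 3 2 5 3 (by norm_num) q (by linarith) hD ?_ ?_ p1 p2
    (Or.inl ⟨?_, p3, p4⟩) ε hε
  · rw [ew, eu]
    exact mul_neg_of_neg_of_pos hw hu
  · rw [eu, abs_of_pos hu, abs_lt]
    have : 0 < (q - 2) * a := mul_pos (by linarith) i1
    constructor <;> linarith
  · rw [ew, eu, abs_of_pos hu, abs_of_neg hw]
    have e1 : 0 < (q - 1) * (4 - q) := mul_pos (by linarith) (by linarith)
    have e2 : 0 < (q - 1) * (4 - q) * a := mul_pos e1 i1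
    have e3 : -(b + b) * (q + 1) < (q - 2) * a * (q + 1) :=
      mul_lt_mul_of_pos_right hu2 (by linarith)
    have e4 : (4 * q - 6) * a - (q - 2) * a * (q + 1) = (q - 1) * (4 - q) * a := by ring
    have e5 : -((q - 1) * (a + b) + b) - ((q - 2) * a + b) =
      (-(b + b) * (q + 1) - (4 * q - 6) * a) / 2 := by ring
    linarith

end Pool.Agent.H71Beraha
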