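import Pool.Agent.H71Beraha.High

set_option autoImplicit false
set_option linter.all false

namespace Pool.Agent.H71Beraha

open Polynomial

noncomputable def mW (q : ℝ) : ℝ := -(779828) + 2185568 * q - 2847988 * q ^ 2 + 2284820 * q ^ 3 - 1256469 * q ^ 4 + 497840 * q ^ 5 - 145070 * q ^ 6 + 31083 * q ^ 7 - 4796 * q ^ 8 + 507 * q ^ 9 - 33 * q ^ 10 + 1 * q ^ 11
noncomputable def mU (q : ℝ) : ℝ := 2559470 - 7902020 * q + 11399448 * q ^ 2 - 10185853 * q ^ 3 + 6290069 * q ^ 4 - 2831370 * q ^ 5 + 953170 * q ^ 6 - 241837 * q ^ 7 + 45887 * q ^ 8 - 6347 * q ^ 9 + 607 * q ^ 10 - 36 * q ^ 11 + 1 * q ^ 12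
noncomputable def mG (q : ℝ) : ℝ := 599350 - 1526068 * q + 1782174 * q ^ 2 - 1260941 * q ^ 3 + 600033 * q ^ 4 - 200970 * q ^ 5 + 48009 * q ^ 6 - 8076 * q ^ 7 + 915 * q ^ 8 - 63 * q ^ 9 + 2 * q ^ 10

set_option maxHeartbeats 4000000 in
theorem midR : ∃ w u g : ℝ[X], RW0 w u g ∧ ∀ q : ℝ, w.eval q = (q - 3) ^ 2 * ((q - 2) * mW q) ∧
    u.eval q = (q - 3) ^ 2 * mU q ∧ g.eval q = (q - 3) ^ 2 * mG q := by
  refine ⟨_, _, _, ⟨_, _, R.Vaa.T.Hb.Va.T.Va.Va, rfl, rfl⟩, fun q => ⟨?_, ?_, ?_⟩⟩
  · simp only [mW, eval_add, eval_mul, eval_sub, eval_pow, eval_X, eval_one, eval_neg, eval_ofNat]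
    ring
  · simp only [mU, eval_add, eval_mul, eval_sub, eval_pow, eval_X, eval_one, eval_neg, eval_ofNat]
    ring
  · simp only [mG, eval_add, eval_mul, eval_sub, eval_pow, eval_X, eval_one, eval_neg, eval_ofNat]
    ring

theorem mid_case (q : ℝ) (h1 : 368 / 100 ≤ q) (hW : mW q < 0) (hU : 0 < mU q)
    (hG1 : mG q < mU q) (hG2 : -mG q < mU q) (hWU : 0 < mU q + (q - 2) * mW q)
    (ε : ℝ) (hε : 0 < ε) : Concl q ε := by
  obtain ⟨hD, p1, p2, p3, p4⟩ := pairs_hi q h1
  obtain ⟨w, u, g, hR, hev⟩ := midR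
  obtain ⟨ew, eu, eg⟩ := hev q
  have h3 : 0 < (q - 3) ^ 2 := by
    have : 0 < q - 3 := by linarith
    positivity
  have h2 : 0 < q - 2 := by linarith
  have hw : (q - 2) * mW q < 0 := mul_neg_of_pos_of_neg h2 hW
  refine density _ _ _ hR 3 2 5 3 (by norm_num) q (by linarith) hD ?_ ?_ p1 p2
    (Or.inl ⟨?_, p3, p4⟩) ε hε
  · rw [ew, eu]
    exact mul_neg_of_neg_of_pos (mul_neg_of_pos_of_neg h3 hw) (mul_pos h3 hU)
  · rw [eg, eu, abs_mul, abs_mul]
    apply mul_lt_mul_of_pos_left _ (abs_pos.2 h3.ne')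
    rw [abs_of_pos hU, abs_lt]
    constructor <;> linarith
  · rw [ew, eu, abs_mul ((q - 3) ^ 2) ((q - 2) * mW q), abs_mul ((q - 3) ^ 2) (mU q)]
    apply mul_lt_mul_of_pos_left _ (abs_pos.2 h3.ne')
    rw [abs_of_pos hU, abs_of_neg hw]
    linarith

theorem mid11 (q : ℝ) (h1 : 36803 / 10000 ≤ q) (h2 : q ≤ 36803 / 10000 + 28 / 10000) (ε : ℝ) (hε : 0 < ε) : Concl q ε := by
  obtain ⟨x, hx⟩ : ∃ x, q = 36803 / 10000 + x := ⟨q - 36803 / 10000, by ring⟩
  have x0 : 0 ≤ x := by linarith
  have x1 : x ≤ 28 / 10000 := by linarith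
  have v2 : 0 ≤ x ^ 2 := by positivity
  have w2 : x ^ 2 ≤ (28 / 10000) ^ 2 := pow_le_pow_left₀ x0 x1 2
  have v3 : 0 ≤ x ^ 3 := by positivity
  have w3 : x ^ 3 ≤ (28 / 10000) ^ 3 := pow_le_pow_left₀ x0 x1 3
  have v4 : 0 ≤ x ^ 4 := by positivity
  have w4 : x ^ 4 ≤ (28 / 10000) ^ 4 := pow_le_pow_left₀ x0 x1 4
  have v5 : 0 ≤ x ^ 5 := by positivity
  have w5 : x ^ 5 ≤ (28 / 10000) ^ 5 := pow_le_pow_left₀ x0 x1 5
  have v6 : 0 ≤ x ^ 6 := by positivity
  have w6 : x ^ 6 ≤ (28 / 10000) ^ 6 := pow_le_pow_left₀ x0 x1 6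
  have v7 : 0 ≤ x ^ 7 := by positivity
  have w7 : x ^ 7 ≤ (28 / 10000) ^ 7 := pow_le_pow_left₀ x0 x1 7
  have v8 : 0 ≤ x ^ 8 := by positivity
  have w8 : x ^ 8 ≤ (28 / 10000) ^ 8 := pow_le_pow_left₀ x0 x1 8
  have v9 : 0 ≤ x ^ 9 := by positivity
  have w9 : x ^ 9 ≤ (28 / 10000) ^ 9 := pow_le_pow_left₀ x0 x1 9
  have v10 : 0 ≤ x ^ 10 := by positivity
  have w10 : x ^ 10 ≤ (28 / 10000) ^ 10 := pow_le_pow_left₀ x0 x1 10
  have v11 : 0 ≤ x ^ 11 := by positivity
  have w11 : x ^ 11 ≤ (28 / 10000) ^ 11 := pow_le_pow_left₀ x0 x1 11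
  have v12 : 0 ≤ x ^ 12 := by positivity
  have w12 : x ^ 12 ≤ (28 / 10000) ^ 12 := pow_le_pow_left₀ x0 x1 12
  have eW : mW q = -(8626228486390385820097189717590464097357653/100000000000000000000000000000000000000000000) - 6964162168074578528523111003534179666461/10000000000000000000000000000000000000000 * x + 5392425086050129794760360824613561713/200000000000000000000000000000000000 * x ^ 2 + 2913449126902127064708659293358913/20000000000000000000000000000000 * x ^ 3 + 303052862736207094843834945371/1000000000000000000000000000 * x ^ 4 + 177074084155608487519994799/500000000000000000000000 * x ^ 5 + 16441510705590705030133/50000000000000000000 * x ^ 6 + 235095433175917873/1000000000000000 * x ^ 7 + 21684475339691/200000000000 * x ^ 8 + 749088899/20000000 * x ^ 9 + 74833/10000 * x ^ 10 + 1 * x ^ 11 := by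
    rw [hx]; unfold mW; ring
  have eU : mU q = 580182176514315963578929236966096803050575886641/1000000000000000000000000000000000000000000000000 + 324579379074809626349541269601649848657927041/25000000000000000000000000000000000000000000 * x + 394342119356544049492518849406410311000617/5000000000000000000000000000000000000000 * x ^ 2 + 12633340092941560832467796051533561713/50000000000000000000000000000000000 * x ^ 3 + 10412979665391456517517419360076739/20000000000000000000000000000000 * x ^ 4 + 928975102140107799569874836113/1250000000000000000000000000 * x ^ 5 + 185676758401767052169994799/250000000000000000000000 * x ^ 6 + 7155172981707887870057/12500000000000000000 * x ^ 7 + 681363080187753619/2000000000000000 * x ^ 8 + 7035281779897/50000000000 * x ^ 9 + 2177266697/50000000 * x ^ 10 + 20409/2500 * x ^ 11 + 1 * x ^ 12 := by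
    rw [hx]; unfold mU; ring
  have eG : mG q = -(738171626815584873824673833733745941951/5000000000000000000000000000000000000000) - 134456725021091228618873649860140617/50000000000000000000000000000000000 * x + 81911128491924872038564873338249/10000000000000000000000000000000 * x ^ 2 + 10455077145176465383665704261/125000000000000000000000000 * x ^ 3 + 10674361063779147549890709/50000000000000000000000 * x ^ 4 + 3470919184821113644809/12500000000000000000 * x ^ 5 + 111022405858582101/500000000000000 * x ^ 6 + 1352474109381/12500000000 * x ^ 7 + 472846281/10000000 * x ^ 8 + 5303/500 * x ^ 9 + 2 * x ^ 10 := by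
    rw [hx]; unfold mG; ring
  have eV : mU q + (q - 2) * mW q = 217617829628749155321918079070712117411337621641/500000000000000000000000000000000000000000000000 + 146584058862836372070411756812078013699850791/12500000000000000000000000000000000000000000 * x + 308691167537378793790826575622298707413117/2500000000000000000000000000000000000000 * x ^ 2 + 13110058892144101774116393392132202963/25000000000000000000000000000000000 * x ^ 3 + 11755411648703279605773997913786739/10000000000000000000000000000000 * x ^ 4 + 1025817569788519511037143334863/625000000000000000000000000 * x ^ 5 + 206173576336295802120327299/125000000000000000000000 * x ^ 6 + 8101718181337124576307/6250000000000000000 * x ^ 7 + 757959092836208619/1000000000000000 * x ^ 8 + 7801567903647/25000000000 * x ^ 9 + 2339349197/25000000 * x ^ 10 + 21659/1250 * x ^ 11 + 2 * x ^ 12 := by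
    rw [hx]; unfold mU mW; ring
  apply mid_case q (by linarith) _ _ _ _ _ ε hε
  · rw [eW]; norm_num at w2 w3 w4 w5 w6 w7 w8 w9 w10 w11 w12 ⊢; linarith
  · rw [eU]; norm_num at w2 w3 w4 w5 w6 w7 w8 w9 w10 w11 w12 ⊢; linarith
  · rw [eU, eG]; norm_num at w2 w3 w4 w5 w6 w7 w8 w9 w10 w11 w12 ⊢; linarith
  · rw [eU, eG]; norm_num at w2 w3 w4 w5 w6 w7 w8 w9 w10 w11 w12 ⊢; linarith
  · rw [eV]; norm_num at w2 w3 w4 w5 w6 w7 w8 w9 w10 w11 w12 ⊢; linarith

theorem mid12 (q : ℝ) (h1 : 3732 / 1000 ≤ q) (h2 : q ≤ 3732 / 1000 + 1 / 10000) (ε : ℝ) (hε : 0 < ε) : Concl q ε := by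
  obtain ⟨x, hx⟩ : ∃ x, q = 3732 / 1000 + x := ⟨q - 3732 / 1000, by ring⟩
  have x0 : 0 ≤ x := by linarith
  have x1 : x ≤ 1 / 10000 := by linarith
  have v2 : 0 ≤ x ^ 2 := by positivity
  have w2 : x ^ 2 ≤ (1 / 10000) ^ 2 := pow_le_pow_left₀ x0 x1 2
  have v3 : 0 ≤ x ^ 3 := by positivity
  have w3 : x ^ 3 ≤ (1 / 10000) ^ 3 := pow_le_pow_left₀ x0 x1 3
  have v4 : 0 ≤ x ^ 4 := by positivity
  have w4 : x ^ 4 ≤ (1 / 10000) ^ 4 := pow_le_pow_left₀ x0 x1 4
  have v5 : 0 ≤ x ^ 5 := by positivity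
  have w5 : x ^ 5 ≤ (1 / 10000) ^ 5 := pow_le_pow_left₀ x0 x1 5
  have v6 : 0 ≤ x ^ 6 := by positivity
  have w6 : x ^ 6 ≤ (1 / 10000) ^ 6 := pow_le_pow_left₀ x0 x1 6
  have v7 : 0 ≤ x ^ 7 := by positivity
  have w7 : x ^ 7 ≤ (1 / 10000) ^ 7 := pow_le_pow_left₀ x0 x1 7
  have v8 : 0 ≤ x ^ 8 := by positivity
  have w8 : x ^ 8 ≤ (1 / 10000) ^ 8 := pow_le_pow_left₀ x0 x1 8
  have v9 : 0 ≤ x ^ 9 := by positivity
  have w9 : x ^ 9 ≤ (1 / 10000) ^ 9 := pow_le_pow_left₀ x0 x1 9
  have v10 : 0 ≤ x ^ 10 := by positivity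
  have w10 : x ^ 10 ≤ (1 / 10000) ^ 10 := pow_le_pow_left₀ x0 x1 10
  have v11 : 0 ≤ x ^ 11 := by positivity
  have w11 : x ^ 11 ≤ (1 / 10000) ^ 11 := pow_le_pow_left₀ x0 x1 11
  have v12 : 0 ≤ x ^ 12 := by positivity
  have w12 : x ^ 12 ≤ (1 / 10000) ^ 12 := pow_le_pow_left₀ x0 x1 12
  have eW : mW q = -(6620293421021703245844833/238418579101562500000000000) + 3281109147806082647270939/953674316406250000000000 * x + 41917876382887997920333/762939453125000000000 * x ^ 2 + 667662596210178451153/3051757812500000000 * x ^ 3 + 2496198280519821591/6103515625000000 * x ^ 4 + 57400002817393039/122070312500000 * x ^ 5 + 206285080289033/488281250000 * x ^ 6 + 110808357993/390625000 * x ^ 7 + 396165071/3125000 * x ^ 8 + 518379/12500 * x ^ 9 + 2013/250 * x ^ 10 + 1 * x ^ 11 := by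
    rw [hx]; unfold mW; ring
  have eU : mU q = 89475127493892100283757208061/59604644775390625000000000000 + 1399534071836055257223528001/59604644775390625000000000 * x + 60805357886315838773594067/476837158203125000000000 * x ^ 2 + 72937865960180167495333/190734863281250000000 * x ^ 3 + 2275037484415439278459/3051757812500000000 * x ^ 4 + 7693977021248914773/7629394531250000 * x ^ 5 + 59635043370924289/61035156250000 * x ^ 6 + 88818435400657/122070312500 * x ^ 7 + 321546236479/781250000 * x ^ 8 + 128475857/781250 * x ^ 9 + 1511387/31250 * x ^ 10 + 1098/125 * x ^ 11 + 1 * x ^ 12 := by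
    rw [hx]; unfold mU; ring
  have eG : mG q = -(14995237240626949738397/59604644775390625000000) - 397893974093093488069/381469726562500000000 * x + 38140736001900217869/1525878906250000000 * x ^ 2 + 207295857953251387/1525878906250000 * x ^ 3 + 1798802543439687/6103515625000 * x ^ 4 + 86181813435393/244140625000 * x ^ 5 + 51731753991/195312500 * x ^ 6 + 50315847/390625 * x ^ 7 + 163938/3125 * x ^ 8 + 291/25 * x ^ 9 + 2 * x ^ 10 := by
    rw [hx]; unfold mG; ring
  have eV : mU q + (q - 2) * mW q = 21652135110647425694576598843/14901161193847656250000000000 + 3506118127461616555958291879/119209289550781250000000000 * x + 107822013644695137845990009/476837158203125000000000 * x ^ 2 + 311383622191307968625457/381469726562500000000 * x ^ 3 + 2552203895777891613709/1525878906250000000 * x ^ 4 + 34055550353762976467/15258789062500000 * x ^ 5 + 132995764662196453/61035156250000 * x ^ 6 + 400729458473253/244140625000 * x ^ 7 + 44668901763/48828125 * x ^ 8 + 567263303/1562500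 * x ^ 9 + 3243149/31250 * x ^ 10 + 2321/125 * x ^ 11 + 2 * x ^ 12 := by
    rw [hx]; unfold mU mW; ring
  apply mid_case q (by linarith) _ _ _ _ _ ε hε
  · rw [eW]; norm_num at w2 w3 w4 w5 w6 w7 w8 w9 w10 w11 w12 ⊢; linarith
  · rw [eU]; norm_num at w2 w3 w4 w5 w6 w7 w8 w9 w10 w11 w12 ⊢; linarith
  · rw [eU, eG]; norm_num at w2 w3 w4 w5 w6 w7 w8 w9 w10 w11 w12 ⊢; linarith
  · rw [eU, eG]; norm_num at w2 w3 w4 w5 w6 w7 w8 w9 w10 w11 w12 ⊢; linarith
  · rw [eV]; norm_num at w2 w3 w4 w5 w6 w7 w8 w9 w10 w11 w12 ⊢; linarith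

end Pool.Agent.H71Beraha
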