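import Pool.Agent.H71Beraha.Low
import Pool.Agent.H71Beraha.Mid
import Pool.Agent.H71Beraha.High2

set_option autoImplicit false
set_option linter.all false

namespace Pool.Agent.H71Beraha

theorem beraha_eq (n : ℕ) (hn : 0 < n) :
    2 + 2 * Real.cos (2 * Real.pi / (n : ℝ)) = 4 * Real.cos (Real.pi / n) ^ 2 := by
  have e : 2 * Real.pi / (n : ℝ) = 2 * (Real.pi / n) := by ring
  rw [e, Real.cos_two_mul]
  ring

theorem case12 (ε : ℝ) (hε : 0 < ε) : Concl (2 + 2 * Real.cos (2 * Real.pi / 12)) ε := by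
  have e : 2 * Real.pi / 12 = Real.pi / 6 := by ring
  rw [e, Real.cos_pi_div_six]
  have hs : Real.sqrt 3 ^ 2 = 3 := Real.sq_sqrt (by norm_num)
  have hpos := Real.sqrt_nonneg 3
  apply mid12 _ _ _ ε hε <;> nlinarith

theorem case11 (ε : ℝ) (hε : 0 < ε) : Concl (2 + 2 * Real.cos (2 * Real.pi / 11)) ε := by
  have hb := beraha_eq 11 (by norm_num)
  push_cast at hb
  rw [hb]
  have p1 := Real.pi_gt_d4
  have p2 := Real.pi_lt_d4
  set x := Real.pi / 11 with hx
  have x1 : 0.28559 < x := by rw [hx, lt_div_iff₀ (by norm_num)]; norm_num at p1 ⊢; linarith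
  have x2 : x < 0.285601 := by rw [hx, div_lt_iff₀ (by norm_num)]; norm_num at p2 ⊢; linarith
  have c1 : 1 - x ^ 2 / 2 ≤ Real.cos x := Real.one_sub_sq_div_two_le_cos
  have c2 := Real.cos_bound (x := x) (by rw [abs_le]; constructor <;> linarith)
  have c3 : Real.cos x ≤ 1 - x ^ 2 / 2 + x ^ 4 * (5 / 96) := by
    have := (abs_le.1 c2).2
    have e : |x| ^ 4 = x ^ 4 := by rw [abs_of_pos (by linarith)]
    rw [e] at this
    linarith
  have y1 : x ^ 2 ≤ 0.285601 ^ 2 := pow_le_pow_left₀ (by linarith) x2.le 2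
  have y2 : (0.28559 : ℝ) ^ 2 ≤ x ^ 2 := pow_le_pow_left₀ (by norm_num) x1.le 2
  have y4 : x ^ 4 ≤ 0.285601 ^ 4 := pow_le_pow_left₀ (by linarith) x2.le 4
  have d1 : 0.959216 ≤ Real.cos x := by norm_num at y1 ⊢; linarith
  have d2 : Real.cos x ≤ 0.959566 := by norm_num at y2 y4 ⊢; linarith
  apply mid11 _ _ _ ε hε
  · have := pow_le_pow_left₀ (by norm_num) d1 2
    norm_num at this ⊢
    linarith
  · have := pow_le_pow_left₀ (by linarith) d2 2
    norm_num at this ⊢
    linarith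

theorem case_ge13 (n : ℕ) (hn : 13 ≤ n) (ε : ℝ) (hε : 0 < ε) :
    Concl (2 + 2 * Real.cos (2 * Real.pi / (n : ℝ))) ε := by
  rw [beraha_eq n (by omega)]
  have p2 := Real.pi_lt_d4
  have p0 := Real.pi_pos
  have hn' : (13 : ℝ) ≤ n := by exact_mod_cast hn
  set x := Real.pi / (n : ℝ) with hx
  have x0 : 0 < x := by positivity
  have x1 : x ≤ 0.241662 := by
    rw [hx, div_le_iff₀ (by linarith)]
    norm_num at p2 ⊢
    nlinarith
  have c1 : 1 - x ^ 2 / 2 ≤ Real.cos x := Real.one_sub_sq_div_two_le_cos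
  have y1 : x ^ 2 ≤ 0.241662 ^ 2 := pow_le_pow_left₀ x0.le x1 2
  have d1 : 0.970799 ≤ Real.cos x := by norm_num at y1 ⊢; linarith
  apply high_case _ _ _ ε hε
  · have := pow_le_pow_left₀ (by norm_num) d1 2
    norm_num at this ⊢
    linarith
  · have h1 : 0 < Real.sin x := Real.sin_pos_of_pos_of_lt_pi x0 (by
      have : (0.241662 : ℝ) < 3 := by norm_num
      linarith [Real.pi_gt_three])
    have h2 := Real.sin_sq_add_cos_sq x
    nlinarith

theorem main (n : ℕ) (hn : n = 8 ∨ n = 9 ∨ 11 ≤ n) (ε : ℝ) (hε : 0 < ε) :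
    Concl (2 + 2 * Real.cos (2 * Real.pi / (n : ℝ))) ε := by
  rcases hn with rfl | rfl | hn
  · exact_mod_cast case8 ε hε
  · exact_mod_cast case9 ε hε
  · rcases Nat.lt_or_ge n 13 with h | h
    · have : n = 11 ∨ n = 12 := by omega
      rcases this with rfl | rfl
      · exact_mod_cast case11 ε hε
      · exact_mod_cast case12 ε hε
    · exact case_ge13 n h ε hε

end Pool.Agent.H71Beraha
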