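import Pool.Agent.H71Beraha.Fil

set_option autoImplicit false

namespace Pool.Agent.H71Beraha

namespace Fil

/-- left embedding of the vertices -/
def jL {I1 I2 : Type} : Fin 4 ⊕ I1 → Fin 4 ⊕ (Unit ⊕ (I1 ⊕ I2)) :=
  Sum.elim ![Sum.inl 0, Sum.inl 1, Sum.inl 2, Sum.inr (Sum.inl ())] (fun i => Sum.inr (Sum.inr (Sum.inl i)))

/-- right embedding of the vertices -/
def jR {I1 I2 : Type} : Fin 4 ⊕ I2 → Fin 4 ⊕ (Unit ⊕ (I1 ⊕ I2)) :=
  Sum.elim ![Sum.inl 0, Sum.inr (Sum.inl ()), Sum.inl 2, Sum.inl 3] (fun i => Sum.inr (Sum.inr (Sum.inr i)))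

theorem jL_inj {I1 I2 : Type} : Function.Injective (jL : _ → Fin 4 ⊕ (Unit ⊕ (I1 ⊕ I2))) := by
  rintro (i | i) (j | j) h
  · fin_cases i <;> fin_cases j <;> simp [jL] at h ⊢
  · fin_cases i <;> simp [jL] at h
  · fin_cases j <;> simp [jL] at h
  · simpa [jL] using h

theorem jR_inj {I1 I2 : Type} : Function.Injective (jR : _ → Fin 4 ⊕ (Unit ⊕ (I1 ⊕ I2))) := by
  rintro (i | i) (j | j) h
  · fin_cases i <;> fin_cases j <;> simp [jR] at h ⊢
  · fin_cases i <;> simp [jR] at h
  · fin_cases j <;> simp [jR] at h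
  · simpa [jR] using h

theorem jL_eq_jR {I1 I2 : Type} (a : Fin 4 ⊕ I1) (b : Fin 4 ⊕ I2)
    (h : (jL a : Fin 4 ⊕ (Unit ⊕ (I1 ⊕ I2))) = jR b) :
    (a = Sum.inl 0 ∧ b = Sum.inl 0) ∨ (a = Sum.inl 2 ∧ b = Sum.inl 2) ∨
      (a = Sum.inl 3 ∧ b = Sum.inl 1) := by
  rcases a with i | i <;> rcases b with j | j
  · fin_cases i <;> fin_cases j <;> simp [jR, jL] at h ⊢
  · fin_cases i <;> simp [jR, jL] at h
  · fin_cases j <;> simp [jR, jL] at h
  · simp [jR, jL] at h

/-- squeeze into the left half -/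
noncomputable def psiL (p : ℝ × ℝ) : ℝ × ℝ := ((p.1 - (1 - |p.2|)) / 2, p.2)
/-- squeeze into the right half -/
noncomputable def psiR (p : ℝ × ℝ) : ℝ × ℝ := ((p.1 + (1 - |p.2|)) / 2, p.2)

theorem psiL_cont : Continuous psiL := by unfold psiL; fun_prop
theorem psiR_cont : Continuous psiR := by unfold psiR; fun_prop

theorem psiL_inj : Function.Injective psiL := by
  rintro ⟨x, y⟩ ⟨x', y'⟩ h
  simp only [psiL, Prod.mk.injEq] at h
  obtain ⟨h1, h2⟩ := h
  subst h2
  simp only [Prod.mk.injEq, and_true]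
  linarith

theorem psiR_inj : Function.Injective psiR := by
  rintro ⟨x, y⟩ ⟨x', y'⟩ h
  simp only [psiR, Prod.mk.injEq] at h
  obtain ⟨h1, h2⟩ := h
  subst h2
  simp only [Prod.mk.injEq, and_true]
  linarith

theorem psiL_InD {p : ℝ × ℝ} (h : InD p) : InD (psiL p) ∧ (psiL p).1 < 0 := by
  obtain ⟨x, y⟩ := p
  simp only [InD, psiL] at h ⊢
  have h1 := abs_lt.1 (by linarith : |x| < 1 - |y|)
  constructor
  · rw [abs_of_neg (by linarith)]
    linarith
  · linarith

theorem psiR_InD {p : ℝ × ℝ} (h : InD p) : InD (psiR p) ∧ 0 < (psiR p).1 := by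
  obtain ⟨x, y⟩ := p
  simp only [InD, psiR] at h ⊢
  have h1 := abs_lt.1 (by linarith : |x| < 1 - |y|)
  constructor
  · rw [abs_of_pos (by linarith)]
    linarith
  · linarith

/-- the two edges through the middle -/
noncomputable def midArc : Bool → ℝ → ℝ × ℝ
  | true => fun t => (0, 1 - t)
  | false => fun t => (0, -t)

theorem midArc_cont (b : Bool) : Continuous (midArc b) := by
  cases b <;> unfold midArc <;> fun_prop

theorem midArc_inj (b : Bool) : Function.Injective (midArc b) := by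
  intro s t h
  cases b <;> simp [midArc] at h <;> linarith

theorem midArc_fst (b : Bool) (t : ℝ) : (midArc b t).1 = 0 := by
  cases b <;> simp [midArc]

theorem midArc_InD (b : Bool) (t : ℝ) (h0 : 0 < t) (h1 : t < 1) : InD (midArc b t) := by
  cases b <;> simp only [midArc, InD, abs_zero, zero_add, abs_neg]
  · rw [abs_of_pos h0]; exact h1
  · rw [abs_of_pos (by linarith)]; linarith

/-- horizontal composition -/
noncomputable def H (N M : Fil) : Fil where
  I := Unit ⊕ (N.I ⊕ M.I)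
  K := (N.K ⊕ M.K) ⊕ Bool
  fI := inferInstance
  fK := inferInstance
  src := Sum.elim (Sum.elim (fun k => jL (N.src k)) (fun k => jR (M.src k)))
    (fun b => if b then Sum.inl 0 else Sum.inr (Sum.inl ()))
  tgt := Sum.elim (Sum.elim (fun k => jL (N.tgt k)) (fun k => jR (M.tgt k)))
    (fun b => if b then Sum.inr (Sum.inl ()) else Sum.inl 2)
  pos := Sum.elim (fun _ => (0, 0)) (Sum.elim (fun i => psiL (N.pos i)) (fun i => psiR (M.pos i)))
  arc := Sum.elim (Sum.elim (fun k t => psiL (N.arc k t)) (fun k t => psiR (M.arc k t))) midArc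

theorem H_P_jL (N M : Fil) (v : Fin 4 ⊕ N.I) : (H N M).P (jL v) = psiL (N.P v) := by
  rcases v with i | i
  · fin_cases i <;> simp [P, jL, H, psiL, corner]
    norm_num
  · simp [P, jL, H]

theorem H_P_jR (N M : Fil) (v : Fin 4 ⊕ M.I) : (H N M).P (jR v) = psiR (M.P v) := by
  rcases v with i | i
  · fin_cases i <;> simp [P, jR, H, psiR, corner]
  · simp [P, jR, H]

theorem H_simple (N M : Fil) (hN : N.Plane) (hM : M.Plane) (hac : ¬ (N.AC ∧ M.AC)) :
    ∀ k k', s((H N M).src k, (H N M).tgt k) = s((H N M).src k', (H N M).tgt k') → k = k' := by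
  have LR : ∀ (k : N.K) (k' : M.K),
      s((jL (N.src k) : Fin 4 ⊕ (Unit ⊕ (N.I ⊕ M.I))), jL (N.tgt k)) ≠
        s(jR (M.src k'), jR (M.tgt k')) := by
    intro k k' he
    have aux : ∀ a b a' b', s((jL a : Fin 4 ⊕ (Unit ⊕ (N.I ⊕ M.I))), jL b) = s(jR a', jR b') →
        s(a, b) = s(N.src k, N.tgt k) → s(a', b') = s(M.src k', M.tgt k') →
        jL a = (jR a' : Fin 4 ⊕ (Unit ⊕ (N.I ⊕ M.I))) → jL b = (jR b' : Fin 4 ⊕ (Unit ⊕ (N.I ⊕ M.I))) → False := by
      intro a b a' b' _ hab hab' h1 h2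
      have hneN := hN.ne k
      rcases jL_eq_jR _ _ h1 with ⟨rfl, rfl⟩ | ⟨rfl, rfl⟩ | ⟨rfl, rfl⟩ <;>
      rcases jL_eq_jR _ _ h2 with ⟨rfl, rfl⟩ | ⟨rfl, rfl⟩ | ⟨rfl, rfl⟩
      · rcases Sym2.eq_iff.1 hab with ⟨e1, e2⟩ | ⟨e1, e2⟩ <;> exact hneN (by rw [← e1, ← e2])
      · exact hac ⟨⟨k, hab.symm⟩, ⟨k', hab'.symm⟩⟩
      · exact hN.outer k 3 (by rw [← hab, Sym2.eq_swap]; rfl)
      · exact hac ⟨⟨k, by rw [← hab, Sym2.eq_swap]⟩, ⟨k', by rw [← hab', Sym2.eq_swap]⟩⟩
      · rcases Sym2.eq_iff.1 hab with ⟨e1, e2⟩ | ⟨e1, e2⟩ <;> exact hneN (by rw [← e1, ← e2])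
      · exact hN.outer k 2 (by rw [← hab]; rfl)
      · exact hN.outer k 3 (by rw [← hab]; rfl)
      · exact hN.outer k 2 (by rw [← hab, Sym2.eq_swap]; rfl)
      · rcases Sym2.eq_iff.1 hab with ⟨e1, e2⟩ | ⟨e1, e2⟩ <;> exact hneN (by rw [← e1, ← e2])
    rcases Sym2.eq_iff.1 he with ⟨h1, h2⟩ | ⟨h1, h2⟩
    · exact aux _ _ _ _ he rfl rfl h1 h2
    · exact aux (N.src k) (N.tgt k) (M.tgt k') (M.src k') (by rw [he, Sym2.eq_swap]) rfl
        Sym2.eq_swap h1 h2
  have LB : ∀ (k : N.K) (b : Bool),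
      s((jL (N.src k) : Fin 4 ⊕ (Unit ⊕ (N.I ⊕ M.I))), jL (N.tgt k)) ≠
        s(if b then Sum.inl 0 else Sum.inr (Sum.inl ()), if b then Sum.inr (Sum.inl ()) else Sum.inl 2) := by
    intro k b he
    cases b
    · have he' : Sym2.map (jL : _ → Fin 4 ⊕ (Unit ⊕ (N.I ⊕ M.I))) s(N.src k, N.tgt k) =
        Sym2.map jL s(Sum.inl 3, Sum.inl 2) := he
      have := Sym2.map.injective jL_inj he'
      exact hN.outer k 2 (by rw [this, Sym2.eq_swap]; rfl)
    · have he' : Sym2.map (jL : _ → Fin 4 ⊕ (Unit ⊕ (N.I ⊕ M.I))) s(N.src k, N.tgt k) =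
        Sym2.map jL s(Sum.inl 0, Sum.inl 3) := he
      have := Sym2.map.injective jL_inj he'
      exact hN.outer k 3 (by rw [this, Sym2.eq_swap]; rfl)
  have RB : ∀ (k : M.K) (b : Bool),
      s((jR (M.src k) : Fin 4 ⊕ (Unit ⊕ (N.I ⊕ M.I))), jR (M.tgt k)) ≠
        s(if b then Sum.inl 0 else Sum.inr (Sum.inl ()), if b then Sum.inr (Sum.inl ()) else Sum.inl 2) := by
    intro k b he
    cases b
    · have he' : Sym2.map (jR : _ → Fin 4 ⊕ (Unit ⊕ (N.I ⊕ M.I))) s(M.src k, M.tgt k) =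
        Sym2.map jR s(Sum.inl 1, Sum.inl 2) := he
      have := Sym2.map.injective jR_inj he'
      exact hM.outer k 1 (by rw [this]; rfl)
    · have he' : Sym2.map (jR : _ → Fin 4 ⊕ (Unit ⊕ (N.I ⊕ M.I))) s(M.src k, M.tgt k) =
        Sym2.map jR s(Sum.inl 0, Sum.inl 1) := he
      have := Sym2.map.injective jR_inj he'
      exact hM.outer k 0 (by rw [this]; rfl)
  rintro ((k | k) | b) ((k' | k') | b') he
  · have he' : Sym2.map (jL : _ → Fin 4 ⊕ (Unit ⊕ (N.I ⊕ M.I))) s(N.src k, N.tgt k) =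
        Sym2.map jL s(N.src k', N.tgt k') := he
    rw [hN.simple k k' (Sym2.map.injective jL_inj he')]
  · exact absurd he (LR k k')
  · exact absurd he (LB k b')
  · exact absurd he.symm (LR k' k)
  · have he' : Sym2.map (jR : _ → Fin 4 ⊕ (Unit ⊕ (N.I ⊕ M.I))) s(M.src k, M.tgt k) =
        Sym2.map jR s(M.src k', M.tgt k') := he
    rw [hM.simple k k' (Sym2.map.injective jR_inj he')]
  · exact absurd he (RB k b')
  · exact absurd he.symm (LB k' b)
  · exact absurd he.symm (RB k' b)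
  · cases b <;> cases b' <;> simp [H] at he ⊢

theorem H_outer (N M : Fil) (hN : N.Plane) (hM : M.Plane) :
    ∀ k (i : Fin 4), s((H N M).src k, (H N M).tgt k) ≠ s(Sum.inl i, Sum.inl (i + 1)) := by
  have L3 : ∀ a, (jL a : Fin 4 ⊕ (Unit ⊕ (N.I ⊕ M.I))) ≠ Sum.inl 3 := by
    rintro (i | i) h
    · fin_cases i <;> simp [jL] at h
    · simp [jL] at h
  have R1 : ∀ a, (jR a : Fin 4 ⊕ (Unit ⊕ (N.I ⊕ M.I))) ≠ Sum.inl 1 := by
    rintro (i | i) h
    · fin_cases i <;> simp [jR] at h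
    · simp [jR] at h
  rintro ((k | k) | b) i he
  · have he' : s((jL (N.src k) : Fin 4 ⊕ (Unit ⊕ (N.I ⊕ M.I))), jL (N.tgt k)) =
      s(Sum.inl i, Sum.inl (i + 1)) := he
    fin_cases i
    · have he' : Sym2.map (jL : _ → Fin 4 ⊕ (Unit ⊕ (N.I ⊕ M.I))) s(N.src k, N.tgt k) =
        Sym2.map jL s(Sum.inl 0, Sum.inl (0 + 1)) := he'
      exact hN.outer k 0 (Sym2.map.injective jL_inj he')
    · have he' : Sym2.map (jL : _ → Fin 4 ⊕ (Unit ⊕ (N.I ⊕ M.I))) s(N.src k, N.tgt k) =
        Sym2.map jL s(Sum.inl 1, Sum.inl (1 + 1)) := he'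
      exact hN.outer k 1 (Sym2.map.injective jL_inj he')
    · rcases Sym2.eq_iff.1 he' with ⟨h1, h2⟩ | ⟨h1, h2⟩
      · exact L3 _ h2
      · exact L3 _ h1
    · rcases Sym2.eq_iff.1 he' with ⟨h1, h2⟩ | ⟨h1, h2⟩
      · exact L3 _ h1
      · exact L3 _ h2
  · have he' : s((jR (M.src k) : Fin 4 ⊕ (Unit ⊕ (N.I ⊕ M.I))), jR (M.tgt k)) =
      s(Sum.inl i, Sum.inl (i + 1)) := he
    fin_cases i
    · rcases Sym2.eq_iff.1 he' with ⟨h1, h2⟩ | ⟨h1, h2⟩
      · exact R1 _ h2
      · exact R1 _ h1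
    · rcases Sym2.eq_iff.1 he' with ⟨h1, h2⟩ | ⟨h1, h2⟩
      · exact R1 _ h1
      · exact R1 _ h2
    · have he' : Sym2.map (jR : _ → Fin 4 ⊕ (Unit ⊕ (N.I ⊕ M.I))) s(M.src k, M.tgt k) =
        Sym2.map jR s(Sum.inl 2, Sum.inl (2 + 1)) := he'
      exact hM.outer k 2 (Sym2.map.injective jR_inj he')
    · have he' : Sym2.map (jR : _ → Fin 4 ⊕ (Unit ⊕ (N.I ⊕ M.I))) s(M.src k, M.tgt k) =
        Sym2.map jR s(Sum.inl 3, Sum.inl (3 + 1)) := he'
      exact hM.outer k 3 (Sym2.map.injective jR_inj he')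
  · cases b <;> simp [H] at he

theorem H_plane (N M : Fil) (hN : N.Plane) (hM : M.Plane) (hac : ¬ (N.AC ∧ M.AC)) :
    (H N M).Plane where
  posMem := by
    rintro (i | i | i)
    · simp [H, InD]
    · exact (psiL_InD (hN.posMem i)).1
    · exact (psiR_InD (hM.posMem i)).1
  posInj := by
    have LR : ∀ i j, psiL (N.pos i) ≠ psiR (M.pos j) := by
      intro i j he
      have h1 := (psiL_InD (hN.posMem i)).2
      have h2 := (psiR_InD (hM.posMem j)).2
      rw [he] at h1
      linarith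
    have L0 : ∀ i, psiL (N.pos i) ≠ (0, 0) := by
      intro i he
      have h1 := (psiL_InD (hN.posMem i)).2
      rw [he] at h1
      simp at h1
    have R0 : ∀ i, psiR (M.pos i) ≠ (0, 0) := by
      intro i he
      have h1 := (psiR_InD (hM.posMem i)).2
      rw [he] at h1
      simp at h1
    rintro (i | i | i) (j | j | j) h
    · rfl
    · exact absurd h.symm (L0 j)
    · exact absurd h.symm (R0 j)
    · exact absurd h (L0 i)
    · rw [hN.posInj (psiL_inj h)]
    · exact absurd h (LR i j)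
    · exact absurd h (R0 i)
    · exact absurd h.symm (LR j i)
    · rw [hM.posInj (psiR_inj h)]
  cont := by
    rintro ((k | k) | b)
    · exact psiL_cont.comp (hN.cont k)
    · exact psiR_cont.comp (hM.cont k)
    · exact midArc_cont b
  arcInj := by
    rintro ((k | k) | b)
    · intro s hs t ht h
      exact hN.arcInj k hs ht (psiL_inj h)
    · intro s hs t ht h
      exact hM.arcInj k hs ht (psiR_inj h)
    · exact (midArc_inj b).injOn
  zero := by
    rintro ((k | k) | b)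
    · show psiL (N.arc k 0) = (H N M).P (jL (N.src k))
      rw [H_P_jL, hN.zero]
    · show psiR (M.arc k 0) = (H N M).P (jR (M.src k))
      rw [H_P_jR, hM.zero]
    · cases b <;> simp [H, midArc, P, corner]
  one := by
    rintro ((k | k) | b)
    · show psiL (N.arc k 1) = (H N M).P (jL (N.tgt k))
      rw [H_P_jL, hN.one]
    · show psiR (M.arc k 1) = (H N M).P (jR (M.tgt k))
      rw [H_P_jR, hM.one]
    · cases b <;> simp [H, midArc, P, corner]
  arcMem := by
    rintro ((k | k) | b) t h0 h1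
    · exact (psiL_InD (hN.arcMem k t h0 h1)).1
    · exact (psiR_InD (hM.arcMem k t h0 h1)).1
    · exact midArc_InD b t h0 h1
  avoid := by
    rintro ((k | k) | b) t (i | i | i) h0 h1 he
    · have h2 := (psiL_InD (hN.arcMem k t h0 h1)).2
      have he' : psiL (N.arc k t) = (0, 0) := he
      rw [he'] at h2
      simp at h2
    · exact hN.avoid k t i h0 h1 (psiL_inj he)
    · have h2 := (psiL_InD (hN.arcMem k t h0 h1)).2
      have he' : psiL (N.arc k t) = psiR (M.pos i) := he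
      rw [he'] at h2
      have h3 := (psiR_InD (hM.posMem i)).2
      linarith
    · have h2 := (psiR_InD (hM.arcMem k t h0 h1)).2
      have he' : psiR (M.arc k t) = (0, 0) := he
      rw [he'] at h2
      simp at h2
    · have h2 := (psiR_InD (hM.arcMem k t h0 h1)).2
      have he' : psiR (M.arc k t) = psiL (N.pos i) := he
      rw [he'] at h2
      have h3 := (psiL_InD (hN.posMem i)).2
      linarith
    · exact hM.avoid k t i h0 h1 (psiR_inj he)
    · have he' : midArc b t = (0, 0) := he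
      cases b <;> simp [midArc] at he' <;> linarith
    · have he' : midArc b t = psiL (N.pos i) := he
      have h3 := (psiL_InD (hN.posMem i)).2
      rw [← he', midArc_fst] at h3
      linarith
    · have he' : midArc b t = psiR (M.pos i) := he
      have h3 := (psiR_InD (hM.posMem i)).2
      rw [← he', midArc_fst] at h3
      linarith
  disj := by
    have LR : ∀ k k' s t, 0 < s → s < 1 → 0 < t → t < 1 → psiL (N.arc k s) ≠ psiR (M.arc k' t) := by
      intro k k' s t hs0 hs1 ht0 ht1 he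
      have h2 := (psiL_InD (hN.arcMem k s hs0 hs1)).2
      have h3 := (psiR_InD (hM.arcMem k' t ht0 ht1)).2
      rw [he] at h2
      linarith
    have L0 : ∀ k b s t, 0 < s → s < 1 → psiL (N.arc k s) ≠ midArc b t := by
      intro k b s t hs0 hs1 he
      have h2 := (psiL_InD (hN.arcMem k s hs0 hs1)).2
      rw [he, midArc_fst] at h2
      linarith
    have R0 : ∀ k b s t, 0 < s → s < 1 → psiR (M.arc k s) ≠ midArc b t := by
      intro k b s t hs0 hs1 he
      have h2 := (psiR_InD (hM.arcMem k s hs0 hs1)).2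
      rw [he, midArc_fst] at h2
      linarith
    rintro ((k | k) | b) ((k' | k') | b') s t hne hs0 hs1 ht0 ht1 he
    · exact hN.disj k k' s t (fun h => hne (by rw [h])) hs0 hs1 ht0 ht1 (psiL_inj he)
    · exact LR k k' s t hs0 hs1 ht0 ht1 he
    · exact L0 k b' s t hs0 hs1 he
    · exact LR k' k t s ht0 ht1 hs0 hs1 he.symm
    · exact hM.disj k k' s t (fun h => hne (by rw [h])) hs0 hs1 ht0 ht1 (psiR_inj he)
    · exact R0 k b' s t hs0 hs1 he
    · exact L0 k' b t s ht0 ht1 he.symm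
    · exact R0 k' b t s ht0 ht1 he.symm
    · have he' : midArc b s = midArc b' t := he
      cases b <;> cases b' <;> simp [midArc] at he' <;> first | exact hne rfl | linarith
  simple := H_simple N M hN hM hac
  outer := H_outer N M hN hM

theorem H_BD (N M : Fil) : ¬ (H N M).BD := by
  have L3 : ∀ a, (jL a : Fin 4 ⊕ (Unit ⊕ (N.I ⊕ M.I))) ≠ Sum.inl 3 := by
    rintro (i | i) h
    · fin_cases i <;> simp [jL] at h
    · simp [jL] at h
  have R1 : ∀ a, (jR a : Fin 4 ⊕ (Unit ⊕ (N.I ⊕ M.I))) ≠ Sum.inl 1 := by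
    rintro (i | i) h
    · fin_cases i <;> simp [jR] at h
    · simp [jR] at h
  rintro ⟨(k | k) | b, he⟩
  · have he' : s((jL (N.src k) : Fin 4 ⊕ (Unit ⊕ (N.I ⊕ M.I))), jL (N.tgt k)) =
      s(Sum.inl 1, Sum.inl 3) := he
    rcases Sym2.eq_iff.1 he' with ⟨h1, h2⟩ | ⟨h1, h2⟩
    · exact L3 _ h2
    · exact L3 _ h1
  · have he' : s((jR (M.src k) : Fin 4 ⊕ (Unit ⊕ (N.I ⊕ M.I))), jR (M.tgt k)) =
      s(Sum.inl 1, Sum.inl 3) := he
    rcases Sym2.eq_iff.1 he' with ⟨h1, h2⟩ | ⟨h1, h2⟩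
    · exact R1 _ h1
    · exact R1 _ h2
  · cases b <;> simp [H] at he

theorem H_AC (N M : Fil) (h : (H N M).AC) : N.AC ∨ M.AC := by
  obtain ⟨(k | k) | b, he⟩ := h
  · left
    have he' : Sym2.map (jL : _ → Fin 4 ⊕ (Unit ⊕ (N.I ⊕ M.I))) s(N.src k, N.tgt k) =
        Sym2.map jL s(Sum.inl 0, Sum.inl 2) := he
    exact ⟨k, Sym2.map.injective jL_inj he'⟩
  · right
    have he' : Sym2.map (jR : _ → Fin 4 ⊕ (Unit ⊕ (N.I ⊕ M.I))) s(M.src k, M.tgt k) =
        Sym2.map jR s(Sum.inl 0, Sum.inl 2) := he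
    exact ⟨k, Sym2.map.injective jR_inj he'⟩
  · exfalso
    cases b <;> simp [H] at he

/-! ### swapping the two axes -/

/-- reflection in the diagonal, on vertices -/
def rv {I : Type} : Fin 4 ⊕ I → Fin 4 ⊕ I := Sum.map Fin.rev id

theorem rv_rv {I : Type} (v : Fin 4 ⊕ I) : rv (rv v) = v := by
  rcases v with i | i <;> simp [rv]

theorem rv_inj {I : Type} : Function.Injective (rv : Fin 4 ⊕ I → Fin 4 ⊕ I) :=
  Function.LeftInverse.injective rv_rv

/-- reflection in the diagonal -/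
def refl (p : ℝ × ℝ) : ℝ × ℝ := (p.2, p.1)

theorem refl_cont : Continuous refl := by unfold refl; fun_prop

theorem refl_inj : Function.Injective refl := by
  rintro ⟨x, y⟩ ⟨x', y'⟩ h
  simp only [refl, Prod.mk.injEq] at h
  rw [h.1, h.2]

theorem refl_InD {p : ℝ × ℝ} (h : InD p) : InD (refl p) := by
  simp only [InD, refl] at h ⊢
  linarith

/-- the filling with the two axes exchanged -/
def S (N : Fil) : Fil where
  I := N.I
  K := N.K
  fI := inferInstance
  fK := inferInstance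
  src := fun k => rv (N.src k)
  tgt := fun k => rv (N.tgt k)
  pos := fun i => refl (N.pos i)
  arc := fun k t => refl (N.arc k t)

theorem S_P (N : Fil) (v : Fin 4 ⊕ N.I) : (S N).P (rv v) = refl (N.P v) := by
  rcases v with i | i
  · fin_cases i <;> simp [P, rv, S, refl, corner]
  · simp [P, rv, S]

theorem S_plane (N : Fil) (h : N.Plane) : (S N).Plane where
  posMem := fun i => refl_InD (h.posMem i)
  posInj := fun i j hij => h.posInj (refl_inj hij)
  cont := fun k => refl_cont.comp (h.cont k)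
  arcInj := fun k s hs t ht he => h.arcInj k hs ht (refl_inj he)
  zero := fun k => (congrArg refl (h.zero k)).trans (S_P N (N.src k)).symm
  one := fun k => (congrArg refl (h.one k)).trans (S_P N (N.tgt k)).symm
  arcMem := fun k t h0 h1 => refl_InD (h.arcMem k t h0 h1)
  avoid := fun k t i h0 h1 he => h.avoid k t i h0 h1 (refl_inj he)
  disj := fun k k' s t hk hs0 hs1 ht0 ht1 he => h.disj k k' s t hk hs0 hs1 ht0 ht1 (refl_inj he)
  simple := fun k k' he => by
    have he' : Sym2.map rv s(N.src k, N.tgt k) = Sym2.map rv s(N.src k', N.tgt k') := he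
    exact h.simple k k' (Sym2.map.injective rv_inj he')
  outer := fun k i he => by
    have he' : Sym2.map rv s(N.src k, N.tgt k) = Sym2.map rv s(rv (Sum.inl i), rv (Sum.inl (i + 1))) := by
      simp only [Sym2.map_mk, rv_rv]
      exact he
    have he2 := Sym2.map.injective rv_inj he'
    fin_cases i
    · exact h.outer k 2 (he2.trans Sym2.eq_swap)
    · exact h.outer k 1 (he2.trans Sym2.eq_swap)
    · exact h.outer k 0 (he2.trans Sym2.eq_swap)
    · exact h.outer k 3 (he2.trans Sym2.eq_swap)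

theorem S_AC (N : Fil) (h : (S N).AC) : N.BD := by
  obtain ⟨k, he⟩ := h
  have he' : Sym2.map rv s(N.src k, N.tgt k) = Sym2.map rv s(rv (Sum.inl 0), rv (Sum.inl 2)) := by
    simp only [Sym2.map_mk, rv_rv]
    exact he
  exact ⟨k, (Sym2.map.injective rv_inj he').trans Sym2.eq_swap⟩

theorem S_BD (N : Fil) (h : (S N).BD) : N.AC := by
  obtain ⟨k, he⟩ := h
  have he' : Sym2.map rv s(N.src k, N.tgt k) = Sym2.map rv s(rv (Sum.inl 1), rv (Sum.inl 3)) := by
    simp only [Sym2.map_mk, rv_rv]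
    exact he
  exact ⟨k, (Sym2.map.injective rv_inj he').trans Sym2.eq_swap⟩

/-! ### the single edge -/

/-- the filling consisting of a single diagonal -/
noncomputable def E : Fil where
  I := Empty
  K := Unit
  fI := inferInstance
  fK := inferInstance
  src := fun _ => Sum.inl 0
  tgt := fun _ => Sum.inl 2
  pos := fun i => i.elim
  arc := fun _ t => (0, 1 - 2 * t)

theorem E_plane : E.Plane where
  posMem := fun i => i.elim
  posInj := fun i => i.elim
  cont := fun _ => by show Continuous (fun t : ℝ => (((0 : ℝ), 1 - 2 * t) : ℝ × ℝ)); fun_prop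
  arcInj := fun k s hs t ht he => by
    simp only [E, Prod.mk.injEq] at he
    linarith [he.2]
  zero := fun k => by simp [E, P, corner]
  one := fun k => by simp [E, P, corner]; norm_num
  arcMem := fun k t h0 h1 => by
    simp only [E, InD, abs_zero, zero_add]
    rw [abs_lt]
    constructor <;> linarith
  avoid := fun k t i => i.elim
  disj := fun k k' s t hk => absurd (Subsingleton.elim (α := Unit) k k') hk
  simple := fun k k' _ => Subsingleton.elim (α := Unit) k k'
  outer := fun k i he => by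
    fin_cases i <;> simp [E] at he

end Fil

end Pool.Agent.H71Beraha
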