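import Pool.Agent.H71Beraha.Density

set_option autoImplicit false
set_option linter.all false

namespace Pool.Agent.H71Beraha

open Polynomial

theorem pairs_hi (q : ℝ) (h1 : 368 / 100 ≤ q) :
    0 < Dc q ∧ (2 * (q - 3)) ^ 2 < Uf 3 2 q ∧ (2 * (q - 3)) ^ 3 < Uf 5 3 q ∧
      Uf 3 2 q < Wf 3 2 q ∧ Uf 5 3 q < Wf 5 3 q := by
  obtain ⟨t, rfl⟩ : ∃ t, q = 368 / 100 + t := ⟨q - 368 / 100, by ring⟩
  have t0 : 0 ≤ t := by linarith
  have hD : 267 / 100 < Dc (368 / 100 + t) := by
    have : Dc (368 / 100 + t) - 267 / 100 = t ^ 3 + 51 / 25 * t ^ 2 + 2117 / 625 * t + 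
      (Dc (368 / 100) - 267 / 100) := by unfold Dc; ring
    have h2 : 0 < Dc (368 / 100) - 267 / 100 := by unfold Dc; norm_num
    have : 0 < Dc (368 / 100 + t) - 267 / 100 := by rw [this]; positivity
    linarith
  have hD0 : 0 < Dc (368 / 100 + t) := by linarith
  have h3 : 0 < (368 / 100 + t) - 3 := by linarith
  have h68 : 68 / 100 ≤ (368 / 100 + t) - 3 := by linarith
  have hD2 : (267 / 100) ^ 2 < Dc (368 / 100 + t) ^ 2 := pow_lt_pow_left₀ hD (by norm_num) (by norm_num)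
  have hD3 : (267 / 100) ^ 3 < Dc (368 / 100 + t) ^ 3 := pow_lt_pow_left₀ hD (by norm_num) (by norm_num)
  refine ⟨hD0, ?_, ?_, ?_, ?_⟩
  · have e : Uf 3 2 (368 / 100 + t) = ((368 / 100 + t) - 3) ^ 2 *
        (((368 / 100 + t) - 3) * Dc (368 / 100 + t) ^ 2) := by unfold Uf; ring
    have e2 : (2 * ((368 / 100 + t) - 3)) ^ 2 = ((368 / 100 + t) - 3) ^ 2 * 4 := by ring
    rw [e, e2]
    apply mul_lt_mul_of_pos_left _ (by positivity)
    calc (4 : ℝ) < 68 / 100 * (267 / 100) ^ 2 := by norm_num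
      _ ≤ _ := mul_le_mul h68 hD2.le (by positivity) h3.le
  · have e : Uf 5 3 (368 / 100 + t) = ((368 / 100 + t) - 3) ^ 3 *
        (((368 / 100 + t) - 3) ^ 2 * Dc (368 / 100 + t) ^ 3) := by unfold Uf; ring
    have e2 : (2 * ((368 / 100 + t) - 3)) ^ 3 = ((368 / 100 + t) - 3) ^ 3 * 8 := by ring
    rw [e, e2]
    apply mul_lt_mul_of_pos_left _ (by positivity)
    calc (8 : ℝ) < (68 / 100) ^ 2 * (267 / 100) ^ 3 := by norm_num
      _ ≤ _ := mul_le_mul (pow_le_pow_left₀ (by norm_num) h68 2) hD3.le (by positivity) (by positivity)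
  · have e : Uf 3 2 (368 / 100 + t) = ((368 / 100 + t) - 3) ^ 3 *
        (Dc (368 / 100 + t) ^ 2) := by unfold Uf; ring
    have e2 : Wf 3 2 (368 / 100 + t) = ((368 / 100 + t) - 3) ^ 3 *
        (((368 / 100 + t) - 2) ^ 5 * ((368 / 100 + t) - 3)) := by unfold Wf; ring
    rw [e, e2]
    apply mul_lt_mul_of_pos_left _ (by positivity)
    have e3 : ((368 / 100 + t) - 2) ^ 5 * ((368 / 100 + t) - 3) - Dc (368 / 100 + t) ^ 2 =
      3804112/1953125 + 349208/15625 * t + 6211/125 * t ^ 2 + 1186/25 * t ^ 3 + 23 * t ^ 4 +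
        5 * t ^ 5 := by unfold Dc; ring
    have e4 : 0 < ((368 / 100 + t) - 2) ^ 5 * ((368 / 100 + t) - 3) - Dc (368 / 100 + t) ^ 2 := by
      rw [e3]; positivity
    linarith
  · have e : Uf 5 3 (368 / 100 + t) = ((368 / 100 + t) - 3) ^ 5 *
        (Dc (368 / 100 + t) ^ 3) := by unfold Uf; ring
    have e2 : Wf 5 3 (368 / 100 + t) = ((368 / 100 + t) - 3) ^ 5 *
        (((368 / 100 + t) - 2) ^ 8 * ((368 / 100 + t) - 3)) := by unfold Wf; ring
    rw [e, e2]
    apply mul_lt_mul_of_pos_left _ (by positivity)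
    have e3 : ((368 / 100 + t) - 2) ^ 8 * ((368 / 100 + t) - 3) - Dc (368 / 100 + t) ^ 3 =
      3665333380928/152587890625 + 1197826019472/6103515625 * t + 145123082556/244140625 * t ^ 2 +
      9452565811/9765625 * t ^ 3 + 75832527/78125 * t ^ 4 + 9823974/15625 * t ^ 5 +
      163311/625 * t ^ 6 + 1638/25 * t ^ 7 + 8 * t ^ 8 := by unfold Dc; ring
    have e4 : 0 < ((368 / 100 + t) - 2) ^ 8 * ((368 / 100 + t) - 3) - Dc (368 / 100 + t) ^ 3 := by
      rw [e3]; positivity
    linarith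

/-- one step of the iteration -/
theorem iterate_step (A B C D t v x x0 η : ℝ) (hA : 0 < A) (hB : B < 0) (hC : 0 ≤ C) (hD : 0 < D)
    (hM : 0 < A + B * t) (hη1 : C + (D - A) * t - B * t ^ 2 ≤ -η)
    (hη2 : C + (D - A) * x0 - B * x0 ^ 2 ≤ -η) (hη : 0 < η)
    (h2 : v * (A + B * t) < C + D * t) (hx0 : t < x0) (hx00 : x0 ≤ 0) (hx1 : t ≤ x) (hx2 : x ≤ x0) :
    0 < A + B * x ∧ (C + D * x) / (A + B * x) ≤ x - η / (A + B * t) ∧
      v < (C + D * x) / (A + B * x) := by
  have hden : 0 < A + B * x := by nlinarith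
  have hdle : A + B * x ≤ A + B * t := by nlinarith
  have hconv : C + (D - A) * x - B * x ^ 2 ≤ -η := by
    have hlin : (C + (D - A) * x - B * ((t + x0) * x - t * x0)) * (x0 - t) ≤
        -η * (x0 - t) := by
      have e : (C + (D - A) * x - B * ((t + x0) * x - t * x0)) * (x0 - t) =
        (C + (D - A) * t - B * t ^ 2) * (x0 - x) +
          (C + (D - A) * x0 - B * x0 ^ 2) * (x - t) := by ring
      rw [e]
      have e1 := mul_le_mul_of_nonneg_right hη1 (sub_nonneg.2 hx2)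
      have e2 := mul_le_mul_of_nonneg_right hη2 (sub_nonneg.2 hx1)
      linarith
    have hlin2 := le_of_mul_le_mul_right hlin (sub_pos.2 hx0)
    have hq : x ^ 2 ≤ (t + x0) * x - t * x0 := by
      nlinarith [mul_nonneg (sub_nonneg.2 hx1) (sub_nonneg.2 hx2)]
    nlinarith
  refine ⟨hden, ?_, ?_⟩
  · have hne := hden.ne'
    have e : (C + D * x) / (A + B * x) = x + (C + (D - A) * x - B * x ^ 2) / (A + B * x) := by
      rw [div_eq_iff hne, add_mul, div_mul_cancel₀ _ hne]; ring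
    rw [e]
    have e2 : (C + (D - A) * x - B * x ^ 2) / (A + B * x) ≤ -η / (A + B * x) :=
      div_le_div_of_nonneg_right hconv hden.le
    have e3 : η / (A + B * t) ≤ η / (A + B * x) :=
      div_le_div_of_nonneg_left hη.le hden hdle
    have e4 : -η / (A + B * x) = -(η / (A + B * x)) := by ring
    linarith
  · rw [lt_div_iff₀ hden]
    have e1 : (C + D * x) * (A + B * t) - (C + D * t) * (A + B * x) =
      (D * A - B * C) * (x - t) := by ring
    have e2 : 0 ≤ (D * A - B * C) * (x - t) := by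
      apply mul_nonneg _ (sub_nonneg.2 hx1)
      nlinarith [mul_pos hD hA, mul_nonneg hC (neg_nonneg.2 hB.le)]
    have e3 : v * (A + B * t) * (A + B * x) < (C + D * t) * (A + B * x) :=
      mul_lt_mul_of_pos_right h2 hden
    have e5 : v * (A + B * x) * (A + B * t) = v * (A + B * t) * (A + B * x) := by ring
    have e4 : v * (A + B * x) * (A + B * t) < (C + D * x) * (A + B * t) := by
      rw [e5]; linarith
    exact lt_of_mul_lt_mul_right e4 hM.le

/-- The one-dimensional iteration behind the antiprism layers. -/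
theorem iterate (A B C D t v : ℝ) (a s : ℕ → ℝ) (hA : 0 < A) (hB : B < 0) (hC : 0 ≤ C) (hD : 0 < D)
    (hM : 0 < A + B * t) (ha0 : 0 < a 0) (hs0 : s 0 ≤ 0) (hst : t * a 0 < s 0)
    (h0 : C * a 0 ^ 2 + (D - A) * (a 0 * s 0) - B * s 0 ^ 2 < 0)
    (h1 : C + (D - A) * t - B * t ^ 2 < 0)
    (h2 : v * (A + B * t) < C + D * t)
    (ra : ∀ n, a (n + 1) = A * a n + B * s n) (rs : ∀ n, s (n + 1) = C * a n + D * s n) :
    ∃ n, 0 < a (n + 1) ∧ s (n + 1) < t * a (n + 1) ∧ v * a (n + 1) < s (n + 1) := by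
  by_contra hno
  push Not at hno
  -- work with the ratio
  obtain ⟨p, hp⟩ : ∃ p : ℕ → ℝ, ∀ n, p n = s n / a n := ⟨fun n => s n / a n, fun n => rfl⟩
  obtain ⟨η, hηpos, hη1, hη2⟩ : ∃ η : ℝ, 0 < η ∧ C + (D - A) * t - B * t ^ 2 ≤ -η ∧
      C + (D - A) * p 0 - B * p 0 ^ 2 ≤ -η := by
    have hp0 : C + (D - A) * p 0 - B * p 0 ^ 2 < 0 := by
      have : C + (D - A) * p 0 - B * p 0 ^ 2 =
        (C * a 0 ^ 2 + (D - A) * (a 0 * s 0) - B * s 0 ^ 2) / a 0 ^ 2 := by
        rw [hp]; field_simp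
      rw [this]
      exact div_neg_of_neg_of_pos h0 (by positivity)
    refine ⟨min (-(C + (D - A) * t - B * t ^ 2)) (-(C + (D - A) * p 0 - B * p 0 ^ 2)), ?_, ?_, ?_⟩
    · rw [lt_min_iff]; constructor <;> linarith
    · have := min_le_left (-(C + (D - A) * t - B * t ^ 2)) (-(C + (D - A) * p 0 - B * p 0 ^ 2))
      linarith
    · have := min_le_right (-(C + (D - A) * t - B * t ^ 2)) (-(C + (D - A) * p 0 - B * p 0 ^ 2))
      linarith
  have hpt : t < p 0 := by
    rw [hp, lt_div_iff₀ ha0]; exact hst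
  have hpn : p 0 ≤ 0 := by rw [hp]; exact div_nonpos_of_nonpos_of_nonneg hs0 ha0.le
  have claim : ∀ n : ℕ, 0 < a n ∧ t ≤ p n ∧ p n ≤ p 0 - n * (η / (A + B * t)) := by
    intro n
    induction n with
    | zero => exact ⟨ha0, hpt.le, by simp⟩
    | succ n ih =>
      obtain ⟨i1, i2, i3⟩ := ih
      have i4 : p n ≤ p 0 := by
        have : 0 ≤ (n : ℝ) * (η / (A + B * t)) := by positivity
        linarith
      have hsn : s n = p n * a n := by rw [hp]; field_simp
      obtain ⟨hden, hstep, hlow⟩ := iterate_step A B C D t v (p n) (p 0) η hA hB hC hD hM hη1 hη2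
        hηpos h2 hpt hpn i2 i4
      have ha : a (n + 1) = a n * (A + B * p n) := by rw [ra, hsn]; ring
      have hs : s (n + 1) = a n * (C + D * p n) := by rw [rs, hsn]; ring
      have hapos : 0 < a (n + 1) := by rw [ha]; positivity
      have hpn1 : p (n + 1) = (C + D * p n) / (A + B * p n) := by
        rw [hp (n + 1), ha, hs, mul_div_mul_left _ _ i1.ne']
      rw [← hpn1] at hstep hlow
      refine ⟨hapos, ?_, ?_⟩
      · by_contra hlt
        push Not at hlt
        have hlt' : s (n + 1) < t * a (n + 1) := by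
          rw [hp (n + 1), div_lt_iff₀ hapos] at hlt
          exact hlt
        have h4 := hno n hapos hlt'
        have h5 : p (n + 1) ≤ v := by
          rw [hp (n + 1), div_le_iff₀ hapos]
          exact h4
        linarith
      · push_cast
        linarith
  obtain ⟨n, hn⟩ := exists_nat_gt ((p 0 - t) / (η / (A + B * t)))
  have hpos : 0 < η / (A + B * t) := by positivity
  rw [div_lt_iff₀ hpos] at hn
  obtain ⟨_, c2, c3⟩ := claim n
  linarith

end Pool.Agent.H71Beraha
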