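import Pool.Agent.H71Beraha.Ana

set_option autoImplicit false
set_option linter.all false

namespace Pool.Agent.H71Beraha

open Polynomial Filter Topology

/-- the cubic `D` -/
noncomputable def Dc (q : ℝ) : ℝ := q ^ 3 - 9 * q ^ 2 + 29 * q - 32

noncomputable def Lb (q : ℝ) : ℝ := Real.log (q - 2) - Real.log (q - 3)
noncomputable def Lc (q : ℝ) : ℝ := Real.log (q - 2) + 2 * Real.log (q - 3) - Real.log (Dc q)

theorem log_indep (a b A B : ℝ) (ha : 3 ≤ a) (hab : a < b) (hD : ∀ q ∈ Set.Ioo a b, 0 < Dc q)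
    (h : ∀ q ∈ Set.Ioo a b, A * Lb q + B * Lc q = 0) : A = 0 ∧ B = 0 := by
  -- derivative identity
  have key : ∀ q ∈ Set.Ioo a b,
      (A + B) * (q - 3) * Dc q + (2 * B - A) * (q - 2) * Dc q -
        B * (3 * q ^ 2 - 18 * q + 29) * ((q - 2) * (q - 3)) = 0 := by
    intro q hq
    have hq3 : 0 < q - 3 := by linarith [hq.1]
    have hq2 : 0 < q - 2 := by linarith [hq.1]
    have hDq := hD q hq
    have d2 : HasDerivAt (fun x : ℝ => Real.log (x - 2)) (1 / (q - 2)) q := by
      have := ((hasDerivAt_id q).sub_const 2).log hq2.ne'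
      simpa using this
    have d3 : HasDerivAt (fun x : ℝ => Real.log (x - 3)) (1 / (q - 3)) q := by
      have := ((hasDerivAt_id q).sub_const 3).log hq3.ne'
      simpa using this
    have dD0 : HasDerivAt Dc (3 * q ^ 2 - 18 * q + 29) q := by
      unfold Dc
      have h1 : HasDerivAt (fun x : ℝ => x ^ 3 - 9 * x ^ 2 + 29 * x - 32)
          ((3 : ℕ) * q ^ (3 - 1) - 9 * ((2 : ℕ) * q ^ (2 - 1)) + 29 * 1) q :=
        (((hasDerivAt_pow 3 q).sub ((hasDerivAt_pow 2 q).const_mul 9)).add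
          ((hasDerivAt_id q).const_mul 29)).sub_const 32
      convert h1 using 1
      norm_num
      ring
    have dD : HasDerivAt (fun x : ℝ => Real.log (Dc x)) ((3 * q ^ 2 - 18 * q + 29) / Dc q) q :=
      dD0.log hDq.ne'
    have dF : HasDerivAt (fun x : ℝ => A * Lb x + B * Lc x)
        (A * (1 / (q - 2) - 1 / (q - 3)) +
          B * (1 / (q - 2) + 2 * (1 / (q - 3)) - (3 * q ^ 2 - 18 * q + 29) / Dc q)) q :=
      ((d2.sub d3).const_mul A).add (((d2.add (d3.const_mul 2)).sub dD).const_mul B)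
    have dZ : HasDerivAt (fun x : ℝ => A * Lb x + B * Lc x) 0 q := by
      apply (hasDerivAt_const q (0 : ℝ)).congr_of_eventuallyEq
      filter_upwards [Ioo_mem_nhds hq.1 hq.2] with x hx
      exact h x hx
    have := dF.unique dZ
    field_simp at this
    linarith
  -- polynomial identity
  let P : ℝ[X] := C (A + B) * (X - C 3) * (X ^ 3 - C 9 * X ^ 2 + C 29 * X - C 32) +
    C (2 * B - A) * (X - C 2) * (X ^ 3 - C 9 * X ^ 2 + C 29 * X - C 32) -
    C B * (C 3 * X ^ 2 - C 18 * X + C 29) * ((X - C 2) * (X - C 3))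
  have hP : ∀ q : ℝ, P.eval q = (A + B) * (q - 3) * Dc q + (2 * B - A) * (q - 2) * Dc q -
        B * (3 * q ^ 2 - 18 * q + 29) * ((q - 2) * (q - 3)) := by
    intro q
    simp [P, Dc]
  have hP0 : P = 0 := by
    apply Polynomial.eq_zero_of_infinite_isRoot
    apply (Set.Ioo_infinite hab).mono
    intro q hq
    show P.IsRoot q
    rw [IsRoot.def, hP, key q hq]
  have h2 := hP 2
  have h3 := hP 3
  rw [hP0, eval_zero] at h2 h3
  unfold Dc at h2 h3
  norm_num at h2 h3
  constructor <;> linarith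

end Pool.Agent.H71Beraha
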