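import Pool.Agent.H71Beraha.Density

set_option autoImplicit false
set_option linter.all false

namespace Pool.Agent.H71Beraha

open Polynomial

theorem N1_low : RW0 ((X - 2) * (X - 3) * (X ^ 3 - 9 * X ^ 2 + 29 * X - 32))
    ((X - 3) * (X ^ 4 - 12 * X ^ 3 + 58 * X ^ 2 - 133 * X + 119))
    ((X - 3) * (X ^ 2 - 9 * X + 19)) := by
  refine ⟨(X - 3) * (X ^ 3 - 10 * X ^ 2 + 37 * X - 50), -((X - 3) * (X - 5)),
    R.Vaa.Va.Hb.Va.cast (by ring) (by ring) (by ring) id id, by ring, by ring⟩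

theorem pairs_lo (q : ℝ) (h1 : 341 / 100 ≤ q) (h2 : q ≤ 354 / 100) :
    0 < Dc q ∧ (2 * (q - 3)) ^ 1 < Uf 0 1 q ∧ (2 * (q - 3)) ^ 2 < Uf 1 2 q ∧
      Wf 0 1 q < Uf 0 1 q ∧ Wf 1 2 q < Uf 1 2 q := by
  have hD : 188 / 100 < Dc q := by
    unfold Dc
    nlinarith [mul_nonneg (sub_nonneg.2 h1) (sub_nonneg.2 h1),
      mul_nonneg (mul_nonneg (sub_nonneg.2 h1) (sub_nonneg.2 h1)) (sub_nonneg.2 h1)]
  have h3 : 0 < q - 3 := by linarith
  have hD2 : 353 / 100 < Dc q ^ 2 := by nlinarith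
  refine ⟨by linarith, ?_, ?_, ?_, ?_⟩
  · simp only [Uf, pow_one, pow_zero, one_mul]
    linarith
  · simp only [Uf, pow_one]
    nlinarith
  · simp only [Wf, Uf, pow_one, pow_zero, one_mul]
    unfold Dc
    nlinarith
  · simp only [Wf, Uf, pow_one]
    have e : (q - 2) * ((q - 2) * (q - 3) ^ 2) ^ 2 = (q - 3) * ((q - 2) * (q - 3)) ^ 3 := by ring
    rw [e]
    apply mul_lt_mul_of_pos_left _ h3
    have h4 : (q - 2) * (q - 3) ≤ 1 := by nlinarith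
    have h5 : 0 ≤ (q - 2) * (q - 3) := mul_nonneg (by linarith) h3.le
    have h6 : ((q - 2) * (q - 3)) ^ 3 ≤ 1 := pow_le_one₀ h5 h4
    linarith

theorem low_case (q : ℝ) (h1 : 341 / 100 ≤ q) (h2 : q ≤ 354 / 100)
    (hu : q ^ 4 - 12 * q ^ 3 + 58 * q ^ 2 - 133 * q + 119 < 0)
    (hg1 : q ^ 4 - 12 * q ^ 3 + 58 * q ^ 2 - 133 * q + 119 < q ^ 2 - 9 * q + 19)
    (hg2 : q ^ 2 - 9 * q + 19 < -(q ^ 4 - 12 * q ^ 3 + 58 * q ^ 2 - 133 * q + 119))
    (hw : -(q ^ 4 - 12 * q ^ 3 + 58 * q ^ 2 - 133 * q + 119) < (q - 2) * Dc q)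
    (ε : ℝ) (hε : 0 < ε) : Concl q ε := by
  obtain ⟨hD, p1, p2, p3, p4⟩ := pairs_lo q h1 h2
  have h3 : 0 < q - 3 := by linarith
  have h2' : 0 < q - 2 := by linarith
  have ew : eval q ((X - 2) * (X - 3) * (X ^ 3 - 9 * X ^ 2 + 29 * X - 32) : ℝ[X]) =
      (q - 3) * ((q - 2) * Dc q) := by
    simp [Dc]; ring
  have eu : eval q ((X - 3) * (X ^ 4 - 12 * X ^ 3 + 58 * X ^ 2 - 133 * X + 119) : ℝ[X]) =
      (q - 3) * (q ^ 4 - 12 * q ^ 3 + 58 * q ^ 2 - 133 * q + 119) := by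
    simp
  have eg : eval q ((X - 3) * (X ^ 2 - 9 * X + 19) : ℝ[X]) = (q - 3) * (q ^ 2 - 9 * q + 19) := by
    simp
  refine density _ _ _ N1_low 0 1 1 2 (by norm_num) q (by linarith) hD ?_ ?_ p1 p2
    (Or.inr ⟨?_, p3, p4⟩) ε hε
  · rw [ew, eu]
    exact mul_neg_of_pos_of_neg (by positivity) (mul_neg_of_pos_of_neg h3 hu)
  · rw [eg, eu, abs_mul, abs_mul]
    apply mul_lt_mul_of_pos_left _ (abs_pos.2 h3.ne')
    rw [abs_of_neg hu, abs_lt]
    constructor <;> linarith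
  · rw [ew, eu, abs_mul, abs_mul]
    apply mul_lt_mul_of_pos_left _ (abs_pos.2 h3.ne')
    rw [abs_of_neg hu, abs_of_pos (by positivity)]
    exact hw

theorem low8 (q : ℝ) (h1 : 34142 / 10000 ≤ q) (h2 : q ≤ 34143 / 10000) (ε : ℝ) (hε : 0 < ε) :
    Concl q ε := by
  obtain ⟨t, rfl⟩ : ∃ t, q = 34142 / 10000 + t := ⟨q - 34142 / 10000, by ring⟩
  have t0 : 0 ≤ t := by linarith
  have t1 : t ≤ 1 / 10000 := by linarith
  have u2 : t ^ 2 ≤ (1 / 10000) ^ 2 := pow_le_pow_left₀ t0 t1 2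
  have u3 : t ^ 3 ≤ (1 / 10000) ^ 3 := pow_le_pow_left₀ t0 t1 3
  have u4 : t ^ 4 ≤ (1 / 10000) ^ 4 := pow_le_pow_left₀ t0 t1 4
  have v2 : 0 ≤ t ^ 2 := by positivity
  have v3 : 0 ≤ t ^ 3 := by positivity
  have v4 : 0 ≤ t ^ 4 := by positivity
  have eU : (34142 / 10000 + t) ^ 4 - 12 * (34142 / 10000 + t) ^ 3 + 58 * (34142 / 10000 + t) ^ 2 -
      133 * (34142 / 10000 + t) + 119 = -(436575027300319/625000000000000) +
      81182603911/31250000000 * t + 62867123/12500000 * t ^ 2 + 2071/1250 * t ^ 3 + 1 * t ^ 4 := by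
    ring
  have eG : (34142 / 10000 + t) ^ 2 - 9 * (34142 / 10000 + t) + 19 =
      -(1775959/25000000) - 5429/2500 * t + 1 * t ^ 2 := by ring
  have eW : ((34142 / 10000 + t) - 2) * Dc (34142 / 10000 + t) =
      1678885942254681/625000000000000 + 170491507661/31250000000 * t +
        53399623/12500000 * t ^ 2 + 3321/1250 * t ^ 3 + 1 * t ^ 4 := by
    unfold Dc; ring
  apply low_case _ (by linarith) (by linarith) _ _ _ _ ε hε
  · rw [eU]; linarith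
  · rw [eU, eG]; linarith
  · rw [eU, eG]; linarith
  · rw [eU, eW]; linarith

theorem low9 (q : ℝ) (h1 : 3532 / 1000 ≤ q) (h2 : q ≤ 35321 / 10000) (ε : ℝ) (hε : 0 < ε) :
    Concl q ε := by
  obtain ⟨t, rfl⟩ : ∃ t, q = 3532 / 1000 + t := ⟨q - 3532 / 1000, by ring⟩
  have t0 : 0 ≤ t := by linarith
  have t1 : t ≤ 1 / 10000 := by linarith
  have u2 : t ^ 2 ≤ (1 / 10000) ^ 2 := pow_le_pow_left₀ t0 t1 2
  have u3 : t ^ 3 ≤ (1 / 10000) ^ 3 := pow_le_pow_left₀ t0 t1 3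
  have u4 : t ^ 4 ≤ (1 / 10000) ^ 4 := pow_le_pow_left₀ t0 t1 4
  have v2 : 0 ≤ t ^ 2 := by positivity
  have v3 : 0 ≤ t ^ 3 := by positivity
  have v4 : 0 ≤ t ^ 4 := by positivity
  have eU : (3532 / 1000 + t) ^ 4 - 12 * (3532 / 1000 + t) ^ 3 + 58 * (3532 / 1000 + t) ^ 2 -
      133 * (3532 / 1000 + t) + 119 = -(1249224279/3906250000) + 15071387/3906250 * t +
      178067/31250 * t ^ 2 + 266/125 * t ^ 3 + 1 * t ^ 4 := by
    ring
  have eG : (3532 / 1000 + t) ^ 2 - 9 * (3532 / 1000 + t) + 19 =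
      -(19561/62500) - 242/125 * t + 1 * t ^ 2 := by ring
  have eW : ((3532 / 1000 + t) - 2) * Dc (3532 / 1000 + t) =
      13252809971/3906250000 + 51401149/7812500 * t + 82721/15625 * t ^ 2 +
        391/125 * t ^ 3 + 1 * t ^ 4 := by
    unfold Dc; ring
  apply low_case _ (by linarith) (by linarith) _ _ _ _ ε hε
  · rw [eU]; linarith
  · rw [eU, eG]; linarith
  · rw [eU, eG]; linarith
  · rw [eU, eW]; linarith

theorem case8 (ε : ℝ) (hε : 0 < ε) : Concl (2 + 2 * Real.cos (2 * Real.pi / 8)) ε := by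
  have e : 2 * Real.pi / 8 = Real.pi / 4 := by ring
  rw [e, Real.cos_pi_div_four]
  have hs : Real.sqrt 2 ^ 2 = 2 := Real.sq_sqrt (by norm_num)
  have hpos := Real.sqrt_nonneg 2
  apply low8 _ _ _ ε hε <;> nlinarith

theorem case9 (ε : ℝ) (hε : 0 < ε) : Concl (2 + 2 * Real.cos (2 * Real.pi / 9)) ε := by
  set c := Real.cos (2 * Real.pi / 9) with hc
  have h3 : 4 * c ^ 3 - 3 * c = -(1 / 2) := by
    rw [hc, ← Real.cos_three_mul]
    have e : 3 * (2 * Real.pi / 9) = Real.pi - Real.pi / 3 := by ring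
    rw [e, Real.cos_pi_sub, Real.cos_pi_div_three]
  have h1 : 1 / 2 < c := by
    rw [← Real.cos_pi_div_three]
    apply Real.cos_lt_cos_of_nonneg_of_le_pi_div_two
    · positivity
    · linarith [Real.pi_pos]
    · linarith [Real.pi_pos]
  have h2 : c ≤ 1 := Real.cos_le_one _
  apply low9 _ _ _ ε hε
  · by_contra h
    push Not at h
    have h4 : c < 766 / 1000 := by linarith
    nlinarith [mul_pos (sub_pos.2 h1) (sub_pos.2 h4), sq_nonneg (c - 1/2), sq_nonneg c]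
  · by_contra h
    push Not at h
    have h4 : 76605 / 100000 < c := by linarith
    nlinarith [mul_pos (sub_pos.2 h1) (sub_pos.2 h4), sq_nonneg c, sq_nonneg (c + 1)]

end Pool.Agent.H71Beraha
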