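import Mathlib

set_option autoImplicit false

namespace Pool.Agent.H71Beraha

/-- A finite graph with a drawing in the plane, edges indexed by `K`. -/
structure PG where
  V : Type
  K : Type
  fV : Fintype V
  fK : Fintype K
  src : K → V
  tgt : K → V
  P : V → ℝ × ℝ
  arc : K → ℝ → ℝ × ℝ

attribute [instance] PG.fV PG.fK

structure PG.Plane (G : PG) : Prop where
  inj : Function.Injective G.P
  cont : ∀ k, Continuous (G.arc k)
  arcInj : ∀ k, Set.InjOn (G.arc k) (Set.Icc 0 1)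
  zero : ∀ k, G.arc k 0 = G.P (G.src k)
  one : ∀ k, G.arc k 1 = G.P (G.tgt k)
  avoid : ∀ k t v, 0 < t → t < 1 → G.arc k t ≠ G.P v
  disj : ∀ k k' s t, k ≠ k' → 0 < s → s < 1 → 0 < t → t < 1 → G.arc k s ≠ G.arc k' t
  simple : ∀ k k', s(G.src k, G.tgt k) = s(G.src k', G.tgt k') → k = k'

namespace PG

variable (G : PG)

theorem Plane.ne {G : PG} (h : G.Plane) (k : G.K) : G.src k ≠ G.tgt k := by
  intro he
  have h0 : G.arc k 0 = G.arc k 1 := by rw [h.zero, h.one, he]
  have := h.arcInj k (by simp) (by simp) h0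
  norm_num at this

/-- the underlying simple graph -/
def graph : SimpleGraph G.V where
  Adj u v := u ≠ v ∧ ∃ k, s(G.src k, G.tgt k) = s(u, v)
  symm := ⟨fun u v h => ⟨h.1.symm, by obtain ⟨k, hk⟩ := h.2; exact ⟨k, by rw [hk, Sym2.eq_swap]⟩⟩⟩
  loopless := ⟨fun u h => h.1 rfl⟩

theorem card_edges (h : G.Plane) : Nat.card G.graph.edgeSet = Fintype.card G.K := by
  rw [← Nat.card_eq_fintype_card]
  symm
  apply Nat.card_congr
  refine Equiv.ofBijective (fun k => ⟨s(G.src k, G.tgt k), ?_⟩) ⟨?_, ?_⟩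
  · rw [SimpleGraph.mem_edgeSet]
    exact ⟨h.ne k, k, rfl⟩
  · intro k k' hk
    exact h.simple k k' (congrArg Subtype.val hk)
  · rintro ⟨e, he⟩
    induction e using Sym2.inductionOn with
    | hf u v =>
      rw [SimpleGraph.mem_edgeSet] at he
      obtain ⟨_, k, hk⟩ := he
      exact ⟨k, Subtype.ext hk⟩

theorem card_coloring (h : G.Plane) (q : ℕ) :
    Nat.card (G.graph.Coloring (Fin q)) =
      Nat.card {f : G.V → Fin q // ∀ k, f (G.src k) ≠ f (G.tgt k)} := by
  apply Nat.card_congr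
  refine ⟨fun C => ⟨fun v => C v, fun k => C.valid ⟨h.ne k, k, rfl⟩⟩,
    fun f => SimpleGraph.Coloring.mk f.1 ?_, ?_, ?_⟩
  · intro u v huv
    obtain ⟨_, k, hk⟩ := huv
    rcases Sym2.eq_iff.1 hk with ⟨h1, h2⟩ | ⟨h1, h2⟩
    · rw [← h1, ← h2]; exact f.2 k
    · rw [← h1, ← h2]; exact (f.2 k).symm
  · intro C; rfl
  · intro f; rfl

/-- identification of `ℝ × ℝ` with `ℂ` -/
def toC (p : ℝ × ℝ) : ℂ := ⟨p.1, p.2⟩

theorem toC_inj : Function.Injective toC := by
  intro p p' h
  have h1 := congrArg Complex.re h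
  have h2 := congrArg Complex.im h
  exact Prod.ext h1 h2

theorem toC_cont : Continuous toC := Complex.equivRealProdCLM.symm.continuous

theorem drawing (h : G.Plane) :
    ∃ (pos : G.V → ℂ) (arc : ∀ u v : G.V, Path (pos u) (pos v)),
          Function.Injective pos ∧
          (∀ u v : G.V, G.graph.Adj u v → Function.Injective ⇑(arc u v)) ∧
          (∀ u v : G.V, G.graph.Adj u v → ∀ t : unitInterval, ∀ w : G.V,
              arc u v t = pos w → t = 0 ∨ t = 1) ∧
          (∀ u v x y : G.V, G.graph.Adj u v → G.graph.Adj x y → s(u, v) ≠ s(x, y) →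
              ∀ a b : unitInterval, arc u v a = arc x y b → a = 0 ∨ a = 1) := by
  have key : ∀ u v : G.V, ∃ γ : Path (toC (G.P u)) (toC (G.P v)), G.graph.Adj u v →
      ∃ k, s(G.src k, G.tgt k) = s(u, v) ∧
        ((∀ t : unitInterval, γ t = toC (G.arc k t)) ∨
         (∀ t : unitInterval, γ t = toC (G.arc k (1 - t)))) := by
    intro u v
    by_cases huv : G.graph.Adj u v
    · obtain ⟨_, k, hk⟩ := huv
      rcases Sym2.eq_iff.1 hk with ⟨h1, h2⟩ | ⟨h1, h2⟩
      · refine ⟨⟨⟨fun t : unitInterval => toC (G.arc k t), ?_⟩, ?_, ?_⟩, fun _ => ⟨k, hk, Or.inl fun t => rfl⟩⟩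
        · exact toC_cont.comp ((h.cont k).comp continuous_subtype_val)
        · simp [h.zero, h1]
        · simp [h.one, h2]
      · refine ⟨⟨⟨fun t : unitInterval => toC (G.arc k (1 - t)), ?_⟩, ?_, ?_⟩, fun _ => ⟨k, hk, Or.inr fun t => rfl⟩⟩
        · exact toC_cont.comp ((h.cont k).comp (continuous_const.sub continuous_subtype_val))
        · simp [h.one, h2]
        · simp [h.zero, h1]
    · exact ⟨(PathConnectedSpace.somePath _ _), fun h' => absurd h' huv⟩
  choose γ hγ using key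
  have hP : Function.Injective fun v => toC (G.P v) := fun v w hvw => h.inj (toC_inj hvw)
  have bd : ∀ (t : unitInterval), (t = 0 ∨ t = 1) ∨ (0 < (t : ℝ) ∧ (t : ℝ) < 1) := by
    intro t
    rcases eq_or_lt_of_le t.2.1 with h0 | h0
    · left; left; exact Subtype.ext h0.symm
    · rcases eq_or_lt_of_le t.2.2 with h1 | h1
      · left; right; exact Subtype.ext h1
      · right; exact ⟨h0, h1⟩
  refine ⟨fun v => toC (G.P v), γ, hP, ?_, ?_, ?_⟩
  · intro u v huv a b hab
    obtain ⟨k, hk, h1 | h1⟩ := hγ u v huv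
    · rw [h1, h1] at hab
      exact Subtype.ext (h.arcInj k a.2 b.2 (toC_inj hab))
    · rw [h1, h1] at hab
      have ha : (1 - (a : ℝ)) ∈ Set.Icc (0:ℝ) 1 := ⟨by linarith [a.2.2], by linarith [a.2.1]⟩
      have hb : (1 - (b : ℝ)) ∈ Set.Icc (0:ℝ) 1 := ⟨by linarith [b.2.2], by linarith [b.2.1]⟩
      have := h.arcInj k ha hb (toC_inj hab)
      exact Subtype.ext (by linarith)
  · intro u v huv t w htw
    rcases bd t with h0 | ⟨h0, h1⟩
    · exact h0
    · exfalso
      obtain ⟨k, hk, h2 | h2⟩ := hγ u v huv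
      · rw [h2] at htw
        exact h.avoid k t w h0 h1 (toC_inj htw)
      · rw [h2] at htw
        exact h.avoid k (1 - t) w (by linarith) (by linarith) (toC_inj htw)
  · intro u v x y huv hxy hne a b hab
    rcases bd a with h0 | ⟨h0, h1⟩
    · exact h0
    · exfalso
      obtain ⟨k, hk, hk2⟩ := hγ u v huv
      obtain ⟨k', hk', hk'2⟩ := hγ x y hxy
      have hkk : k ≠ k' := by
        rintro rfl
        exact hne (hk.symm.trans hk')
      obtain ⟨a', ha0, ha1, ha⟩ : ∃ a' : ℝ, 0 < a' ∧ a' < 1 ∧ γ u v a = toC (G.arc k a') := by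
        rcases hk2 with h2 | h2
        · exact ⟨a, h0, h1, h2 a⟩
        · exact ⟨1 - a, by linarith, by linarith, h2 a⟩
      have hb : (∃ w, γ x y b = toC (G.P w)) ∨
          ∃ b' : ℝ, 0 < b' ∧ b' < 1 ∧ γ x y b = toC (G.arc k' b') := by
        rcases bd b with (rfl | rfl) | ⟨hb0, hb1⟩
        · left; exact ⟨x, by simp⟩
        · left; exact ⟨y, by simp⟩
        · right
          rcases hk'2 with h2 | h2
          · exact ⟨b, hb0, hb1, h2 b⟩
          · exact ⟨1 - b, by linarith, by linarith, h2 b⟩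
      rcases hb with ⟨w, hw⟩ | ⟨b', hb0, hb1, hb⟩
      · rw [ha, hw] at hab
        exact h.avoid k a' w ha0 ha1 (toC_inj hab)
      · rw [ha, hb] at hab
        exact h.disj k k' a' b' hkk ha0 ha1 hb0 hb1 (toC_inj hab)

end PG

end Pool.Agent.H71Beraha
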