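import Pool.Agent.H71Beraha.Close

set_option autoImplicit false
set_option linter.all false

namespace Pool.Agent.H71Beraha

open Polynomial

/-- realisable triples with flags recording whether a diagonal may be present -/
def R (α β γ : ℝ[X]) (x y : Prop) : Prop :=
  ∃ N : Fil, N.Plane ∧ N.Tri ∧ N.Cnt α β γ ∧ (N.AC → x) ∧ (N.BD → y)

theorem R.E : R 1 (-1) 0 True False := by
  refine ⟨Fil.E, Fil.E_plane, Fil.E_tri, Fil.E_cnt, fun _ => trivial, ?_⟩
  rintro ⟨k, hk⟩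
  simp [Fil.E] at hk

theorem R.S {α β γ : ℝ[X]} {x y : Prop} (h : R α β γ x y) : R α γ β y x := by
  obtain ⟨N, h1, h2, h3, h4, h5⟩ := h
  exact ⟨N.S, Fil.S_plane N h1, Fil.S_tri N h2, Fil.S_cnt N _ _ _ h3, fun h => h5 (Fil.S_AC N h),
    fun h => h4 (Fil.S_BD N h)⟩

theorem R.H {α1 β1 γ1 α2 β2 γ2 : ℝ[X]} {x1 y1 x2 y2 : Prop} (h : R α1 β1 γ1 x1 y1)
    (h' : R α2 β2 γ2 x2 y2) (hx : ¬ (x1 ∧ x2)) :
    R ((X - 2) * (α1 * α2) + γ1 * α2 + α1 * γ2)
      (α1 * α2 + (X - 1) * (α1 * β2 + β1 * α2 + β1 * β2) + γ1 * β2 + γ2 * β1)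
      (γ1 * γ2) (x1 ∨ x2) False := by
  obtain ⟨N, h1, h2, h3, h4, h5⟩ := h
  obtain ⟨M, g1, g2, g3, g4, g5⟩ := h'
  refine ⟨N.H M, Fil.H_plane N M h1 g1 (fun h => hx ⟨h4 h.1, g4 h.2⟩), Fil.H_tri N M h2 g2,
    Fil.H_cnt N M _ _ _ _ _ _ h3 g3, ?_, ?_⟩
  · intro h
    rcases Fil.H_AC N M h with h | h
    · exact Or.inl (h4 h)
    · exact Or.inr (g4 h)
  · exact fun h => Fil.H_BD N M h

theorem R.T {α β γ : ℝ[X]} {x y : Prop} (h : R α β γ x y) :
    R ((X ^ 4 - 12 * X ^ 3 + 58 * X ^ 2 - 135 * X + 126) * α + (X - 3) ^ 2 * (X - 4) * (β + γ))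
      (-2 * (X - 3) * (X - 4) * α + (X - 3) ^ 2 * (β + γ))
      (-2 * (X - 3) * (X - 4) * α + (X - 3) ^ 2 * (β + γ)) False False := by
  obtain ⟨N, h1, h2, h3, h4, h5⟩ := h
  exact ⟨N.T, Fil.T_plane N h1, Fil.T_tri N h2, Fil.T_cnt N _ _ _ h3, fun h => Fil.T_AC N h,
    fun h => Fil.T_BD N h⟩

theorem R.cast {α β γ α' β' γ' : ℝ[X]} {x y x' y' : Prop} (h : R α β γ x y) (h1 : α = α')
    (h2 : β = β') (h3 : γ = γ') (h4 : x → x') (h5 : y → y') : R α' β' γ' x' y' := by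
  subst h1; subst h2; subst h3
  obtain ⟨N, g1, g2, g3, g4, g5⟩ := h
  exact ⟨N, g1, g2, g3, fun h => h4 (g4 h), fun h => h5 (g5 h)⟩

/-- the other diagonal -/
theorem R.b : R 1 0 (-1) False True := R.E.S

/-- compose with the other diagonal -/
theorem R.Hb {α β γ : ℝ[X]} {x y : Prop} (h : R α β γ x y) :
    R ((X - 3) * α + γ) (α + (X - 2) * β) (-γ) x False := by
  refine (R.b.H h (fun h => h.1)).cast ?_ ?_ ?_ (fun h => h.resolve_left id) id
  · ring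
  · ring
  · ring

/-- compose vertically with a diagonal -/
theorem R.Va {α β γ : ℝ[X]} {x y : Prop} (h : R α β γ x y) :
    R ((X - 3) * α + β) (-β) (α + (X - 2) * γ) False y := by
  exact h.S.Hb.S

theorem R.Vaa : R (X - 4) 1 1 False False := by
  refine (R.b.H R.b (fun h => h.1)).cast ?_ ?_ ?_ (fun h => h.elim id id) id
  · ring
  · ring
  · ring

/-- realisable `(w,u,γ)` triples, without the first diagonal -/
def RW (w u g : ℝ[X]) : Prop :=
  ∃ α β : ℝ[X], R α β g False True ∧ w = (X - 1) * (α + β) + g ∧ u = (X - 2) * α + g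

/-- realisable `(w,u,γ)` triples, without any diagonal -/
def RW0 (w u g : ℝ[X]) : Prop :=
  ∃ α β : ℝ[X], R α β g False False ∧ w = (X - 1) * (α + β) + g ∧ u = (X - 2) * α + g

theorem RW0.toRW {w u g : ℝ[X]} (h : RW0 w u g) : RW w u g := by
  obtain ⟨α, β, h1, h2, h3⟩ := h
  exact ⟨α, β, h1.cast rfl rfl rfl id (fun _ => trivial), h2, h3⟩

theorem RW.mul {w1 u1 g1 w2 u2 g2 : ℝ[X]} (h : RW w1 u1 g1) (h' : RW w2 u2 g2) :
    RW0 (w1 * w2) (u1 * u2) (g1 * g2) := by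
  obtain ⟨α, β, h1, h2, h3⟩ := h
  obtain ⟨α', β', h1', h2', h3'⟩ := h'
  refine ⟨_, _, (h1.H h1' (fun h => h.1)).cast rfl rfl rfl (fun h => h.elim id id) id, ?_, ?_⟩
  · rw [h2, h2']; ring
  · rw [h3, h3']; ring

theorem R.toRW {α β γ : ℝ[X]} {y : Prop} (h : R α β γ False y) :
    RW ((X - 1) * (α + β) + γ) ((X - 2) * α + γ) γ :=
  ⟨α, β, h.cast rfl rfl rfl id (fun _ => trivial), rfl, rfl⟩

/-- powers, with an extra factor to allow exponent zero -/
theorem RW.pow_mul {w u g w' u' g' : ℝ[X]} (h : RW w u g) (h' : RW0 w' u' g') (k : ℕ) :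
    RW0 (w ^ k * w') (u ^ k * u') (g ^ k * g') := by
  induction k with
  | zero => simpa using h'
  | succ k ih =>
    have := h.mul ih.toRW
    have e1 : w ^ (k + 1) * w' = w * (w ^ k * w') := by ring
    have e2 : u ^ (k + 1) * u' = u * (u ^ k * u') := by ring
    have e3 : g ^ (k + 1) * g' = g * (g ^ k * g') := by ring
    rw [e1, e2, e3]
    exact this

theorem RW0.close {w u g : ℝ[X]} (h : RW0 w u g) :
    ∃ (V : Type) (_ : Fintype V) (G : SimpleGraph V),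
        3 ≤ Nat.card V ∧
        Nat.card G.edgeSet + 6 = 3 * Nat.card V ∧
        (∃ (pos : V → ℂ) (arc : ∀ u v : V, Path (pos u) (pos v)),
          Function.Injective pos ∧
          (∀ u v : V, G.Adj u v → Function.Injective ⇑(arc u v)) ∧
          (∀ u v : V, G.Adj u v → ∀ t : unitInterval, ∀ w : V,
              arc u v t = pos w → t = 0 ∨ t = 1) ∧
          (∀ u v x y : V, G.Adj u v → G.Adj x y → s(u, v) ≠ s(x, y) →
              ∀ a b : unitInterval, arc u v a = arc x y b → a = 0 ∨ a = 1)) ∧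
        (∀ k : ℕ, (X * ((X - 1) * (X - 3) * u + (X - 2) * w - (X ^ 2 - 3 * X + 1) * g)).eval (k : ℝ) =
          (Nat.card (G.Coloring (Fin k)) : ℝ)) := by
  obtain ⟨α, β, ⟨N, h1, h2, h3, h4, h5⟩, hw, hu⟩ := h
  have e : (X * ((X - 1) * (X - 3) * u + (X - 2) * w - (X ^ 2 - 3 * X + 1) * g)) =
      X * (X - 1) * (X - 2) * ((X - 2) * α + β) := by
    rw [hw, hu]; ring
  rw [e]
  exact Fil.close_main N h1 h2 h5 α β g h3

end Pool.Agent.H71Beraha
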