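import Pool.Agent.H71Beraha.Hcomp

set_option autoImplicit false

namespace Pool.Agent.H71Beraha

namespace Fil

/-- the inner square -/
noncomputable def psiT (p : ℝ × ℝ) : ℝ × ℝ := ((p.1 - p.2) / 4, (p.1 + p.2) / 4)

theorem psiT_cont : Continuous psiT := by unfold psiT; fun_prop

theorem psiT_inj : Function.Injective psiT := by
  rintro ⟨x, y⟩ ⟨x', y'⟩ h
  simp only [psiT, Prod.mk.injEq] at h
  obtain ⟨h1, h2⟩ := h
  simp only [Prod.mk.injEq]
  constructor <;> linarith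

/-- the open inner square -/
def InQ (p : ℝ × ℝ) : Prop := |p.1| < 1 / 4 ∧ |p.2| < 1 / 4

theorem InQ_InD {p : ℝ × ℝ} (h : InQ p) : InD p := by
  simp only [InQ, InD] at h ⊢
  linarith [h.1, h.2]

theorem psiT_InQ {p : ℝ × ℝ} (h : InD p) : InQ (psiT p) := by
  obtain ⟨x, y⟩ := p
  simp only [InD, InQ, psiT] at h ⊢
  have h1 := le_abs_self x
  have h2 := le_abs_self y
  have h3 := neg_abs_le x
  have h4 := neg_abs_le y
  constructor <;> rw [abs_lt] <;> constructor <;> linarith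

/-- arcs of the antiprism layer -/
noncomputable def tArc : Fin 12 → ℝ → ℝ × ℝ :=
  ![fun t => (-1/4, 1/4 - t/2), fun t => (-1/4 + t/2, -1/4), fun t => (1/4, -1/4 + t/2),
    fun t => (1/4 - t/2, 1/4),
    fun t => (-t/4, 1 - 3*t/4), fun t => (-1 + 3*t/4, -t/4), fun t => (t/4, -1 + 3*t/4),
    fun t => (1 - 3*t/4, t/4),
    fun t => (-1 + 3*t/4, t/4), fun t => (-t/4, -1 + 3*t/4), fun t => (1 - 3*t/4, -t/4),
    fun t => (t/4, 1 - 3*t/4)]

/-- sources, outer vertices on the left summand, inner on the right -/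
def tSrc : Fin 12 → Fin 4 ⊕ Fin 4 :=
  ![Sum.inr 0, Sum.inr 1, Sum.inr 2, Sum.inr 3, Sum.inl 0, Sum.inl 1, Sum.inl 2, Sum.inl 3,
    Sum.inl 1, Sum.inl 2, Sum.inl 3, Sum.inl 0]
def tTgt : Fin 12 → Fin 4 ⊕ Fin 4 :=
  ![Sum.inr 1, Sum.inr 2, Sum.inr 3, Sum.inr 0, Sum.inr 0, Sum.inr 1, Sum.inr 2, Sum.inr 3,
    Sum.inr 0, Sum.inr 1, Sum.inr 2, Sum.inr 3]

theorem tArc_cont (k : Fin 12) : Continuous (tArc k) := by
  fin_cases k
  · show Continuous (fun t : ℝ => ((-1/4, 1/4 - t/2) : ℝ × ℝ)); fun_prop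
  · show Continuous (fun t : ℝ => ((-1/4 + t/2, -1/4) : ℝ × ℝ)); fun_prop
  · show Continuous (fun t : ℝ => ((1/4, -1/4 + t/2) : ℝ × ℝ)); fun_prop
  · show Continuous (fun t : ℝ => ((1/4 - t/2, 1/4) : ℝ × ℝ)); fun_prop
  · show Continuous (fun t : ℝ => ((-t/4, 1 - 3*t/4) : ℝ × ℝ)); fun_prop
  · show Continuous (fun t : ℝ => ((-1 + 3*t/4, -t/4) : ℝ × ℝ)); fun_prop
  · show Continuous (fun t : ℝ => ((t/4, -1 + 3*t/4) : ℝ × ℝ)); fun_prop
  · show Continuous (fun t : ℝ => ((1 - 3*t/4, t/4) : ℝ × ℝ)); fun_prop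
  · show Continuous (fun t : ℝ => ((-1 + 3*t/4, t/4) : ℝ × ℝ)); fun_prop
  · show Continuous (fun t : ℝ => ((-t/4, -1 + 3*t/4) : ℝ × ℝ)); fun_prop
  · show Continuous (fun t : ℝ => ((1 - 3*t/4, -t/4) : ℝ × ℝ)); fun_prop
  · show Continuous (fun t : ℝ => ((t/4, 1 - 3*t/4) : ℝ × ℝ)); fun_prop

theorem tArc_inj (k : Fin 12) : Function.Injective (tArc k) := by
  intro s t h
  fin_cases k <;> simp [tArc] at h <;> linarith

theorem tArc_InD (k : Fin 12) (t : ℝ) (h0 : 0 < t) (h1 : t < 1) : InD (tArc k t) := by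
  have key : ∀ x y : ℝ, x + y < 1 → x - y < 1 → -x + y < 1 → -x - y < 1 → |x| + |y| < 1 := by
    intro x y h1 h2 h3 h4
    rcases abs_cases x with h | h <;> rcases abs_cases y with h' | h' <;> linarith
  fin_cases k <;> simp only [tArc, InD] <;> apply key <;> simp <;> linarith

theorem tArc_notInQ (k : Fin 12) (t : ℝ) (h1 : t < 1) : ¬ InQ (tArc k t) := by
  rintro ⟨h2, h3⟩
  rw [abs_lt] at h2 h3
  fin_cases k <;> simp [tArc] at h2 h3 <;> linarith [h2.1, h2.2]

theorem tArc_avoid (k : Fin 12) (t : ℝ) (i : Fin 4) (h0 : 0 < t) (h1 : t < 1) :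
    tArc k t ≠ psiT (corner i) := by
  intro h
  fin_cases k <;> fin_cases i <;> simp [tArc, corner, psiT] at h <;>
    linarith

set_option maxHeartbeats 4000000 in
theorem tArc_disj (k k' : Fin 12) (s t : ℝ) (hk : k ≠ k') (hs0 : 0 < s) (hs1 : s < 1)
    (ht0 : 0 < t) (ht1 : t < 1) : tArc k s ≠ tArc k' t := by
  intro h
  fin_cases k <;> fin_cases k' <;> simp [tArc] at h hk <;>
    linarith

/-- vertices of the layer inside the whole vertex set -/
def tV {I : Type} : Fin 4 ⊕ Fin 4 → Fin 4 ⊕ (Fin 4 ⊕ I) := Sum.map id Sum.inl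

theorem tV_inj {I : Type} : Function.Injective (tV : _ → Fin 4 ⊕ (Fin 4 ⊕ I)) := by
  rintro (i | i) (j | j) h
  · simpa [tV] using h
  · simp [tV] at h
  · simp [tV] at h
  · simpa [tV] using h

/-- add an antiprism layer around a filling -/
noncomputable def T (N : Fil) : Fil where
  I := Fin 4 ⊕ N.I
  K := N.K ⊕ Fin 12
  fI := inferInstance
  fK := inferInstance
  src := Sum.elim (fun k => Sum.inr (N.src k)) (fun k => tV (tSrc k))
  tgt := Sum.elim (fun k => Sum.inr (N.tgt k)) (fun k => tV (tTgt k))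
  pos := fun v => psiT (N.P v)
  arc := Sum.elim (fun k t => psiT (N.arc k t)) tArc

theorem tSrc_tTgt_simple : ∀ k k' : Fin 12, s(tSrc k, tTgt k) = s(tSrc k', tTgt k') → k = k' := by
  decide

theorem tSrc_tTgt_outer : ∀ (k : Fin 12) (i : Fin 4),
    s(tSrc k, tTgt k) ≠ s(Sum.inl i, Sum.inl (i + 1)) := by
  decide

theorem psiT_corner_mem (i : Fin 4) : InD (psiT (corner i)) := by
  fin_cases i <;> norm_num [psiT, corner, InD, abs_of_pos, abs_of_neg]

theorem tArc_zero (k : Fin 12) : tArc k 0 = Sum.elim corner (fun i => psiT (corner i)) (tSrc k) := by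
  fin_cases k <;> simp [tArc, tSrc, corner, psiT]

theorem tArc_one (k : Fin 12) : tArc k 1 = Sum.elim corner (fun i => psiT (corner i)) (tTgt k) := by
  fin_cases k <;> simp [tArc, tTgt, corner, psiT] <;> norm_num

theorem T_P_tV (N : Fil) (v : Fin 4 ⊕ Fin 4) :
    (T N).P (tV v) = Sum.elim corner (fun i => psiT (corner i)) v := by
  rcases v with i | i <;> rfl

theorem T_plane (N : Fil) (h : N.Plane) : (T N).Plane where
  posMem := by
    rintro (i | i)
    · exact psiT_corner_mem i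
    · exact InQ_InD (psiT_InQ (h.posMem i))
  posInj := fun i j hij => h.PInj (psiT_inj hij)
  cont := by
    rintro (k | k)
    · exact psiT_cont.comp (h.cont k)
    · exact tArc_cont k
  arcInj := by
    rintro (k | k)
    · exact fun s hs t ht he => h.arcInj k hs ht (psiT_inj he)
    · exact (tArc_inj k).injOn
  zero := by
    rintro (k | k)
    · exact congrArg psiT (h.zero k)
    · exact (tArc_zero k).trans (T_P_tV N _).symm
  one := by
    rintro (k | k)
    · exact congrArg psiT (h.one k)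
    · exact (tArc_one k).trans (T_P_tV N _).symm
  arcMem := by
    rintro (k | k) t h0 h1
    · exact InQ_InD (psiT_InQ (h.arcMem k t h0 h1))
    · exact tArc_InD k t h0 h1
  avoid := by
    rintro (k | k) t v h0 h1 he
    · exact h.avoid' k t v h0 h1 (psiT_inj he)
    · rcases v with i | i
      · exact tArc_avoid k t i h0 h1 he
      · have he' : tArc k t = psiT (N.pos i) := he
        exact tArc_notInQ k t h1 (he' ▸ psiT_InQ (h.posMem i))
  disj := by
    rintro (k | k) (k' | k') s t hne hs0 hs1 ht0 ht1 he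
    · exact h.disj k k' s t (fun hk => hne (by rw [hk])) hs0 hs1 ht0 ht1 (psiT_inj he)
    · have he' : psiT (N.arc k s) = tArc k' t := he
      exact tArc_notInQ k' t ht1 (he' ▸ psiT_InQ (h.arcMem k s hs0 hs1))
    · have he' : tArc k s = psiT (N.arc k' t) := he
      exact tArc_notInQ k s hs1 (he' ▸ psiT_InQ (h.arcMem k' t ht0 ht1))
    · exact tArc_disj k k' s t (fun hk => hne (by rw [hk])) hs0 hs1 ht0 ht1 he
  simple := by
    have key : ∀ (k : N.K) (k' : Fin 12),
        s((Sum.inr (N.src k) : Fin 4 ⊕ (Fin 4 ⊕ N.I)), Sum.inr (N.tgt k)) ≠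
          s(tV (tSrc k'), tV (tTgt k')) := by
      intro k k' he
      have inner : ∀ i : Fin 4, s((Sum.inr (N.src k) : Fin 4 ⊕ (Fin 4 ⊕ N.I)), Sum.inr (N.tgt k)) ≠
          s(Sum.inr (Sum.inl i), Sum.inr (Sum.inl (i + 1))) := by
        intro i he
        have he' : Sym2.map (Sum.inr : _ → Fin 4 ⊕ (Fin 4 ⊕ N.I)) s(N.src k, N.tgt k) =
          Sym2.map Sum.inr s(Sum.inl i, Sum.inl (i + 1)) := he
        exact h.outer k i (Sym2.map.injective Sum.inr_injective he')
      fin_cases k'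
      · exact inner 0 he
      · exact inner 1 he
      · exact inner 2 he
      · exact inner 3 he
      all_goals simp [tV, tSrc, tTgt] at he
    rintro (k | k) (k' | k') he
    · have he' : Sym2.map (Sum.inr : _ → Fin 4 ⊕ (Fin 4 ⊕ N.I)) s(N.src k, N.tgt k) =
        Sym2.map Sum.inr s(N.src k', N.tgt k') := he
      rw [h.simple k k' (Sym2.map.injective Sum.inr_injective he')]
    · exact absurd he (key k k')
    · exact absurd he.symm (key k' k)
    · have he' : Sym2.map (tV : _ → Fin 4 ⊕ (Fin 4 ⊕ N.I)) s(tSrc k, tTgt k) =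
        Sym2.map tV s(tSrc k', tTgt k') := he
      rw [tSrc_tTgt_simple k k' (Sym2.map.injective tV_inj he')]
  outer := by
    rintro (k | k) i he
    · have he' : s((Sum.inr (N.src k) : Fin 4 ⊕ (Fin 4 ⊕ N.I)), Sum.inr (N.tgt k)) =
        s(Sum.inl i, Sum.inl (i + 1)) := he
      simp at he'
    · have he' : Sym2.map (tV : _ → Fin 4 ⊕ (Fin 4 ⊕ N.I)) s(tSrc k, tTgt k) =
        Sym2.map tV s(Sum.inl i, Sum.inl (i + 1)) := he
      exact tSrc_tTgt_outer k i (Sym2.map.injective tV_inj he')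

theorem T_AC (N : Fil) : ¬ (T N).AC := by
  have aux : ∀ k : Fin 12, s(tSrc k, tTgt k) ≠ s(Sum.inl 0, Sum.inl 2) := by decide
  rintro ⟨k | k, he⟩
  · have he' : s((Sum.inr (N.src k) : Fin 4 ⊕ (Fin 4 ⊕ N.I)), Sum.inr (N.tgt k)) =
        s(Sum.inl 0, Sum.inl 2) := he
    simp at he'
  · have he' : Sym2.map (tV : _ → Fin 4 ⊕ (Fin 4 ⊕ N.I)) s(tSrc k, tTgt k) =
        Sym2.map tV s(Sum.inl 0, Sum.inl 2) := he
    exact aux k (Sym2.map.injective tV_inj he')

theorem T_BD (N : Fil) : ¬ (T N).BD := by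
  have aux : ∀ k : Fin 12, s(tSrc k, tTgt k) ≠ s(Sum.inl 1, Sum.inl 3) := by decide
  rintro ⟨k | k, he⟩
  · have he' : s((Sum.inr (N.src k) : Fin 4 ⊕ (Fin 4 ⊕ N.I)), Sum.inr (N.tgt k)) =
        s(Sum.inl 1, Sum.inl 3) := he
    simp at he'
  · have he' : Sym2.map (tV : _ → Fin 4 ⊕ (Fin 4 ⊕ N.I)) s(tSrc k, tTgt k) =
        Sym2.map tV s(Sum.inl 1, Sum.inl 3) := he
    exact aux k (Sym2.map.injective tV_inj he')

end Fil

end Pool.Agent.H71Beraha
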